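import Pool.Agent.Helper353.Cut.Core

/-!
Large degrees satisfy all the numerical conditions.
-/

open scoped BigOperators Topology
open Filter

namespace Pool.Agent.Helper353.Cut

lemma tendsto_lin_exp {a : ℝ} (ha : 0 < a) (A B : ℝ) :
    Tendsto (fun x : ℝ => Real.exp (-(a * x)) * (A * x + B)) atTop (𝓝 0) := by
  have h1 : Tendsto (fun x : ℝ => x ^ 1 * Real.exp (-x)) atTop (𝓝 0) :=
    Real.tendsto_pow_mul_exp_neg_atTop_nhds_zero 1
  have h0 : Tendsto (fun x : ℝ => x ^ 0 * Real.exp (-x)) atTop (𝓝 0) :=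
    Real.tendsto_pow_mul_exp_neg_atTop_nhds_zero 0
  have h2 : Tendsto (fun x : ℝ => a * x) atTop atTop := tendsto_id.const_mul_atTop ha
  have h3 := ((h1.comp h2).const_mul (A / a)).add ((h0.comp h2).const_mul B)
  rw [mul_zero, mul_zero, add_zero] at h3
  refine h3.congr fun x => ?_
  simp only [Function.comp_apply, pow_one, pow_zero, one_mul]
  field_simp

lemma tendsto_logn : Tendsto (fun n : ℕ => Real.log n) atTop atTop :=
  Real.tendsto_log_atTop.comp tendsto_natCast_atTop_atTop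

lemma tendsto_t0 {C : ℝ} (hC : 0 < C) : Tendsto (fun n : ℕ => t₀ C n) atTop atTop := by
  unfold t₀
  exact ((tendsto_natCast_atTop_atTop (R := ℝ)).atTop_mul_atTop₀ tendsto_logn).atTop_div_const
    (by positivity)

theorem eventually_big {c C ε d : ℝ} (hc : 0 < c) (hC : 0 < C) (hε : 0 < ε) (hd : 0 < d) :
    ∀ᶠ n : ℕ in atTop, Big c C ε d n := by
  have hL := tendsto_logn
  have hT := tendsto_t0 hC
  have e1 : ∀ᶠ n : ℕ in atTop, 0 < n := eventually_gt_atTop 0
  have e2 : ∀ᶠ n : ℕ in atTop, 1 ≤ Real.log n := hL.eventually_ge_atTop 1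
  have e3 : ∀ᶠ n : ℕ in atTop,
      (16 * Real.log n + 2) / Real.exp (Real.log n / 2) + 2 / t₀ C n < ε := by
    have h1 := (tendsto_lin_exp (a := 1 / 2) (by norm_num) 16 2).comp hL
    have h2 : Tendsto (fun n : ℕ => 2 / t₀ C n) atTop (𝓝 0) := hT.const_div_atTop 2
    have h3 := h1.add h2
    rw [add_zero] at h3
    have h4 := h3.eventually (gt_mem_nhds hε)
    filter_upwards [h4] with n hn
    simp only [Function.comp_apply] at hn
    refine lt_of_le_of_lt (le_of_eq ?_) hn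
    congr 1
    rw [div_eq_mul_inv, ← Real.exp_neg, mul_comm]
    congr 2
    ring
  have e4 : ∀ᶠ n : ℕ in atTop, Real.log (8 * C / c) ≤ Real.log n := hL.eventually_ge_atTop _
  have e5 : ∀ᶠ n : ℕ in atTop, Real.log ((4 + 32 * C) / c) ≤ Real.log n :=
    hL.eventually_ge_atTop _
  have e6 : ∀ᶠ n : ℕ in atTop, Real.exp (-(c * d / (16 * C) * Real.log n)) *
      (2 * Real.log (4 / ε) + 32 * C * (1 + d) * (1 + 3 * Real.log n / 2) / (ε * c * d)) ≤
        (ε / 8) ^ 2 := by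
    have h1 := (tendsto_lin_exp (a := c * d / (16 * C)) (by positivity)
      (32 * C * (1 + d) * (3 / 2) / (ε * c * d))
      (2 * Real.log (4 / ε) + 32 * C * (1 + d) / (ε * c * d))).comp hL
    have h4 := h1.eventually (gt_mem_nhds (show (0 : ℝ) < (ε / 8) ^ 2 by positivity))
    filter_upwards [h4] with n hn
    simp only [Function.comp_apply] at hn
    refine le_trans (le_of_eq ?_) hn.le
    congr 1
    ring
  have e7 : ∀ᶠ n : ℕ in atTop, 2 * Real.exp (-(c * d / (32 * C) * Real.log n)) ≤ ε / 8 := by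
    have h1 := (tendsto_lin_exp (a := c * d / (32 * C)) (by positivity) 0 2).comp hL
    have h4 := h1.eventually (gt_mem_nhds (show (0 : ℝ) < ε / 8 by positivity))
    filter_upwards [h4] with n hn
    simp only [Function.comp_apply] at hn
    refine le_trans (le_of_eq ?_) hn.le
    ring
  have b1 : ∀ᶠ n : ℕ in atTop, 2 * (1 + d) / (d ^ 2 * ε) ≤ t₀ C n := hT.eventually_ge_atTop _
  have b2 : ∀ᶠ n : ℕ in atTop, 256 / (ε ^ 2 * d) ≤ t₀ C n := hT.eventually_ge_atTop _
  have b3 : ∀ᶠ n : ℕ in atTop, 8 * 256 ^ 2 / (ε ^ 5 * d ^ 2) ≤ t₀ C n :=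
    hT.eventually_ge_atTop _
  have b4 : ∀ᶠ n : ℕ in atTop, 4 / d ≤ t₀ C n := hT.eventually_ge_atTop _
  filter_upwards [e1, e2, e3, e4, e5, e6, e7, b1, b2, b3, b4] with n e1 e2 e3 e4 e5 e6 e7 b1 b2 b3 b4
  exact ⟨e1, e2, e3, e4, e5, e6, e7, b1, b2, b3, b4⟩

end Pool.Agent.Helper353.Cut
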