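import Mathlib

/-!
Functions on the symmetric group, the one step operator of the biased transposition walk and its
continuous-time semigroup.
-/

open scoped BigOperators

namespace Pool.Agent.Helper353.Cut

/-- the symmetric group -/
abbrev G (n : ℕ) : Type := Equiv.Perm (Fin n)

/-- functions on the symmetric group -/
abbrev V (n : ℕ) : Type := G n → ℝ

variable {n : ℕ}

/-- uniform average -/
noncomputable def av (f : V n) : ℝ := (∑ x, f x) / (Fintype.card (G n) : ℝ)

lemma card_pos : (0 : ℝ) < (Fintype.card (G n) : ℝ) := by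
  exact_mod_cast Fintype.card_pos

lemma av_add (f g : V n) : av (fun x => f x + g x) = av f + av g := by
  unfold av
  rw [Finset.sum_add_distrib, add_div]

lemma av_sub (f g : V n) : av (fun x => f x - g x) = av f - av g := by
  unfold av
  rw [Finset.sum_sub_distrib, sub_div]

lemma av_smul (a : ℝ) (f : V n) : av (fun x => a * f x) = a * av f := by
  unfold av
  rw [← Finset.mul_sum, mul_div_assoc]

lemma av_const (a : ℝ) : av (fun _ : G n => a) = a := by
  unfold av
  rw [Finset.sum_const, Finset.card_univ, nsmul_eq_mul, mul_div_cancel_left₀]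
  exact card_pos.ne'

lemma av_mono {f g : V n} (h : ∀ x, f x ≤ g x) : av f ≤ av g := by
  unfold av
  exact div_le_div_of_nonneg_right (Finset.sum_le_sum fun x _ => h x) card_pos.le

lemma av_nonneg {f : V n} (h : ∀ x, 0 ≤ f x) : 0 ≤ av f := by
  unfold av
  exact div_nonneg (Finset.sum_nonneg fun x _ => h x) card_pos.le

lemma av_sum {ι : Type*} (s : Finset ι) (f : ι → V n) :
    av (fun x => ∑ i ∈ s, f i x) = ∑ i ∈ s, av (f i) := by
  unfold av
  rw [Finset.sum_comm, Finset.sum_div]

lemma av_mul_left (f : V n) (z : G n) : av (fun x => f (z * x)) = av f := by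
  unfold av
  congr 1
  exact Equiv.sum_comp (Equiv.mulLeft z) f

lemma av_mul_right (f : V n) (z : G n) : av (fun x => f (x * z)) = av f := by
  unfold av
  congr 1
  exact Equiv.sum_comp (Equiv.mulRight z) f

lemma av_inv (f : V n) : av (fun x => f x⁻¹) = av f := by
  unfold av
  congr 1
  exact Equiv.sum_comp (Equiv.inv (G n)) f

lemma abs_av_le (f : V n) : |av f| ≤ av (fun x => |f x|) := by
  unfold av
  rw [abs_div, abs_of_pos (card_pos (n := n))]
  exact div_le_div_of_nonneg_right (Finset.abs_sum_le_sum_abs _ _) card_pos.le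

/-- nearly uniform weights -/
structure NU (c C : ℝ) (p : Fin n → Fin n → ℝ) : Prop where
  sum_eq : ∑ i, ∑ j, p i j = 1
  lb : ∀ i j, c / (n : ℝ) ^ 2 ≤ p i j
  ub : ∀ i j, p i j ≤ C / (n : ℝ) ^ 2

/-- probability weights -/
structure PW (p : Fin n → Fin n → ℝ) : Prop where
  sum_eq : ∑ i, ∑ j, p i j = 1
  nonneg : ∀ i j, 0 ≤ p i j

lemma NU.pw {c C : ℝ} {p : Fin n → Fin n → ℝ} (h : NU c C p) (hc : 0 < c) : PW p :=
  ⟨h.sum_eq, fun i j => le_trans (by positivity) (h.lb i j)⟩

/-- one step of the walk, acting on functions -/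
noncomputable def P (p : Fin n → Fin n → ℝ) : V n →L[ℝ] V n :=
  LinearMap.toContinuousLinearMap
    { toFun := fun f x => ∑ i, ∑ j, p i j * f (Equiv.swap i j * x)
      map_add' := by
        intro f g
        ext x
        simp only [Pi.add_apply, mul_add, Finset.sum_add_distrib]
      map_smul' := by
        intro a f
        ext x
        simp only [Pi.smul_apply, smul_eq_mul, RingHom.id_apply, Finset.mul_sum]
        exact Finset.sum_congr rfl fun i _ => Finset.sum_congr rfl fun j _ => by ring }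

lemma P_apply (p : Fin n → Fin n → ℝ) (f : V n) (x : G n) :
    P p f x = ∑ i, ∑ j, p i j * f (Equiv.swap i j * x) := rfl

lemma P_const {p : Fin n → Fin n → ℝ} (h : PW p) (a : ℝ) (x : G n) :
    P p (fun _ => a) x = a := by
  rw [P_apply]
  simp_rw [← Finset.sum_mul]
  rw [h.sum_eq, one_mul]

lemma P_nonneg {p : Fin n → Fin n → ℝ} (h : PW p) {f : V n} (hf : ∀ x, 0 ≤ f x) (x : G n) :
    0 ≤ P p f x := by
  rw [P_apply]
  exact Finset.sum_nonneg fun i _ => Finset.sum_nonneg fun j _ =>
    mul_nonneg (h.nonneg i j) (hf _)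

lemma P_mono {p : Fin n → Fin n → ℝ} (h : PW p) {f g : V n} (hfg : ∀ x, f x ≤ g x) (x : G n) :
    P p f x ≤ P p g x := by
  rw [P_apply, P_apply]
  exact Finset.sum_le_sum fun i _ => Finset.sum_le_sum fun j _ =>
    mul_le_mul_of_nonneg_left (hfg _) (h.nonneg i j)

lemma swap_mul_cancel (i j : Fin n) (x : G n) :
    Equiv.swap i j * (Equiv.swap i j * x) = x := by
  rw [← mul_assoc, Equiv.swap_mul_self, one_mul]

lemma P_selfadj (p : Fin n → Fin n → ℝ) (f g : V n) :
    av (fun x => P p f x * g x) = av (fun x => f x * P p g x) := by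
  have h1 : ∀ x, P p f x * g x = ∑ i, ∑ j, p i j * (f (Equiv.swap i j * x) * g x) := by
    intro x
    rw [P_apply, Finset.sum_mul]
    refine Finset.sum_congr rfl fun i _ => ?_
    rw [Finset.sum_mul]
    exact Finset.sum_congr rfl fun j _ => by ring
  have h2 : ∀ x, f x * P p g x = ∑ i, ∑ j, p i j * (f x * g (Equiv.swap i j * x)) := by
    intro x
    rw [P_apply, Finset.mul_sum]
    refine Finset.sum_congr rfl fun i _ => ?_
    rw [Finset.mul_sum]
    exact Finset.sum_congr rfl fun j _ => by ring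
  simp_rw [h1, h2]
  rw [av_sum, av_sum]
  refine Finset.sum_congr rfl fun i _ => ?_
  rw [av_sum, av_sum]
  refine Finset.sum_congr rfl fun j _ => ?_
  rw [av_smul, av_smul]
  congr 1
  rw [← av_mul_left (fun x => f x * g (Equiv.swap i j * x)) (Equiv.swap i j)]
  simp_rw [swap_mul_cancel]

lemma av_P {p : Fin n → Fin n → ℝ} (h : PW p) (f : V n) : av (P p f) = av f := by
  have := P_selfadj p f (fun _ => 1)
  simp only [mul_one] at this
  rw [show (fun x => P p f x) = P p f from rfl] at this
  rw [this]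
  congr 1
  ext x
  rw [P_const h, mul_one]

lemma P_shift (p : Fin n → Fin n → ℝ) (f : V n) (z x : G n) :
    P p (fun y => f (y * z)) x = P p f (x * z) := by
  rw [P_apply, P_apply]
  simp_rw [mul_assoc]

lemma abs_P_le {p : Fin n → Fin n → ℝ} (h : PW p) (f : V n) (x : G n) :
    |P p f x| ≤ P p (fun y => |f y|) x := by
  rw [abs_le]
  constructor
  · have := P_mono h (f := fun y => -|f y|) (g := f) (fun y => neg_abs_le _) x
    have h2 : P p (fun y => -|f y|) x = - P p (fun y => |f y|) x := by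
      rw [P_apply, P_apply, ← Finset.sum_neg_distrib]
      refine Finset.sum_congr rfl fun i _ => ?_
      rw [← Finset.sum_neg_distrib]
      exact Finset.sum_congr rfl fun j _ => by ring
    rwa [h2] at this
  · exact P_mono h (fun y => le_abs_self _) x

/-- the generator -/
noncomputable def A (p : Fin n → Fin n → ℝ) : V n →L[ℝ] V n := P p - 1

lemma A_apply (p : Fin n → Fin n → ℝ) (f : V n) (x : G n) : A p f x = P p f x - f x := rfl

/-- the continuous-time semigroup -/
noncomputable def K (p : Fin n → Fin n → ℝ) (t : ℝ) : V n →L[ℝ] V n :=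
  NormedSpace.exp (t • A p)

noncomputable local instance : NormedAlgebra ℚ (V n →L[ℝ] V n) :=
  NormedAlgebra.restrictScalars ℚ ℝ _

lemma K_zero (p : Fin n → Fin n → ℝ) : K p 0 = 1 := by
  unfold K
  rw [zero_smul, NormedSpace.exp_zero]

lemma K_add (p : Fin n → Fin n → ℝ) (s t : ℝ) : K p (s + t) = K p s * K p t := by
  unfold K
  rw [add_smul, NormedSpace.exp_add_of_commute]
  exact ((Commute.refl (A p)).smul_left s).smul_right t

lemma K_hasDerivAt (p : Fin n → Fin n → ℝ) (t : ℝ) :
    HasDerivAt (fun s => K p s) (A p * K p t) t :=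
  hasDerivAt_exp_smul_const' (𝕂 := ℝ) (A p) t

lemma K_comm_A (p : Fin n → Fin n → ℝ) (t : ℝ) : Commute (K p t) (A p) := by
  unfold K
  exact (((Commute.refl (A p)).smul_left t).exp_left)

lemma P_eq (p : Fin n → Fin n → ℝ) : P p = A p + 1 := by
  unfold A
  abel

lemma K_comm_P (p : Fin n → Fin n → ℝ) (t : ℝ) : Commute (K p t) (P p) := by
  rw [P_eq]
  exact (K_comm_A p t).add_right (Commute.one_right _)

lemma K_hasSum_clm (p : Fin n → Fin n → ℝ) (t : ℝ) :
    HasSum (fun m : ℕ => (Real.exp (-t) * (t ^ m / (m.factorial : ℝ))) • (P p) ^ m) (K p t) := by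
  have h1 : t • A p = t • P p + (-t) • (1 : V n →L[ℝ] V n) := by
    rw [P_eq]
    module
  have h2 : K p t = Real.exp (-t) • NormedSpace.exp (t • P p) := by
    unfold K
    rw [h1, NormedSpace.exp_add_of_commute
      (((Commute.one_right (P p)).smul_left t).smul_right (-t))]
    have h3 : NormedSpace.exp ((-t) • (1 : V n →L[ℝ] V n)) =
        Real.exp (-t) • (1 : V n →L[ℝ] V n) := by
      have := NormedSpace.algebraMap_exp_comm (𝕂 := ℝ) (𝔸 := V n →L[ℝ] V n) (-t)
      rw [Algebra.algebraMap_eq_smul_one, Algebra.algebraMap_eq_smul_one] at this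
      rw [← this, Real.exp_eq_exp_ℝ]
    rw [h3, mul_smul_comm, mul_one]
  rw [h2]
  have h4 := NormedSpace.exp_series_hasSum_exp' (𝕂 := ℝ) (t • P p)
  have h5 := h4.const_smul (Real.exp (-t))
  have h6 : (fun m : ℕ => (Real.exp (-t) * (t ^ m / (m.factorial : ℝ))) • (P p) ^ m) =
      fun m : ℕ => Real.exp (-t) • ((m.factorial : ℝ)⁻¹ • (t • P p) ^ m) := by
    funext m
    rw [smul_pow, smul_smul, smul_smul]
    congr 1
    field_simp
  rw [h6]
  exact h5

/-- Poisson weights -/
noncomputable def pw (t : ℝ) (m : ℕ) : ℝ := Real.exp (-t) * (t ^ m / (m.factorial : ℝ))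

lemma pw_nonneg {t : ℝ} (ht : 0 ≤ t) (m : ℕ) : 0 ≤ pw t m := by
  unfold pw
  positivity

lemma K_hasSum (p : Fin n → Fin n → ℝ) (t : ℝ) (f : V n) (x : G n) :
    HasSum (fun m : ℕ => pw t m * ((P p) ^ m) f x) (K p t f x) := by
  have h1 := K_hasSum_clm p t
  have h2 := h1.mapL (ContinuousLinearMap.apply ℝ (V n) f)
  have h3 := h2.mapL (ContinuousLinearMap.proj (R := ℝ) (φ := fun _ : G n => ℝ) x)
  exact h3

lemma pw_hasSum (t : ℝ) : HasSum (pw t) 1 := by
  have h1 := NormedSpace.expSeries_div_hasSum_exp (𝔸 := ℝ) t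
  rw [← Real.exp_eq_exp_ℝ] at h1
  have h2 := h1.mul_left (Real.exp (-t))
  rw [← Real.exp_add, neg_add_cancel, Real.exp_zero] at h2
  exact h2

/-- derivative of the semigroup on a function -/
lemma K_hasDerivAt_apply (p : Fin n → Fin n → ℝ) (f : V n) (t : ℝ) :
    HasDerivAt (fun s => K p s f) (A p (K p t f)) t := by
  have h := (K_hasDerivAt p t).clm_apply (hasDerivAt_const t f)
  simpa using h

lemma A_K (p : Fin n → Fin n → ℝ) (f : V n) (t : ℝ) : A p (K p t f) = K p t (A p f) := by
  have h := (K_comm_A p t).eq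
  exact congrArg (fun T : V n →L[ℝ] V n => T f) h.symm

lemma P_K (p : Fin n → Fin n → ℝ) (f : V n) (t : ℝ) : P p (K p t f) = K p t (P p f) := by
  have h := (K_comm_P p t).eq
  exact congrArg (fun T : V n →L[ℝ] V n => T f) h.symm

lemma K_add_apply (p : Fin n → Fin n → ℝ) (s t : ℝ) (f : V n) :
    K p (s + t) f = K p s (K p t f) := by
  rw [K_add]; rfl

lemma Ppow_succ_apply (p : Fin n → Fin n → ℝ) (m : ℕ) (f : V n) :
    (P p ^ (m + 1)) f = P p ((P p ^ m) f) := by
  rw [pow_succ']; rfl

lemma Ppow_add_apply (p : Fin n → Fin n → ℝ) (m k : ℕ) (f : V n) :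
    (P p ^ (m + k)) f = (P p ^ m) ((P p ^ k) f) := by
  rw [pow_add]; rfl

lemma Ppow_nonneg {p : Fin n → Fin n → ℝ} (h : PW p) (m : ℕ) {f : V n} (hf : ∀ x, 0 ≤ f x)
    (x : G n) : 0 ≤ (P p ^ m) f x := by
  induction m generalizing x with
  | zero => simpa using hf x
  | succ m ih =>
    rw [Ppow_succ_apply]
    exact P_nonneg h ih x

lemma Ppow_mono {p : Fin n → Fin n → ℝ} (h : PW p) (m : ℕ) {f g : V n} (hf : ∀ x, f x ≤ g x)
    (x : G n) : (P p ^ m) f x ≤ (P p ^ m) g x := by
  induction m generalizing x with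
  | zero => simpa using hf x
  | succ m ih =>
    rw [Ppow_succ_apply, Ppow_succ_apply]
    exact P_mono h ih x

lemma Ppow_const {p : Fin n → Fin n → ℝ} (h : PW p) (m : ℕ) (a : ℝ) :
    (P p ^ m) (fun _ => a) = fun _ => a := by
  induction m with
  | zero => simp
  | succ m ih =>
    rw [Ppow_succ_apply, ih]
    ext x
    exact P_const h a x

lemma av_Ppow {p : Fin n → Fin n → ℝ} (h : PW p) (m : ℕ) (f : V n) :
    av ((P p ^ m) f) = av f := by
  induction m with
  | zero => simp
  | succ m ih => rw [Ppow_succ_apply, av_P h, ih]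

lemma Ppow_selfadj (p : Fin n → Fin n → ℝ) (m : ℕ) (f g : V n) :
    av (fun x => (P p ^ m) f x * g x) = av (fun x => f x * (P p ^ m) g x) := by
  induction m generalizing f g with
  | zero => simp
  | succ m ih =>
    rw [Ppow_succ_apply, P_selfadj, ih]
    rw [show (P p ^ m) (P p g) = (P p ^ (m + 1)) g by rw [pow_succ]; rfl]

lemma Ppow_shift (p : Fin n → Fin n → ℝ) (m : ℕ) (f : V n) (z x : G n) :
    (P p ^ m) (fun y => f (y * z)) x = (P p ^ m) f (x * z) := by
  induction m generalizing x with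
  | zero => simp
  | succ m ih =>
    rw [Ppow_succ_apply, Ppow_succ_apply, ← P_shift,
      show (P p ^ m) (fun y => f (y * z)) = fun y => (P p ^ m) f (y * z) from funext ih]

lemma K_nonneg {p : Fin n → Fin n → ℝ} (h : PW p) {t : ℝ} (ht : 0 ≤ t) {f : V n}
    (hf : ∀ x, 0 ≤ f x) (x : G n) : 0 ≤ K p t f x :=
  (K_hasSum p t f x).nonneg fun m => mul_nonneg (pw_nonneg ht m) (Ppow_nonneg h m hf x)

lemma K_mono {p : Fin n → Fin n → ℝ} (h : PW p) {t : ℝ} (ht : 0 ≤ t) {f g : V n}
    (hfg : ∀ x, f x ≤ g x) (x : G n) : K p t f x ≤ K p t g x :=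
  hasSum_le (fun m => mul_le_mul_of_nonneg_left (Ppow_mono h m hfg x) (pw_nonneg ht m))
    (K_hasSum p t f x) (K_hasSum p t g x)

lemma K_const {p : Fin n → Fin n → ℝ} (h : PW p) (t : ℝ) (a : ℝ) :
    K p t (fun _ => a) = fun _ => a := by
  ext x
  have h1 := K_hasSum p t (fun _ => a) x
  simp_rw [Ppow_const h] at h1
  have h2 := (pw_hasSum t).mul_right a
  rw [one_mul] at h2
  exact h1.unique h2

lemma K_shift (p : Fin n → Fin n → ℝ) (t : ℝ) (f : V n) (z x : G n) :
    K p t (fun y => f (y * z)) x = K p t f (x * z) := by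
  have h1 := K_hasSum p t (fun y => f (y * z)) x
  simp_rw [Ppow_shift] at h1
  exact h1.unique (K_hasSum p t f (x * z))

lemma hasSum_av {F : ℕ → V n} {f : V n} (h : ∀ x, HasSum (fun m => F m x) (f x)) :
    HasSum (fun m => av (F m)) (av f) := by
  unfold av
  exact (hasSum_sum fun x _ => h x).div_const _

lemma K_selfadj (p : Fin n → Fin n → ℝ) (t : ℝ) (f g : V n) :
    av (fun x => K p t f x * g x) = av (fun x => f x * K p t g x) := by
  have h1 := hasSum_av (F := fun m x => pw t m * ((P p) ^ m) f x * g x)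
    (f := fun x => K p t f x * g x) (fun x => (K_hasSum p t f x).mul_right (g x))
  have h2 := hasSum_av (F := fun m x => f x * (pw t m * ((P p) ^ m) g x))
    (f := fun x => f x * K p t g x) (fun x => (K_hasSum p t g x).mul_left (f x))
  refine h1.unique ?_
  convert h2 using 2 with m
  have h3 := Ppow_selfadj p m f g
  have e1 : av (fun x => pw t m * ((P p) ^ m) f x * g x) =
      pw t m * av (fun x => ((P p) ^ m) f x * g x) := by
    rw [← av_smul]; congr 1; ext x; ring
  have e2 : av (fun x => f x * (pw t m * ((P p) ^ m) g x)) =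
      pw t m * av (fun x => f x * ((P p) ^ m) g x) := by
    rw [← av_smul]; congr 1; ext x; ring
  rw [e1, e2, h3]

lemma av_K {p : Fin n → Fin n → ℝ} (h : PW p) (t : ℝ) (f : V n) : av (K p t f) = av f := by
  have h1 := K_selfadj p t f (fun _ => 1)
  rw [K_const h] at h1
  simpa using h1

lemma abs_K_le {p : Fin n → Fin n → ℝ} (h : PW p) {t : ℝ} (ht : 0 ≤ t) (f : V n) (x : G n) :
    |K p t f x| ≤ K p t (fun y => |f y|) x := by
  rw [abs_le]
  constructor
  · have h1 := K_mono h ht (f := fun y => -|f y|) (g := f) (fun y => neg_abs_le _) x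
    have h2 : K p t (fun y => -|f y|) = - K p t (fun y => |f y|) := by
      rw [← map_neg]; rfl
    rw [h2] at h1
    exact h1
  · exact K_mono h ht (fun y => le_abs_self _) x

lemma abs_Ppow_le {p : Fin n → Fin n → ℝ} (h : PW p) (m : ℕ) (f : V n) (x : G n) :
    |(P p ^ m) f x| ≤ (P p ^ m) (fun y => |f y|) x := by
  rw [abs_le]
  constructor
  · have h1 := Ppow_mono h m (f := fun y => -|f y|) (g := f) (fun y => neg_abs_le _) x
    have h2 : (P p ^ m) (fun y => -|f y|) = - (P p ^ m) (fun y => |f y|) := by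
      rw [← map_neg]; rfl
    rw [h2] at h1
    exact h1
  · exact Ppow_mono h m (fun y => le_abs_self _) x

end Pool.Agent.Helper353.Cut
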