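import Pool.Agent.Helper353.Cut.Decay

/-!
The main argument for a fixed large degree.
-/

open scoped BigOperators

namespace Pool.Agent.Helper353.Cut

open Equiv

variable {n : ℕ}

/-- a lower bound for the mixing times -/
noncomputable def t₀ (C : ℝ) (n : ℕ) : ℝ := n * Real.log n / (8 * C)

/-- the degree is large enough -/
structure Big (c C ε d : ℝ) (n : ℕ) : Prop where
  hn : 0 < n
  L1 : 1 ≤ Real.log n
  low : (16 * Real.log n + 2) / Real.exp (Real.log n / 2) + 2 / t₀ C n < ε
  l1 : Real.log (8 * C / c) ≤ Real.log n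
  l2 : Real.log ((4 + 32 * C) / c) ≤ Real.log n
  ent : Real.exp (-(c * d / (16 * C) * Real.log n)) * (2 * Real.log (4 / ε) +
    32 * C * (1 + d) * (1 + 3 * Real.log n / 2) / (ε * c * d)) ≤ (ε / 8) ^ 2
  gap : 2 * Real.exp (-(c * d / (32 * C) * Real.log n)) ≤ ε / 8
  b1 : 2 * (1 + d) / (d ^ 2 * ε) ≤ t₀ C n
  b2 : 256 / (ε ^ 2 * d) ≤ t₀ C n
  b3 : 8 * 256 ^ 2 / (ε ^ 5 * d ^ 2) ≤ t₀ C n
  b4 : 4 / d ≤ t₀ C n

section

variable {c C ε d : ℝ} {p : Fin n → Fin n → ℝ}

lemma Big.t0_pos (hb : Big c C ε d n) (hC : 0 < C) : 0 < t₀ C n := by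
  have h1 : (0 : ℝ) < n := by exact_mod_cast hb.hn
  have h2 := hb.L1
  unfold t₀
  positivity

/-- the lower bound for the mixing times -/
lemma T_ge (hb : Big c C ε d n) (hc : 0 < c) (hC : c ≤ C) (hp : NU c C p) (T : ℕ)
    (hT : tv (qt p T) ≤ 1 - ε) : t₀ C n ≤ T := by
  by_contra hlt
  rw [not_le] at hlt
  have hC0 : 0 < C := lt_of_lt_of_le hc hC
  have ht0 := hb.t0_pos hC0
  have hn' : (0 : ℝ) < n := by exact_mod_cast hb.hn
  have hL := hb.L1
  set L := Real.log n with hLdef
  have hnL : (n : ℝ) = Real.exp L := by rw [hLdef, Real.exp_log hn']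
  set t := 2 * t₀ C n with ht
  have ht' : 0 < t := by positivity
  have hTt : (T : ℝ) < t := by linarith
  have h1 := tv_ft_le (hp.pw hc) ht'.le T hTt
  have hM : n * Real.exp (-(2 * C / n * t)) = Real.exp (L / 2) := by
    have e1 : 2 * C / n * t = L / 2 := by
      rw [ht]
      unfold t₀
      rw [← hLdef]
      field_simp
      norm_num
    rw [e1]
    nth_rewrite 1 [hnL]
    rw [← Real.exp_add]
    congr 1
    ring
  have h2 := tv_ft_ge hp hc hC0.le hb.hn ht'.le (M := Real.exp (L / 2)) hM.symm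
    (Real.one_le_exp (by linarith))
  have h3 : 64 * (C * t / n) = 16 * L := by
    rw [ht]
    unfold t₀
    rw [← hLdef]
    field_simp
    norm_num
  rw [h3] at h2
  have h4 : t / (t - T) ^ 2 ≤ 2 / t₀ C n := by
    have h5 : t₀ C n ≤ t - T := by linarith
    rw [div_le_div_iff₀ (by have : 0 < t - T := by linarith
                            positivity) ht0]
    have h6 : t₀ C n ^ 2 ≤ (t - T) ^ 2 := pow_le_pow_left₀ ht0.le h5 2
    rw [ht]
    nlinarith
  have h5 := hb.low
  rw [← hLdef] at h5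
  linarith

/-- the logarithmic Lipschitz constant for large times -/
lemma loglip' (hb : Big c C ε d n) (hc : 0 < c) (hC : c ≤ C) (hp : NU c C p) {t : ℝ}
    (ht : t₀ C n ≤ t) (a b : Fin n) (x : G n) :
    |Real.log (ft p t (swap a b * x)) - Real.log (ft p t x)| ≤ 3 * Real.log n := by
  have hC0 : 0 < C := lt_of_lt_of_le hc hC
  have ht0 := hb.t0_pos hC0
  have htpos : 0 < t := lt_of_lt_of_le ht0 ht
  have hn' : (0 : ℝ) < n := by exact_mod_cast hb.hn
  have hL := hb.L1
  set L := Real.log n with hLdef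
  have hnL : (n : ℝ) = Real.exp L := by rw [hLdef, Real.exp_log hn']
  have h1 := loglip hp hc hb.hn htpos (κ := 3 + 32 * C) (by positivity) ?_ a b x
  · refine h1.trans ?_
    have e : (3 + 32 * C + 1) * (n : ℝ) ^ 2 / c = (4 + 32 * C) / c * (n : ℝ) ^ 2 := by ring
    rw [e, Real.log_mul (by positivity) (by positivity), Real.log_pow, ← hLdef]
    have := hb.l2
    push_cast
    linarith
  · have hcard : (Fintype.card (G n) : ℝ) ≤ Real.exp (n * L) := by
      have h2 : Fintype.card (G n) = n.factorial := by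
        have := Fintype.card_perm (α := Fin n)
        rwa [Fintype.card_fin] at this
      rw [h2]
      have h3 : (n.factorial : ℝ) ≤ (n : ℝ) ^ n := by exact_mod_cast Nat.factorial_le_pow n
      refine h3.trans (le_of_eq ?_)
      nth_rewrite 1 [hnL]
      rw [← Real.exp_nat_mul]
    have hpow : Real.exp (-(2 * (n * L))) ≤ (c * t / (n : ℝ) ^ 2) ^ n := by
      have h4 : Real.exp (-(2 * L)) ≤ c * t / (n : ℝ) ^ 2 := by
        have h5 : Real.exp (-L) ≤ c / (8 * C) := by
          have h6 : 8 * C / c ≤ Real.exp L := by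
            rw [← Real.log_le_iff_le_exp (by positivity)]
            exact hb.l1
          rw [Real.exp_neg, inv_le_comm₀ (Real.exp_pos _) (by positivity), inv_div]
          exact h6
        have h7 : Real.exp (-(2 * L)) = Real.exp (-L) * (1 / n) := by
          rw [hnL, one_div, ← Real.exp_neg, ← Real.exp_add]
          congr 1
          ring
        rw [h7]
        have h8 : Real.exp (-L) * (1 / n) ≤ c / (8 * C) * (1 / n) :=
          mul_le_mul_of_nonneg_right h5 (by positivity)
        refine h8.trans ?_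
        rw [le_div_iff₀ (by positivity)]
        have h9 : c / (8 * C) * (1 / n) * (n : ℝ) ^ 2 = c * (n * 1 / (8 * C)) := by
          field_simp
        rw [h9]
        refine mul_le_mul_of_nonneg_left ?_ hc.le
        refine le_trans ?_ ht
        unfold t₀
        rw [← hLdef]
        gcongr
      have h10 := pow_le_pow_left₀ (Real.exp_pos _).le h4 n
      rw [← Real.exp_nat_mul] at h10
      refine le_trans (le_of_eq ?_) h10
      congr 1
      ring
    have hkey : n * L + (1 - (3 + 32 * C) * t - t + Real.exp 1 * t) ≤ -t + -(2 * (n * L)) := by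
      have he : Real.exp 1 ≤ 3 := by
        have := Real.exp_one_lt_d9
        linarith
      have h11 : n * L = 8 * C * t₀ C n := by
        unfold t₀
        rw [← hLdef]
        field_simp
      have h12 : n * L ≤ 8 * C * t := by
        rw [h11]
        exact mul_le_mul_of_nonneg_left ht (by positivity)
      have h13 : 1 ≤ n * L := by
        have : (1 : ℝ) ≤ n := by exact_mod_cast hb.hn
        nlinarith
      have h14 : Real.exp 1 * t ≤ 3 * t := mul_le_mul_of_nonneg_right he htpos.le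
      nlinarith
    calc (Fintype.card (G n) : ℝ) * Real.exp (1 - (3 + 32 * C) * t - t + Real.exp 1 * t)
        ≤ Real.exp (n * L) * Real.exp (1 - (3 + 32 * C) * t - t + Real.exp 1 * t) :=
          mul_le_mul_of_nonneg_right hcard (Real.exp_pos _).le
      _ = Real.exp (n * L + (1 - (3 + 32 * C) * t - t + Real.exp 1 * t)) :=
          (Real.exp_add _ _).symm
      _ ≤ Real.exp (-t + -(2 * (n * L))) := Real.exp_le_exp.2 hkey
      _ = Real.exp (-t) * Real.exp (-(2 * (n * L))) := Real.exp_add _ _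
      _ ≤ Real.exp (-t) * (c * t / (n : ℝ) ^ 2) ^ n :=
          mul_le_mul_of_nonneg_left hpow (Real.exp_pos _).le

/-- the entropy is at most logarithmic shortly after the first mixing time -/
lemma En_log (hb : Big c C ε d n) (hc : 0 < c) (hC : c ≤ C) (hε : 0 < ε) (hε1 : ε < 1)
    (hd : 0 < d) (hp : NU c C p) {s : ℝ} (hs : t₀ C n ≤ s) (htv : tv (ft p s) ≤ 1 - ε / 2) :
    En p ((1 + d) * s) ≤ 2 * Real.log (4 / ε) +
      32 * C * (1 + d) * (1 + 3 * Real.log n / 2) / (ε * c * d) := by
  have hC0 : 0 < C := lt_of_lt_of_le hc hC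
  have ht0 := hb.t0_pos hC0
  have hspos : 0 < s := lt_of_lt_of_le ht0 hs
  have hn' : (0 : ℝ) < n := by exact_mod_cast hb.hn
  have hL := hb.L1
  set L := Real.log n with hLdef
  set κ := ε * c / (32 * C * ((1 + d) * s) * (1 + 3 * L / 2)) with hκdef
  have hκ : 0 < κ := by positivity
  have hh : 0 < 2 * Real.log (4 / ε) := by
    have : 0 < Real.log (4 / ε) := Real.log_pos (by rw [lt_div_iff₀ hε]; linarith)
    linarith
  have h1 := En_ode hp hc hb.hn (s₀ := s) (s₁ := (1 + d) * s) (h₀ := 2 * Real.log (4 / ε))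
    (κ := κ) hspos (by nlinarith) hh hκ ?_
  · refine h1.trans (le_of_eq ?_)
    congr 1
    rw [hκdef]
    have : (1 + d) * s - s = d * s := by ring
    rw [this]
    field_simp
  · intro t ht1 ht2 hH
    have htpos : 0 < t := lt_of_lt_of_le hspos ht1
    have hHpos : 0 < En p t := lt_of_lt_of_le hh hH
    have h2 : tv (ft p t) ≤ 1 - ε / 2 := (tv_ft_anti (hp.pw hc) ht1).trans htv
    have h3 := tv_ent (ft_pos hp hc hb.hn htpos) (av_ft (hp.pw hc) t) (H := En p t)
      (Vv := Vr p t) rfl rfl hHpos h2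
    have h4 : Real.exp (-(En p t / 2)) ≤ ε / 4 := by
      have h5 : Real.log (4 / ε) ≤ En p t / 2 := by linarith
      rw [Real.log_le_iff_le_exp (by positivity)] at h5
      rw [Real.exp_neg, inv_le_comm₀ (Real.exp_pos _) (by positivity), inv_div]
      exact h5
    have h6 : ε / 4 ≤ 4 * Vr p t / En p t ^ 2 := by linarith
    rw [le_div_iff₀ (by positivity)] at h6
    have h7 := Vr_le hp hc hC0.le hb.hn htpos.le (ft_pos hp hc hb.hn htpos) (l := 3 * L)
      (fun a b x => loglip' hb hc hC hp (hs.trans ht1) a b x)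
    have h8 : (2 * C / c) * t * (1 + 3 * L / 2) * Ds p t ≤
        (2 * C / c) * ((1 + d) * s) * (1 + 3 * L / 2) * Ds p t := by
      have := Ds_nonneg hp hc hb.hn htpos
      gcongr
    have h9 : ε / 16 * En p t ^ 2 ≤ (2 * C / c) * ((1 + d) * s) * (1 + 3 * L / 2) * Ds p t := by
      linarith
    rw [hκdef, div_mul_eq_mul_div, div_le_iff₀ (by positivity)]
    have h10 : (2 * C / c) * ((1 + d) * s) * (1 + 3 * L / 2) * Ds p t =
        (Ds p t * (32 * C * ((1 + d) * s) * (1 + 3 * L / 2))) / (16 * c) := by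
      field_simp
      ring
    rw [h10, le_div_iff₀ (by positivity)] at h9
    linarith

/-- the whole argument -/
theorem core (hb : Big c C ε d n) (hc : 0 < c) (hC : c ≤ C) (hε : 0 < ε) (hε1 : ε < 1)
    (hd : 0 < d) (hd1 : d ≤ 1) (hp : NU c C p) (T : ℕ) (hT : tv (qt p T) ≤ 1 - ε) :
    ∃ T' : ℕ, (T' : ℝ) ≤ (1 + d) ^ 3 * (1 + 2 * d) * T ∧ tv (qt p T') ≤ ε := by
  have hC0 : 0 < C := lt_of_lt_of_le hc hC
  have ht0 := hb.t0_pos hC0
  have hn' : (0 : ℝ) < n := by exact_mod_cast hb.hn
  have hL := hb.L1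
  have hTge := T_ge hb hc hC hp T hT
  have hTpos : (0 : ℝ) < T := lt_of_lt_of_le ht0 hTge
  set L := Real.log n with hLdef
  have htn : t₀ C n = n * L / (8 * C) := by unfold t₀; rw [← hLdef]
  -- the first time
  set s := (1 + d) * T with hs
  have hsT : (T : ℝ) ≤ s := by rw [hs]; nlinarith
  have hs0 : t₀ C n ≤ s := hTge.trans hsT
  have hspos : 0 < s := lt_of_lt_of_le ht0 hs0
  have h1 : tv (ft p s) ≤ 1 - ε / 2 := by
    have h2 := tv_ft_le (hp.pw hc) hspos.le T (by rw [hs]; nlinarith)
    have h3 : s / (s - T) ^ 2 ≤ ε / 2 := by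
      have e : s - T = d * T := by rw [hs]; ring
      rw [e, hs, div_le_div_iff₀ (by positivity) (by norm_num)]
      have h4 := hb.b1.trans hTge
      rw [div_le_iff₀ (by positivity)] at h4
      have h5 := mul_le_mul_of_nonneg_right h4 hTpos.le
      nlinarith
    linarith
  -- the second time
  have h2 := En_log hb hc hC hε hε1 hd hp hs0 h1
  rw [← hLdef] at h2
  set s1 := (1 + d) * s with hs1
  have hs1s : s ≤ s1 := by rw [hs1]; nlinarith
  have hs1pos : 0 < s1 := by linarith
  -- the third time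
  set s2 := (1 + d) * s1 with hs2
  have hs2s : s1 ≤ s2 := by rw [hs2]; nlinarith
  have hs2pos : 0 < s2 := by linarith
  have hs2t0 : t₀ C n ≤ s2 := by linarith
  have h3 : En p s2 ≤ (ε / 8) ^ 2 := by
    refine (En_decay hp hc hb.hn hs1pos hs2s).trans ?_
    refine le_trans ?_ hb.ent
    have hE0 := En_nonneg hp hc hb.hn hs1pos
    refine mul_le_mul ?_ h2 hE0 (Real.exp_pos _).le
    apply Real.exp_le_exp.2
    rw [neg_le_neg_iff]
    have e : s2 - s1 = d * s1 := by rw [hs2]; ring
    rw [e]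
    have h4 : t₀ C n ≤ s1 := by linarith
    have h5 : c / (2 * n) * (d * t₀ C n) ≤ c / (2 * n) * (d * s1) := by gcongr
    refine le_trans (le_of_eq ?_) h5
    rw [htn, ← hLdef]
    field_simp
    norm_num
  have h4 : tv (ft p s2) ≤ ε / 8 :=
    tv_le_of_ent (ft_pos hp hc hb.hn hs2pos) (av_ft (hp.pw hc) s2) (by positivity) h3
  -- back to discrete time
  set w := ε ^ 2 * d / 256 with hw
  have hw0 : 0 < w := by positivity
  have hw1 : w ≤ d / 256 := by
    rw [hw]
    have : ε ^ 2 ≤ 1 := by nlinarith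
    have : ε ^ 2 * d ≤ 1 * d := mul_le_mul_of_nonneg_right this hd.le
    linarith
  set W := w * s2 with hW
  have hWpos : 0 < W := by positivity
  have hWs : W ≤ s2 := by
    rw [hW]
    nlinarith
  set m₀ := ⌊s2 - W⌋₊ with hm₀
  set m₁ := ⌈s2 + W⌉₊ with hm₁
  set k := ⌈d * s2⌉₊ with hk
  have hm₀1 : (m₀ : ℝ) ≤ s2 - W := Nat.floor_le (by linarith)
  have hm₀2 : s2 - W < m₀ + 1 := Nat.lt_floor_add_one _
  have hm₁1 : s2 + W ≤ (m₁ : ℝ) := Nat.le_ceil _
  have hm₁2 : (m₁ : ℝ) < s2 + W + 1 := Nat.ceil_lt_add_one (by linarith)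
  have hk1 : d * s2 ≤ (k : ℝ) := Nat.le_ceil _
  have hk2 : (k : ℝ) < d * s2 + 1 := Nat.ceil_lt_add_one (by positivity)
  have hm01 : m₀ ≤ m₁ := by
    have : (m₀ : ℝ) ≤ m₁ := by linarith
    exact_mod_cast this
  have h5 := tv_qt_le hp hc hb.hn hs2pos.le m₀ m₁ k hm01
  refine ⟨m₁ + k, ?_, h5.trans ?_⟩
  · push_cast
    have h6 : (1 + d) ^ 3 * (1 + 2 * d) * T = (1 + 2 * d) * s2 := by
      rw [hs2, hs1, hs]; ring
    rw [h6]
    have h7 := hb.b4.trans hs2t0
    rw [div_le_iff₀ hd] at h7
    have h8 : W ≤ d / 256 * s2 := by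
      rw [hW]
      exact mul_le_mul_of_nonneg_right hw1 hs2pos.le
    linarith
  · have e1 : 1 - ∑ m ∈ Finset.Icc m₀ m₁, pw s2 m ≤ ε / 8 := by
      refine (pw_cheb hs2pos.le _ hWpos ?_).trans ?_
      · intro m hm
        rw [Finset.mem_Icc, not_and_or, not_le, not_le] at hm
        rcases hm with hm | hm
        · have h6 : (m : ℝ) + 1 ≤ m₀ := by exact_mod_cast hm
          rw [abs_sub_comm]
          refine le_trans ?_ (le_abs_self _)
          linarith
        · have h6 : (m₁ : ℝ) < m := by exact_mod_cast hm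
          refine le_trans ?_ (le_abs_self _)
          linarith
      · have h7 := hb.b3.trans hs2t0
        have e2 : s2 / W ^ 2 = 1 / (w ^ 2 * s2) := by
          rw [hW]; field_simp
        rw [e2, div_le_div_iff₀ (by positivity) (by norm_num)]
        rw [div_le_iff₀ (by positivity)] at h7
        have e3 : ε * (w ^ 2 * s2) = s2 * (ε ^ 5 * d ^ 2) / 256 ^ 2 := by
          rw [hw]; ring
        rw [e3, le_div_iff₀ (by positivity)]
        linarith
    have e2 : Real.sqrt (((m₁ - m₀ : ℕ) : ℝ) / (k + 1)) ≤ ε / 8 := by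
      apply Real.sqrt_le_iff.2
      refine ⟨by positivity, ?_⟩
      rw [div_le_iff₀ (by positivity), Nat.cast_sub hm01]
      have h7 := hb.b2.trans hs2t0
      rw [div_le_iff₀ (by positivity)] at h7
      have h8 : (ε / 8) ^ 2 * (d * s2) ≤ (ε / 8) ^ 2 * (k + 1) := by
        refine mul_le_mul_of_nonneg_left ?_ (by positivity)
        linarith
      refine le_trans ?_ h8
      have h9 : (m₁ : ℝ) - m₀ ≤ 2 * W + 2 := by linarith
      refine h9.trans ?_
      rw [hW, hw]
      nlinarith
    have e3 : 2 * (Mc c n) ^ k ≤ ε / 8 := by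
      refine le_trans ?_ hb.gap
      refine mul_le_mul_of_nonneg_left ?_ (by norm_num)
      have hM0 := Mc_pos (hp.c_le_one hb.hn) hb.hn
      have h7 : Mc c n ≤ Real.exp (-(c / (4 * n))) := by
        unfold Mc
        have := Real.add_one_le_exp (-(c / (4 * (n : ℝ))))
        linarith
      refine (pow_le_pow_left₀ hM0.le h7 k).trans ?_
      rw [← Real.exp_nat_mul]
      apply Real.exp_le_exp.2
      rw [mul_neg, neg_le_neg_iff]
      have h8 : d * t₀ C n ≤ (k : ℝ) := (mul_le_mul_of_nonneg_left hs2t0 hd.le).trans hk1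
      have h9 : d * t₀ C n * (c / (4 * n)) ≤ k * (c / (4 * n)) :=
        mul_le_mul_of_nonneg_right h8 (by positivity)
      refine le_trans (le_of_eq ?_) h9
      rw [htn, ← hLdef]
      field_simp
      norm_num
    have e4 := tv_nonneg (ft p s2)
    linarith

end

end Pool.Agent.Helper353.Cut
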