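import Pool.Agent.Helper353.Cut.Entropy

/-!
A crude bound for the logarithmic gradient of the heat kernel.
-/

open scoped BigOperators

namespace Pool.Agent.Helper353.Cut

open Equiv

variable {n : ℕ}

lemma NU.P_ge {c C : ℝ} {p : Fin n → Fin n → ℝ} (hp : NU c C p) (hc : 0 < c) {f : V n}
    (hf : ∀ x, 0 ≤ f x) (a b : Fin n) (x : G n) :
    c / (n : ℝ) ^ 2 * f (swap a b * x) ≤ P p f x := by
  have hpw := hp.pw hc
  rw [P_apply]
  have h1 : p a b * f (swap a b * x) ≤ ∑ j, p a j * f (swap a j * x) :=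
    Finset.single_le_sum (f := fun j => p a j * f (swap a j * x))
      (fun j _ => mul_nonneg (hpw.nonneg a j) (hf _)) (Finset.mem_univ b)
  have h2 : ∑ j, p a j * f (swap a j * x) ≤ ∑ i, ∑ j, p i j * f (swap i j * x) :=
    Finset.single_le_sum (f := fun i => ∑ j, p i j * f (swap i j * x))
      (fun i _ => Finset.sum_nonneg fun j _ => mul_nonneg (hpw.nonneg i j) (hf _))
      (Finset.mem_univ a)
  exact (mul_le_mul_of_nonneg_right (hp.lb a b) (hf _)).trans (h1.trans h2)

lemma Ppow_dl_ge_aux {c C : ℝ} {p : Fin n → Fin n → ℝ} (hp : NU c C p) (hc : 0 < c) :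
    ∀ k : ℕ, k ≤ n → ∀ x : G n, (∀ i : Fin n, (i : ℕ) < n - k → x i = i) →
      (c / (n : ℝ) ^ 2) ^ k * (Fintype.card (G n) : ℝ) ≤ (P p ^ k) dl x := by
  intro k
  induction k with
  | zero =>
    intro _ x hx
    have h1 : x = 1 := by
      ext i
      rw [hx i (by rw [Nat.sub_zero]; exact i.2)]
      rfl
    rw [h1]
    simp [dl]
  | succ k ih =>
    intro hk x hx
    have hj : n - (k + 1) < n := by omega
    set j : Fin n := ⟨n - (k + 1), hj⟩ with hjdef
    have hy : ∀ i : Fin n, (i : ℕ) < n - k → (swap (x j) j * x) i = i := by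
      intro i hi
      rw [Perm.mul_apply]
      by_cases hij : i = j
      · rw [hij, swap_apply_left]
      · have hi2 : (i : ℕ) < n - (k + 1) := by
          have h3 : (i : ℕ) ≠ n - (k + 1) := fun h => hij (Fin.ext h)
          omega
        rw [hx i hi2]
        refine swap_apply_of_ne_of_ne ?_ hij
        intro h
        apply hij
        apply x.injective
        rw [hx i hi2]
        exact h
    have h1 := ih (by omega) _ hy
    rw [Ppow_succ_apply]
    refine le_trans ?_ (hp.P_ge hc (Ppow_nonneg (hp.pw hc) k dl_nonneg) (x j) j x)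
    rw [pow_succ]
    calc (c / (n : ℝ) ^ 2) ^ k * (c / (n : ℝ) ^ 2) * (Fintype.card (G n) : ℝ)
        = c / (n : ℝ) ^ 2 * ((c / (n : ℝ) ^ 2) ^ k * (Fintype.card (G n) : ℝ)) := by ring
      _ ≤ _ := mul_le_mul_of_nonneg_left h1 (by positivity)

lemma Ppow_dl_ge {c C : ℝ} {p : Fin n → Fin n → ℝ} (hp : NU c C p) (hc : 0 < c) (x : G n) :
    (c / (n : ℝ) ^ 2) ^ n * (Fintype.card (G n) : ℝ) ≤ (P p ^ n) dl x :=
  Ppow_dl_ge_aux hp hc n le_rfl x (fun i hi => by omega)

/-- lower bound for the heat kernel -/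
lemma ft_ge {c C : ℝ} {p : Fin n → Fin n → ℝ} (hp : NU c C p) (hc : 0 < c) {t : ℝ} (ht : 0 ≤ t)
    (x : G n) : Real.exp (-t) * (c * t / (n : ℝ) ^ 2) ^ n ≤ ft p t x := by
  have h1 := K_hasSum p t dl x
  have h2 : pw t n * (P p ^ n) dl x ≤ ft p t x :=
    le_hasSum h1 n (fun m _ => mul_nonneg (pw_nonneg ht m)
      (Ppow_nonneg (hp.pw hc) m dl_nonneg x))
  refine le_trans ?_ h2
  have h3 := mul_le_mul_of_nonneg_left (Ppow_dl_ge hp hc x) (pw_nonneg ht n)
  refine le_trans (le_of_eq ?_) h3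
  have hcard : (Fintype.card (G n) : ℝ) = (n.factorial : ℝ) := by
    rw [Fintype.card_perm, Fintype.card_fin]
  unfold pw
  rw [hcard]
  have : (n.factorial : ℝ) ≠ 0 := by positivity
  rw [show c * t / (n : ℝ) ^ 2 = t * (c / (n : ℝ) ^ 2) by ring, mul_pow]
  field_simp

lemma ft_pos {c C : ℝ} {p : Fin n → Fin n → ℝ} (hp : NU c C p) (hc : 0 < c) (hn : 0 < n) {t : ℝ}
    (ht : 0 < t) (x : G n) : 0 < ft p t x := by
  refine lt_of_lt_of_le ?_ (ft_ge hp hc ht.le x)
  have hn' : (0 : ℝ) < n := by exact_mod_cast hn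
  positivity

lemma dl_le (x : G n) : dl x ≤ (Fintype.card (G n) : ℝ) := by
  unfold dl
  split_ifs
  · exact le_rfl
  · exact card_pos.le

/-- upper bound for one more step -/
lemma P_ft_le {c C : ℝ} {p : Fin n → Fin n → ℝ} (hp : NU c C p) (hc : 0 < c) {t : ℝ} (ht : 0 < t)
    (κ : ℝ) (hκ : 0 ≤ κ) (x : G n) : P p (ft p t) x ≤ κ * ft p t x +
      (Fintype.card (G n) : ℝ) * Real.exp (1 - κ * t - t + Real.exp 1 * t) := by
  have hpw := hp.pw hc
  have h1 : HasSum (fun m : ℕ => pw t m * (P p ^ (m + 1)) dl x) (P p (ft p t) x) := by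
    have h0 := K_hasSum p t (P p dl) x
    unfold ft
    rw [P_K]
    have e : ∀ m : ℕ, (P p ^ (m + 1)) dl = (P p ^ m) (P p dl) := fun m => by
      rw [pow_succ]; rfl
    simp_rw [e]
    exact h0
  have h2 : HasSum (fun m : ℕ => pw t (m + 1) * (P p ^ (m + 1)) dl x)
      (ft p t x - pw t 0 * (P p ^ 0) dl x) := by
    have := (hasSum_nat_add_iff' (f := fun m : ℕ => pw t m * (P p ^ m) dl x) 1).2
      (K_hasSum p t dl x)
    rw [Finset.sum_range_one] at this
    exact this
  have h3 : HasSum (fun m : ℕ => pw t m * Real.exp ((m : ℝ) + 1 - κ * t))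
      (Real.exp (1 - κ * t - t + Real.exp 1 * t)) := by
    have h4 := (pw_hasSum (Real.exp 1 * t)).mul_left (Real.exp (1 - κ * t - t + Real.exp 1 * t))
    rw [mul_one] at h4
    have e : ∀ m : ℕ, pw t m * Real.exp ((m : ℝ) + 1 - κ * t) =
        Real.exp (1 - κ * t - t + Real.exp 1 * t) * pw (Real.exp 1 * t) m := by
      intro m
      unfold pw
      rw [mul_pow, ← Real.exp_nat_mul, mul_one]
      have e2 : Real.exp (-t) * Real.exp ((m : ℝ) + 1 - κ * t) =
          Real.exp (1 - κ * t - t + Real.exp 1 * t) * Real.exp (-(Real.exp 1 * t)) *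
            Real.exp m := by
        rw [← Real.exp_add, ← Real.exp_add, ← Real.exp_add]
        congr 1
        ring
      calc Real.exp (-t) * (t ^ m / (m.factorial : ℝ)) * Real.exp ((m : ℝ) + 1 - κ * t)
          = (Real.exp (-t) * Real.exp ((m : ℝ) + 1 - κ * t)) * (t ^ m / (m.factorial : ℝ)) := by
            ring
        _ = _ := by rw [e2]; ring
    simp_rw [e]
    exact h4
  have h5 : ∀ m : ℕ, pw t m * (P p ^ (m + 1)) dl x ≤
      κ * (pw t (m + 1) * (P p ^ (m + 1)) dl x) +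
        (Fintype.card (G n) : ℝ) * (pw t m * Real.exp ((m : ℝ) + 1 - κ * t)) := by
    intro m
    set a := (P p ^ (m + 1)) dl x with ha
    have ha0 : 0 ≤ a := Ppow_nonneg hpw (m + 1) dl_nonneg x
    have haN : a ≤ (Fintype.card (G n) : ℝ) := by
      have := Ppow_mono hpw (m + 1) (f := dl) (g := fun _ => (Fintype.card (G n) : ℝ)) dl_le x
      rwa [Ppow_const hpw] at this
    have hw := pw_nonneg ht.le m
    have hw1 := pw_nonneg ht.le (m + 1)
    have hwm : pw t m = pw t (m + 1) * (((m : ℝ) + 1) / t) := by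
      unfold pw
      rw [Nat.factorial_succ, pow_succ]
      push_cast
      have : (0 : ℝ) < (m : ℝ) + 1 := by positivity
      field_simp
    have hN : 0 ≤ (Fintype.card (G n) : ℝ) := card_pos.le
    rcases le_or_gt ((m : ℝ) + 1) (κ * t) with h | h
    · have h8 : ((m : ℝ) + 1) / t ≤ κ := by
        rw [div_le_iff₀ ht]
        exact h
      have h9 : pw t m * a ≤ κ * (pw t (m + 1) * a) := by
        calc pw t m * a = pw t (m + 1) * a * (((m : ℝ) + 1) / t) := by rw [hwm]; ring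
          _ ≤ pw t (m + 1) * a * κ := mul_le_mul_of_nonneg_left h8 (mul_nonneg hw1 ha0)
          _ = _ := by ring
      have h10 : 0 ≤ (Fintype.card (G n) : ℝ) * (pw t m * Real.exp ((m : ℝ) + 1 - κ * t)) := by
        positivity
      linarith
    · have h8 : 1 ≤ Real.exp ((m : ℝ) + 1 - κ * t) := Real.one_le_exp (by linarith)
      have h9 : pw t m * a ≤
          (Fintype.card (G n) : ℝ) * (pw t m * Real.exp ((m : ℝ) + 1 - κ * t)) := by
        calc pw t m * a ≤ pw t m * (Fintype.card (G n) : ℝ) :=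
              mul_le_mul_of_nonneg_left haN hw
          _ = (Fintype.card (G n) : ℝ) * (pw t m * 1) := by ring
          _ ≤ _ := by gcongr
      have h10 : 0 ≤ κ * (pw t (m + 1) * a) := by positivity
      linarith
  have h6 := hasSum_le h5 h1 ((h2.mul_left κ).add (h3.mul_left (Fintype.card (G n) : ℝ)))
  refine h6.trans ?_
  have h7 : 0 ≤ pw t 0 * (P p ^ 0) dl x :=
    mul_nonneg (pw_nonneg ht.le 0) (Ppow_nonneg hpw 0 dl_nonneg x)
  nlinarith

/-- the logarithmic Lipschitz bound -/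
theorem loglip {c C : ℝ} {p : Fin n → Fin n → ℝ} (hp : NU c C p) (hc : 0 < c) (hn : 0 < n)
    {t : ℝ} (ht : 0 < t) {κ : ℝ} (hκ : 0 ≤ κ)
    (hcond : (Fintype.card (G n) : ℝ) * Real.exp (1 - κ * t - t + Real.exp 1 * t) ≤
      Real.exp (-t) * (c * t / (n : ℝ) ^ 2) ^ n) (a b : Fin n) (x : G n) :
    |Real.log (ft p t (swap a b * x)) - Real.log (ft p t x)| ≤
      Real.log ((κ + 1) * (n : ℝ) ^ 2 / c) := by
  have hn' : (0 : ℝ) < n := by exact_mod_cast hn
  have key : ∀ x : G n, ft p t (swap a b * x) ≤ (κ + 1) * (n : ℝ) ^ 2 / c * ft p t x := by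
    intro x
    have h1 := hp.P_ge hc (ft_nonneg (hp.pw hc) ht.le) a b x
    have h2 := P_ft_le hp hc ht κ hκ x
    have h3 := (hcond.trans (ft_ge hp hc ht.le x))
    have h4 : c / (n : ℝ) ^ 2 * ft p t (swap a b * x) ≤ (κ + 1) * ft p t x := by linarith
    rw [div_mul_eq_mul_div, div_le_iff₀ (by positivity)] at h4
    rw [div_mul_eq_mul_div, le_div_iff₀ hc]
    linarith
  have hlog : ∀ x : G n, Real.log (ft p t (swap a b * x)) - Real.log (ft p t x) ≤
      Real.log ((κ + 1) * (n : ℝ) ^ 2 / c) := by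
    intro x
    have h1 := Real.log_le_log (ft_pos hp hc hn ht _) (key x)
    rw [Real.log_mul (by positivity) (ft_pos hp hc hn ht x).ne'] at h1
    linarith
  rw [abs_le]
  constructor
  · have := hlog (swap a b * x)
    rw [swap_mul_cancel] at this
    linarith
  · exact hlog x

end Pool.Agent.Helper353.Cut
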