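import Pool.Agent.Helper353.Cut.Entropy

/-!
The lower bound for the mixing time, by counting fixed points.
-/

open scoped BigOperators

namespace Pool.Agent.Helper353.Cut

open Equiv

variable {n : ℕ}

/-- the indicator of a fixed point -/
noncomputable def Fi (i : Fin n) : V n := fun x => if x i = i then 1 else 0

/-- the number of fixed points -/
noncomputable def Fx : V n := fun x => ∑ i, Fi i x

lemma Fi_nonneg (i : Fin n) (x : G n) : 0 ≤ Fi i x := by
  unfold Fi
  split_ifs <;> norm_num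

lemma Fx_nonneg (x : G n) : 0 ≤ Fx x := Finset.sum_nonneg fun i _ => Fi_nonneg i x

lemma av_Fi (hn : 0 < n) (i : Fin n) : av (Fi i) = 1 / (n : ℝ) := by
  have h1 : ∀ j, av (fun x : G n => if x i = j then (1 : ℝ) else 0) = av (Fi i) := by
    intro j
    rw [← av_mul_left (Fi i) (swap i j)]
    congr 1
    ext x
    unfold Fi
    rw [Perm.mul_apply]
    by_cases h : x i = j
    · rw [if_pos h, h, swap_apply_right, if_pos rfl]
    · rw [if_neg h, if_neg]
      intro h2
      apply h
      have h3 := congrArg (swap i j) h2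
      rwa [swap_apply_self, swap_apply_left] at h3
  have h2 : av (fun x : G n => ∑ j, if x i = j then (1 : ℝ) else 0) = 1 := by
    have : (fun x : G n => ∑ j, if x i = j then (1 : ℝ) else 0) = fun _ => 1 := by
      ext x
      simp
    rw [this, av_const]
  rw [av_sum] at h2
  simp_rw [h1] at h2
  rw [Finset.sum_const, Finset.card_univ, Fintype.card_fin, nsmul_eq_mul] at h2
  have hn' : (0 : ℝ) < n := by exact_mod_cast hn
  field_simp
  linarith

lemma av_Fx (hn : 0 < n) : av (Fx : V n) = 1 := by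
  unfold Fx
  rw [av_sum]
  simp_rw [av_Fi hn]
  rw [Finset.sum_const, Finset.card_univ, Fintype.card_fin, nsmul_eq_mul]
  have hn' : (0 : ℝ) < n := by exact_mod_cast hn
  field_simp

lemma NU.row_le {c C : ℝ} {p : Fin n → Fin n → ℝ} (hp : NU c C p) (hn : 0 < n) (i : Fin n) :
    ∑ j, p i j ≤ C / n := by
  have hn' : (0 : ℝ) < n := by exact_mod_cast hn
  calc ∑ j, p i j ≤ ∑ _j : Fin n, C / (n : ℝ) ^ 2 := Finset.sum_le_sum fun j _ => hp.ub i j
    _ = C / n := by
        rw [Finset.sum_const, Finset.card_univ, Fintype.card_fin, nsmul_eq_mul]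
        field_simp

lemma NU.col_le {c C : ℝ} {p : Fin n → Fin n → ℝ} (hp : NU c C p) (hn : 0 < n) (j : Fin n) :
    ∑ i, p i j ≤ C / n := by
  have hn' : (0 : ℝ) < n := by exact_mod_cast hn
  calc ∑ i, p i j ≤ ∑ _i : Fin n, C / (n : ℝ) ^ 2 := Finset.sum_le_sum fun i _ => hp.ub i j
    _ = C / n := by
        rw [Finset.sum_const, Finset.card_univ, Fintype.card_fin, nsmul_eq_mul]
        field_simp

lemma P_Fi_ge {c C : ℝ} {p : Fin n → Fin n → ℝ} (hp : NU c C p) (hc : 0 < c) (hn : 0 < n)
    (i : Fin n) (x : G n) : (1 - 2 * C / n) * Fi i x ≤ P p (Fi i) x := by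
  have hpw := hp.pw hc
  by_cases hx : x i = i
  · have e1 : Fi i x = 1 := by unfold Fi; rw [if_pos hx]
    rw [e1, mul_one, P_apply]
    have h1 : ∀ a b, p a b * Fi i (swap a b * x) ≥
        p a b - (if a = i then p a b else 0) - (if b = i then p a b else 0) := by
      intro a b
      have hab := hpw.nonneg a b
      unfold Fi
      rw [Perm.mul_apply, hx]
      by_cases ha : a = i
      · rw [if_pos ha]
        split_ifs <;> linarith
      · by_cases hb : b = i
        · rw [if_pos hb, if_neg ha]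
          split_ifs <;> linarith
        · rw [if_neg ha, if_neg hb, if_pos (swap_apply_of_ne_of_ne (Ne.symm ha) (Ne.symm hb))]
          linarith
    have h2 : ∑ a, ∑ b, p a b * Fi i (swap a b * x) ≥
        ∑ a, ∑ b, (p a b - (if a = i then p a b else 0) - (if b = i then p a b else 0)) :=
      Finset.sum_le_sum fun a _ => Finset.sum_le_sum fun b _ => h1 a b
    have h3 : ∑ a, ∑ b, (p a b - (if a = i then p a b else 0) - (if b = i then p a b else 0)) =
        1 - ∑ b, p i b - ∑ a, p a i := by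
      simp_rw [Finset.sum_sub_distrib]
      rw [hp.sum_eq]
      congr 1
      · congr 1
        rw [Finset.sum_eq_single i]
        · simp
        · intro a _ ha
          simp [ha]
        · simp
      · refine Finset.sum_congr rfl fun a _ => ?_
        simp
    rw [h3] at h2
    have h4 := hp.row_le hn i
    have h5 := hp.col_le hn i
    have h6 : 2 * C / (n : ℝ) = C / n + C / n := by ring
    rw [h6]
    linarith
  · have e1 : Fi i x = 0 := by unfold Fi; rw [if_neg hx]
    rw [e1, mul_zero]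
    exact P_nonneg hpw (Fi_nonneg i) x

lemma K_Fi_ge {c C : ℝ} {p : Fin n → Fin n → ℝ} (hp : NU c C p) (hc : 0 < c) (hn : 0 < n)
    (i : Fin n) {t : ℝ} (ht : 0 ≤ t) : Real.exp (-(2 * C / n * t)) ≤ K p t (Fi i) 1 := by
  have hpw := hp.pw hc
  set u : ℝ → ℝ := fun s => Real.exp (2 * C / n * s) * K p s (Fi i) 1 with hu
  have hd : ∀ s, HasDerivAt u (Real.exp (2 * C / n * s) *
      (K p s (fun x => A p (Fi i) x + 2 * C / n * Fi i x) 1)) s := by
    intro s
    have h1 := (hasDerivAt_pi.1 (K_hasDerivAt_apply p (Fi i) s)) 1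
    have h2 : HasDerivAt (fun s : ℝ => Real.exp (2 * C / n * s))
        (Real.exp (2 * C / n * s) * (2 * C / n)) s := by
      have := ((hasDerivAt_id s).const_mul (2 * C / n)).exp
      simpa using this
    refine (h2.mul h1).congr_deriv ?_
    have e1 : (fun x => A p (Fi i) x + 2 * C / n * Fi i x) =
        A p (Fi i) + (2 * C / n) • (Fi i) := rfl
    rw [e1, map_add, map_smul, Pi.add_apply, Pi.smul_apply, smul_eq_mul, A_K]
    ring
  have hmono : MonotoneOn u (Set.Icc 0 t) := by
    refine monotoneOn_of_deriv_nonneg (convex_Icc 0 t)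
      (fun s _ => (hd s).continuousAt.continuousWithinAt)
      (fun s _ => (hd s).differentiableAt.differentiableWithinAt) ?_
    intro s hs
    rw [interior_Icc] at hs
    rw [(hd s).deriv]
    refine mul_nonneg (Real.exp_pos _).le (K_nonneg hpw hs.1.le (fun x => ?_) 1)
    rw [A_apply]
    have := P_Fi_ge hp hc hn i x
    nlinarith
  have h1 := hmono (Set.left_mem_Icc.2 ht) (Set.right_mem_Icc.2 ht) ht
  have e0 : u 0 = 1 := by
    simp only [hu, mul_zero, Real.exp_zero, one_mul, K_zero]
    simp [Fi]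
  rw [e0] at h1
  rw [Real.exp_neg, inv_le_iff_one_le_mul₀ (Real.exp_pos _), mul_comm]
  exact h1

lemma K_Fx_ge {c C : ℝ} {p : Fin n → Fin n → ℝ} (hp : NU c C p) (hc : 0 < c) (hn : 0 < n)
    {t : ℝ} (ht : 0 ≤ t) : n * Real.exp (-(2 * C / n * t)) ≤ K p t Fx 1 := by
  have e1 : (Fx : V n) = ∑ i, Fi i := by
    ext x
    rw [Finset.sum_apply]
    rfl
  rw [e1, map_sum, Finset.sum_apply]
  calc (n : ℝ) * Real.exp (-(2 * C / n * t)) = ∑ _i : Fin n, Real.exp (-(2 * C / n * t)) := by
        rw [Finset.sum_const, Finset.card_univ, Fintype.card_fin, nsmul_eq_mul]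
    _ ≤ _ := Finset.sum_le_sum fun i _ => K_Fi_ge hp hc hn i ht

lemma Fx_diff (a b : Fin n) (x : G n) :
    (Fx (swap a b * x) - Fx x) ^ 2 ≤ 4 * ((if x⁻¹ a = b then 1 else 0) +
      (if x⁻¹ b = a then 1 else 0) + (if x⁻¹ a = a then 1 else 0) +
      (if x⁻¹ b = b then 1 else 0)) := by
  classical
  by_cases hab : a = b
  · subst hab
    rw [swap_self]
    have : (Equiv.refl (Fin n) : G n) * x = x := one_mul x
    rw [this, sub_self]
    have h0 : ∀ P : Prop, [Decidable P] → (0 : ℝ) ≤ if P then 1 else 0 := by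
      intro P _
      split_ifs <;> norm_num
    have := h0 (x⁻¹ a = a)
    rw [zero_pow two_ne_zero]
    linarith
  · have hne : x⁻¹ a ≠ x⁻¹ b := fun h => hab (x⁻¹.injective h)
    have h1 : Fx (swap a b * x) - Fx x = ∑ i, (Fi i (swap a b * x) - Fi i x) := by
      unfold Fx
      rw [Finset.sum_sub_distrib]
    have h2 : ∑ i, (Fi i (swap a b * x) - Fi i x) =
        ∑ i ∈ {x⁻¹ a, x⁻¹ b}, (Fi i (swap a b * x) - Fi i x) := by
      symm
      refine Finset.sum_subset (Finset.subset_univ _) ?_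
      intro i _ hi
      rw [Finset.mem_insert, Finset.mem_singleton, not_or] at hi
      have hia : x i ≠ a := fun h => hi.1 (by rw [← h]; simp)
      have hib : x i ≠ b := fun h => hi.2 (by rw [← h]; simp)
      unfold Fi
      rw [Perm.mul_apply, swap_apply_of_ne_of_ne hia hib, sub_self]
    rw [h1, h2, Finset.sum_pair hne]
    unfold Fi
    have hinv : ∀ y, x (x⁻¹ y) = y := fun y => by simp
    rw [Perm.mul_apply, Perm.mul_apply, hinv, hinv, swap_apply_left, swap_apply_right]
    have e1 : (b = x⁻¹ a) ↔ (x⁻¹ a = b) := eq_comm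
    have e2 : (a = x⁻¹ a) ↔ (x⁻¹ a = a) := eq_comm
    have e3 : (a = x⁻¹ b) ↔ (x⁻¹ b = a) := eq_comm
    have e4 : (b = x⁻¹ b) ↔ (x⁻¹ b = b) := eq_comm
    simp only [e1, e2, e3, e4]
    split_ifs <;> norm_num

lemma Gam_Fx_le (hn : 0 < n) (x : G n) : Gam Fx x ≤ 8 / n * (1 + Fx x) := by
  have hn' : (0 : ℝ) < n := by exact_mod_cast hn
  unfold Gam
  rw [div_le_iff₀ (by positivity)]
  have h1 : ∑ a, ∑ b, (Fx (swap a b * x) - Fx x) ^ 2 ≤
      ∑ a, ∑ b, 4 * ((if x⁻¹ a = b then (1 : ℝ) else 0) +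
      (if x⁻¹ b = a then 1 else 0) + (if x⁻¹ a = a then 1 else 0) +
      (if x⁻¹ b = b then 1 else 0)) :=
    Finset.sum_le_sum fun a _ => Finset.sum_le_sum fun b _ => Fx_diff a b x
  have hF : ∑ a, (if x⁻¹ a = a then (1 : ℝ) else 0) = Fx x := by
    unfold Fx Fi
    refine Finset.sum_congr rfl fun a _ => ?_
    have : (x⁻¹ a = a) ↔ (x a = a) := by
      rw [Perm.inv_eq_iff_eq]
      exact eq_comm
    simp only [this]
  have h2 : ∑ a, ∑ b, 4 * ((if x⁻¹ a = b then (1 : ℝ) else 0) +
      (if x⁻¹ b = a then 1 else 0) + (if x⁻¹ a = a then 1 else 0) +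
      (if x⁻¹ b = b then 1 else 0)) = 4 * (n + n + n * Fx x + n * Fx x) := by
    simp_rw [← Finset.mul_sum, Finset.sum_add_distrib]
    rw [hF]
    have e1 : ∑ a, ∑ b, (if x⁻¹ a = b then (1 : ℝ) else 0) = n := by
      simp
    have e2 : ∑ a, ∑ b, (if x⁻¹ b = a then (1 : ℝ) else 0) = n := by
      rw [Finset.sum_comm]
      simp
    have e3 : ∑ a : Fin n, ∑ _b : Fin n, (if x⁻¹ a = a then (1 : ℝ) else 0) = n * Fx x := by
      rw [Finset.sum_comm, hF, Finset.sum_const, Finset.card_univ, Fintype.card_fin,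
        nsmul_eq_mul]
    rw [e1, e2, e3, Finset.sum_const, Finset.card_univ, Fintype.card_fin, nsmul_eq_mul]
  rw [h2] at h1
  refine h1.trans (le_of_eq ?_)
  field_simp
  ring

open scoped Classical in
/-- Chebyshev type lower bound for the total variation distance -/
lemma tv_ge_of_second_moment {f F : V n} (hf : ∀ x, 0 ≤ f x) (h1 : av f = 1)
    (hF : ∀ x, 0 ≤ F x) {m v μ : ℝ} (hm : av (fun x => f x * F x) = m)
    (hv : av (fun x => f x * F x ^ 2) - m ^ 2 ≤ v) (hmpos : 0 < m) (hμ : av F = μ) :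
    1 - 4 * v / m ^ 2 - 2 * μ / m ≤ tv f := by
  set I : V n := fun x => if m / 2 < F x then 1 else 0 with hI
  have hcheb : av (fun x => f x * (1 - I x)) ≤ 4 * v / m ^ 2 := by
    have e1 : av (fun x => f x * (F x - m) ^ 2) ≤ v := by
      have : (fun x => f x * (F x - m) ^ 2) = fun x =>
          (f x * F x ^ 2 - (2 * m) * (f x * F x)) + m ^ 2 * f x := by
        ext x; ring
      rw [this, av_add, av_sub, av_smul, av_smul, hm, h1]
      linarith
    rw [le_div_iff₀ (by positivity)]
    have e2 : av (fun x => f x * (1 - I x)) * m ^ 2 ≤ 4 * av (fun x => f x * (F x - m) ^ 2) := by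
      rw [mul_comm, ← av_smul, ← av_smul]
      refine av_mono fun x => ?_
      simp only [hI]
      split_ifs with h
      · rw [sub_self, mul_zero, mul_zero]
        have := hf x
        positivity
      · rw [sub_zero, mul_one]
        have h2 : m ^ 2 ≤ 4 * (F x - m) ^ 2 := by
          rw [not_lt] at h
          have := hF x
          nlinarith
        have := hf x
        nlinarith
    linarith
  have hpi : av I ≤ 2 * μ / m := by
    have : av I ≤ av (fun x => 2 / m * F x) := by
      refine av_mono fun x => ?_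
      simp only [hI]
      split_ifs with h
      · rw [div_mul_eq_mul_div, le_div_iff₀ hmpos]
        linarith
      · have := hF x
        positivity
    rw [av_smul, hμ] at this
    refine this.trans (le_of_eq ?_)
    ring
  have hlow : av (fun x => (f x - 1) * I x) ≤ tv f := by
    have e2 : av (fun x => f x - 1) = 0 := by
      rw [av_sub, h1, av_const, sub_self]
    have e3 : tv f = av (fun x => 1 / 2 * (|f x - 1| + (f x - 1))) := by
      rw [av_smul, av_add, e2, add_zero]
      rfl
    rw [e3]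
    refine av_mono fun x => ?_
    simp only [hI]
    split_ifs with h
    · have := le_abs_self (f x - 1)
      linarith
    · have := neg_abs_le (f x - 1)
      linarith
  have e4 : av (fun x => (f x - 1) * I x) = 1 - av (fun x => f x * (1 - I x)) - av I := by
    have : (fun x => (f x - 1) * I x) = fun x => (f x - f x * (1 - I x)) - I x := by
      ext x; ring
    rw [this, av_sub, av_sub, h1]
  rw [e4] at hlow
  linarith

/-- the lower bound -/
theorem tv_ft_ge {c C : ℝ} {p : Fin n → Fin n → ℝ} (hp : NU c C p) (hc : 0 < c) (hC : 0 ≤ C)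
    (hn : 0 < n) {t : ℝ} (ht : 0 ≤ t) {M : ℝ} (hM : M = n * Real.exp (-(2 * C / n * t)))
    (hM1 : 1 ≤ M) : 1 - (64 * (C * t / n) + 2) / M ≤ tv (ft p t) := by
  have hn' : (0 : ℝ) < n := by exact_mod_cast hn
  have hpw := hp.pw hc
  set m := K p t Fx 1 with hm
  have hmM : M ≤ m := by
    rw [hM]
    exact K_Fx_ge hp hc hn ht
  have hmpos : 0 < m := by linarith
  have h1 := local_poincare hp hc (Fx : V n) ht 1
  have h2 : K p t (Gam Fx) 1 ≤ 8 / n * (1 + m) := by
    have h3 := K_mono hpw ht (f := Gam Fx) (g := fun x => 8 / n * (1 + Fx x))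
      (Gam_Fx_le hn) 1
    refine h3.trans (le_of_eq ?_)
    have e : (fun x : G n => 8 / (n : ℝ) * (1 + Fx x)) =
        (8 / (n : ℝ)) • ((fun _ => 1) + Fx : V n) := rfl
    rw [e, map_smul, map_add, K_const hpw, Pi.smul_apply, Pi.add_apply, smul_eq_mul]
  have h3 : av (fun x => ft p t x * Fx x ^ 2) - m ^ 2 ≤ C * t * (8 / n * (1 + m)) := by
    have e1 : av (fun x => ft p t x * Fx x ^ 2) = K p t (fun y => Fx y ^ 2) 1 :=
      (K_one_eq p t _).symm
    rw [e1]
    refine h1.trans ?_
    gcongr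
  have h4 := tv_ge_of_second_moment (ft_nonneg hpw ht) (av_ft hpw t) Fx_nonneg
    (m := m) (K_one_eq p t Fx).symm h3 hmpos (av_Fx hn)
  refine le_trans ?_ h4
  have h5 : (1 + m) / m ^ 2 ≤ 2 / M := by
    rw [div_le_div_iff₀ (by positivity) (by positivity)]
    nlinarith
  have h6 : 2 * 1 / m ≤ 2 / M := by
    rw [mul_one]
    gcongr
  have h7 : 4 * (C * t * (8 / n * (1 + m))) / m ^ 2 = 32 * (C * t / n) * ((1 + m) / m ^ 2) := by
    ring
  rw [h7]
  have h8 : 32 * (C * t / n) * ((1 + m) / m ^ 2) ≤ 32 * (C * t / n) * (2 / M) := by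
    gcongr
  have h9 : (64 * (C * t / n) + 2) / M = 32 * (C * t / n) * (2 / M) + 2 / M := by ring
  linarith

end Pool.Agent.Helper353.Cut
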