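import Pool.Agent.Helper353.Cut.Transfer
import Pool.Agent.Helper353.Cut.LogLip
import Pool.Agent.Helper353.Cut.Lower

/-!
Decay of the entropy.
-/

open scoped BigOperators

namespace Pool.Agent.Helper353.Cut

open Equiv

variable {n : ℕ}

lemma ent_nonneg {f : V n} (hf : ∀ x, 0 < f x) (h1 : av f = 1) :
    0 ≤ av (fun x => f x * Real.log (f x)) := by
  have h2 : av (fun x => f x - 1) ≤ av (fun x => f x * Real.log (f x)) := by
    refine av_mono fun x => ?_
    have := mul_log_ge (hf x) one_pos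
    rwa [Real.log_one, sub_zero] at this
  rw [av_sub, h1, av_const, sub_self] at h2
  exact h2

/-- a Pinsker type inequality -/
lemma tv_le_of_ent {f : V n} (hf : ∀ x, 0 < f x) (h1 : av f = 1) {η : ℝ} (hη : 0 < η)
    (hE : av (fun x => f x * Real.log (f x)) ≤ η ^ 2) : tv f ≤ η := by
  have h2 : av (fun x => |f x - 1|) ≤ av (fun x =>
      (1 / η) * (f x * Real.log (f x)) + (((1 / η) * (1 - f x)) + η / 2 * (f x + 1))) := by
    refine av_mono fun x => ?_
    obtain ⟨y, hy0, hy⟩ : ∃ y : ℝ, 0 < y ∧ f x = y ^ 2 :=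
      ⟨Real.sqrt (f x), Real.sqrt_pos.2 (hf x), (Real.sq_sqrt (hf x).le).symm⟩
    rw [hy]
    have h3 : (y - 1) ^ 2 ≤ y ^ 2 * Real.log (y ^ 2) - y ^ 2 + 1 := by
      have h4 := mul_log_ge hy0 one_pos
      rw [Real.log_one, sub_zero] at h4
      rw [Real.log_pow]
      push_cast
      nlinarith
    have h5 : |y ^ 2 - 1| = |y - 1| * (y + 1) := by
      rw [show y ^ 2 - 1 = (y - 1) * (y + 1) by ring, abs_mul, abs_of_pos (by linarith : 0 < y + 1)]
    have h6 : |y - 1| * (y + 1) ≤ (1 / η) * (y - 1) ^ 2 + η / 4 * (y + 1) ^ 2 := by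
      rw [← sq_abs (y - 1)]
      have e : (1 / η) * |y - 1| ^ 2 + η / 4 * (y + 1) ^ 2 - |y - 1| * (y + 1) =
          (1 / η) * (|y - 1| - η / 2 * (y + 1)) ^ 2 := by
        field_simp
        ring
      have : 0 ≤ (1 / η) * (|y - 1| - η / 2 * (y + 1)) ^ 2 := by positivity
      linarith
    have h7 : (y + 1) ^ 2 ≤ 2 * (y ^ 2 + 1) := by nlinarith [sq_nonneg (y - 1)]
    have h8 : (1 / η) * (y - 1) ^ 2 ≤ (1 / η) * (y ^ 2 * Real.log (y ^ 2) - y ^ 2 + 1) :=
      mul_le_mul_of_nonneg_left h3 (by positivity)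
    have h9 : η / 4 * (y + 1) ^ 2 ≤ η / 4 * (2 * (y ^ 2 + 1)) :=
      mul_le_mul_of_nonneg_left h7 (by positivity)
    rw [h5]
    nlinarith
  rw [av_add, av_add, av_smul, av_smul, av_smul, av_sub, av_add, h1, av_const] at h2
  unfold tv
  have h3 : (1 / η) * av (fun x => f x * Real.log (f x)) ≤ (1 / η) * η ^ 2 :=
    mul_le_mul_of_nonneg_left hE (by positivity)
  have h4 : (1 / η) * η ^ 2 = η := by field_simp
  linarith

section

variable {c C : ℝ} {p : Fin n → Fin n → ℝ}

lemma En_nonneg (hp : NU c C p) (hc : 0 < c) (hn : 0 < n) {t : ℝ} (ht : 0 < t) : 0 ≤ En p t :=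
  ent_nonneg (ft_pos hp hc hn ht) (av_ft (hp.pw hc) t)

lemma En_le_Ds (hp : NU c C p) (hc : 0 < c) (hn : 0 < n) {t : ℝ} (ht : 0 < t) :
    En p t ≤ 2 * n / c * Ds p t := by
  have h1 := mlsi hp hc hn (ft p t) (ft_pos hp hc hn ht)
  rw [av_ft (hp.pw hc), Real.log_one, mul_zero, sub_zero] at h1
  exact h1

lemma Ds_nonneg (hp : NU c C p) (hc : 0 < c) (hn : 0 < n) {t : ℝ} (ht : 0 < t) : 0 ≤ Ds p t := by
  have h1 := En_le_Ds hp hc hn ht
  have h2 := En_nonneg hp hc hn ht
  have hn' : (0 : ℝ) < n := by exact_mod_cast hn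
  have h3 : 0 < 2 * (n : ℝ) / c := by positivity
  by_contra h
  rw [not_le] at h
  have := mul_neg_of_pos_of_neg h3 h
  linarith

lemma En_der (hp : NU c C p) (hc : 0 < c) (hn : 0 < n) {t : ℝ} (ht : 0 < t) :
    HasDerivAt (En p) (-(Ds p t)) t :=
  En_hasDerivAt (hp.pw hc) (ft_pos hp hc hn ht)

lemma En_anti (hp : NU c C p) (hc : 0 < c) (hn : 0 < n) {s t : ℝ} (hs : 0 < s) (hst : s ≤ t) :
    En p t ≤ En p s := by
  have h : AntitoneOn (En p) (Set.Ici s) := by
    refine antitoneOn_of_deriv_nonpos (convex_Ici s) ?_ ?_ ?_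
    · intro u hu
      exact (En_der hp hc hn (lt_of_lt_of_le hs hu)).continuousAt.continuousWithinAt
    · intro u hu
      rw [interior_Ici] at hu
      exact (En_der hp hc hn (hs.trans hu)).differentiableAt.differentiableWithinAt
    · intro u hu
      rw [interior_Ici] at hu
      rw [(En_der hp hc hn (hs.trans hu)).deriv]
      have := Ds_nonneg hp hc hn (hs.trans hu)
      linarith
  exact h Set.self_mem_Ici hst hst

/-- exponential decay of the entropy -/
lemma En_decay (hp : NU c C p) (hc : 0 < c) (hn : 0 < n) {s t : ℝ} (hs : 0 < s) (hst : s ≤ t) :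
    En p t ≤ Real.exp (-(c / (2 * n) * (t - s))) * En p s := by
  have hn' : (0 : ℝ) < n := by exact_mod_cast hn
  set a := c / (2 * n) with ha
  have ha0 : 0 < a := by positivity
  have hder : ∀ u, 0 < u → HasDerivAt (fun u => Real.exp (a * u) * En p u)
      (Real.exp (a * u) * a * En p u + Real.exp (a * u) * (-(Ds p u))) u := by
    intro u hu
    have h1 : HasDerivAt (fun u => Real.exp (a * u)) (Real.exp (a * u) * a) u := by
      have := ((hasDerivAt_id u).const_mul a).exp
      simpa using this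
    exact h1.mul (En_der hp hc hn hu)
  have h : AntitoneOn (fun u => Real.exp (a * u) * En p u) (Set.Ici s) := by
    refine antitoneOn_of_deriv_nonpos (convex_Ici s) ?_ ?_ ?_
    · intro u hu
      exact (hder u (lt_of_lt_of_le hs hu)).continuousAt.continuousWithinAt
    · intro u hu
      rw [interior_Ici] at hu
      exact (hder u (hs.trans hu)).differentiableAt.differentiableWithinAt
    · intro u hu
      rw [interior_Ici] at hu
      rw [(hder u (hs.trans hu)).deriv]
      have h1 := En_le_Ds hp hc hn (hs.trans hu)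
      have h2 : a * En p u ≤ Ds p u := by
        have h3 := mul_le_mul_of_nonneg_left h1 ha0.le
        have h4 : a * (2 * n / c * Ds p u) = Ds p u := by
          rw [ha]
          field_simp
        linarith
      have h5 := mul_le_mul_of_nonneg_left h2 (Real.exp_pos (a * u)).le
      linarith
  have h1 := h Set.self_mem_Ici hst hst
  simp only at h1
  have h2 : Real.exp (-(a * (t - s))) = Real.exp (a * s) * Real.exp (-(a * t)) := by
    rw [← Real.exp_add]
    congr 1
    ring
  rw [h2]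
  have h3 : En p t = Real.exp (-(a * t)) * (Real.exp (a * t) * En p t) := by
    rw [← mul_assoc, ← Real.exp_add]
    simp
  rw [h3]
  have h4 := mul_le_mul_of_nonneg_left h1 (Real.exp_pos (-(a * t))).le
  linarith

/-- the entropy becomes small if its dissipation is quadratic -/
lemma En_ode (hp : NU c C p) (hc : 0 < c) (hn : 0 < n) {s₀ s₁ h₀ κ : ℝ} (hs : 0 < s₀)
    (hst : s₀ < s₁) (hh : 0 < h₀) (hκ : 0 < κ)
    (hq : ∀ t, s₀ ≤ t → t ≤ s₁ → h₀ ≤ En p t → κ * En p t ^ 2 ≤ Ds p t) :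
    En p s₁ ≤ h₀ + 1 / (κ * (s₁ - s₀)) := by
  have hd : 0 < s₁ - s₀ := sub_pos.2 hst
  rcases le_or_gt (En p s₁) h₀ with h1 | h1
  · have : 0 < 1 / (κ * (s₁ - s₀)) := by positivity
    linarith
  have hge : ∀ t, s₀ ≤ t → t ≤ s₁ → h₀ < En p t := fun t h2 h3 =>
    lt_of_lt_of_le h1 (En_anti hp hc hn (lt_of_lt_of_le hs h2) h3)
  have hder : ∀ t, s₀ ≤ t → t ≤ s₁ → HasDerivAt (fun t => (En p t)⁻¹ - κ * t)
      (-(-(Ds p t)) / (En p t) ^ 2 - κ) t := by
    intro t h2 h3
    have h4 := (En_der hp hc hn (lt_of_lt_of_le hs h2)).inv (hh.trans (hge t h2 h3)).ne'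
    have h5 : HasDerivAt (fun t => κ * t) κ t := by
      simpa using (hasDerivAt_id t).const_mul κ
    exact h4.sub h5
  have hmono : MonotoneOn (fun t => (En p t)⁻¹ - κ * t) (Set.Icc s₀ s₁) := by
    refine monotoneOn_of_deriv_nonneg (convex_Icc s₀ s₁) ?_ ?_ ?_
    · intro t ht
      exact (hder t ht.1 ht.2).continuousAt.continuousWithinAt
    · intro t ht
      rw [interior_Icc] at ht
      exact (hder t ht.1.le ht.2.le).differentiableAt.differentiableWithinAt
    · intro t ht
      rw [interior_Icc] at ht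
      rw [(hder t ht.1.le ht.2.le).deriv, neg_neg, sub_nonneg]
      have h6 := hge t ht.1.le ht.2.le
      rw [le_div_iff₀ (by have := hh.trans h6; positivity)]
      exact hq t ht.1.le ht.2.le h6.le
  have h7 := hmono (Set.left_mem_Icc.2 hst.le) (Set.right_mem_Icc.2 hst.le) hst.le
  simp only at h7
  have h8 : 0 < (En p s₀)⁻¹ := inv_pos.2 (hh.trans (hge s₀ le_rfl hst.le))
  have h9 : κ * (s₁ - s₀) ≤ (En p s₁)⁻¹ := by linarith
  have h10 : 0 < En p s₁ := hh.trans h1
  have h11 : En p s₁ ≤ 1 / (κ * (s₁ - s₀)) := by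
    rw [le_div_iff₀ (by positivity)]
    have := mul_le_mul_of_nonneg_left h9 h10.le
    rwa [mul_inv_cancel₀ h10.ne'] at this
  linarith

end

end Pool.Agent.Helper353.Cut
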