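import Mathlib

/-!
A `Φ`-Sobolev inequality for random transpositions, proved by induction on `n`. It contains both
the Poincaré inequality and the modified logarithmic Sobolev inequality.
-/

open scoped BigOperators

namespace Pool.Agent.Helper353.Cut

open Equiv

/-- average over a finite type -/
noncomputable def avg {α : Type*} [Fintype α] (f : α → ℝ) : ℝ :=
  (∑ x, f x) / (Fintype.card α : ℝ)

section avg

variable {α β : Type*} [Fintype α] [Fintype β]

lemma avg_add (f g : α → ℝ) : avg (fun x => f x + g x) = avg f + avg g := by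
  unfold avg
  rw [Finset.sum_add_distrib, add_div]

lemma avg_sub (f g : α → ℝ) : avg (fun x => f x - g x) = avg f - avg g := by
  unfold avg
  rw [Finset.sum_sub_distrib, sub_div]

lemma avg_mul (a : ℝ) (f : α → ℝ) : avg (fun x => a * f x) = a * avg f := by
  unfold avg
  rw [← Finset.mul_sum, mul_div_assoc]

lemma avg_const [Nonempty α] (a : ℝ) : avg (fun _ : α => a) = a := by
  unfold avg
  rw [Finset.sum_const, Finset.card_univ, nsmul_eq_mul, mul_div_cancel_left₀]
  exact_mod_cast Fintype.card_ne_zero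

lemma avg_mono {f g : α → ℝ} (h : ∀ x, f x ≤ g x) : avg f ≤ avg g := by
  unfold avg
  exact div_le_div_of_nonneg_right (Finset.sum_le_sum fun x _ => h x) (by positivity)

lemma avg_nonneg {f : α → ℝ} (h : ∀ x, 0 ≤ f x) : 0 ≤ avg f := by
  unfold avg
  exact div_nonneg (Finset.sum_nonneg fun x _ => h x) (by positivity)

lemma avg_comm (f : α → β → ℝ) :
    avg (fun a => avg (fun b => f a b)) = avg (fun b => avg (fun a => f a b)) := by
  unfold avg
  rw [← Finset.sum_div, ← Finset.sum_div, Finset.sum_comm, div_right_comm]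

lemma avg_equiv (e : α ≃ β) (f : β → ℝ) : avg (fun a => f (e a)) = avg f := by
  unfold avg
  rw [Fintype.card_congr e]
  congr 1
  exact e.sum_comp f

lemma avg_bij {e : α → α} (he : Function.Bijective e) (f : α → ℝ) :
    avg (fun a => f (e a)) = avg f := avg_equiv (Equiv.ofBijective e he) f

end avg

/-- the data needed for the `Φ`-Sobolev inequality -/
structure PhiData (S : Set ℝ) (Φ φ : ℝ → ℝ) : Prop where
  avg_mem : ∀ {ι : Type} [Fintype ι] [Nonempty ι] (a : ι → ℝ), (∀ i, a i ∈ S) → avg a ∈ S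
  tangent : ∀ a ∈ S, ∀ b ∈ S, Φ a + φ a * (b - a) ≤ Φ b
  jensen : ∀ {ι : Type} [Fintype ι] [Nonempty ι] (a b : ι → ℝ), (∀ i, a i ∈ S) →
    (∀ i, b i ∈ S) → (avg a - avg b) * (φ (avg a) - φ (avg b)) ≤
      avg (fun i => (a i - b i) * (φ (a i) - φ (b i)))

section

variable {S : Set ℝ} {Φ φ : ℝ → ℝ}

/-- the two point functional -/
def DD (φ : ℝ → ℝ) (a b : ℝ) : ℝ := (a - b) * (φ a - φ b)

lemma DD_self (φ : ℝ → ℝ) (a : ℝ) : DD φ a a = 0 := by simp [DD]

lemma DD_symm (φ : ℝ → ℝ) (a b : ℝ) : DD φ a b = DD φ b a := by unfold DD; ring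

lemma PhiData.DD_nonneg (h : PhiData S Φ φ) {a b : ℝ} (ha : a ∈ S) (hb : b ∈ S) :
    0 ≤ DD φ a b := by
  have h1 := h.tangent a ha b hb
  have h2 := h.tangent b hb a ha
  unfold DD
  nlinarith

lemma avg_avg_DD {ι : Type} [Fintype ι] [Nonempty ι] (h : ι → ℝ) :
    avg (fun k => avg (fun l => DD φ (h k) (h l))) =
      2 * (avg (fun k => h k * φ (h k)) - avg h * avg (fun k => φ (h k))) := by
  have h1 : ∀ k, avg (fun l => DD φ (h k) (h l)) =
      h k * φ (h k) - avg (fun l => φ (h l)) * h k - avg h * φ (h k) +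
        avg (fun l => h l * φ (h l)) := by
    intro k
    have e : (fun l => DD φ (h k) (h l)) = fun l =>
        ((h k * φ (h k) - h k * φ (h l)) - φ (h k) * h l) + h l * φ (h l) := by
      funext l
      unfold DD
      ring
    rw [e, avg_add, avg_sub, avg_sub, avg_const, avg_mul, avg_mul]
    ring
  simp_rw [h1]
  rw [avg_add, avg_sub, avg_sub, avg_const, avg_mul, avg_mul]
  ring

lemma PhiData.ent_le_cov (hd : PhiData S Φ φ) {ι : Type} [Fintype ι] [Nonempty ι] (h : ι → ℝ)
    (hh : ∀ i, h i ∈ S) : avg (fun i => Φ (h i)) - Φ (avg h) ≤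
      1 / 2 * avg (fun k => avg (fun l => DD φ (h k) (h l))) := by
  have h1 : avg (fun i => Φ (h i) + φ (h i) * (avg h - h i)) ≤ Φ (avg h) := by
    have h2 : avg (fun i => Φ (h i) + φ (h i) * (avg h - h i)) ≤ avg (fun _ : ι => Φ (avg h)) :=
      avg_mono fun i => hd.tangent _ (hh i) _ (hd.avg_mem h hh)
    rwa [avg_const] at h2
  rw [avg_add] at h1
  have h3 : avg (fun i => φ (h i) * (avg h - h i)) =
      avg h * avg (fun i => φ (h i)) - avg (fun i => h i * φ (h i)) := by
    have e : (fun i => φ (h i) * (avg h - h i)) = fun i => avg h * φ (h i) - h i * φ (h i) := by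
      funext i; ring
    rw [e, avg_sub, avg_mul]
  rw [avg_avg_DD]
  linarith

/-- the decomposition -/
def dc {n : ℕ} (p : Fin (n + 1)) (e : Perm (Fin n)) : Perm (Fin (n + 1)) :=
  Equiv.Perm.decomposeFin.symm (p, e)

lemma dc_zero {n : ℕ} (p : Fin (n + 1)) (e : Perm (Fin n)) : dc p e 0 = p :=
  Equiv.Perm.decomposeFin_symm_apply_zero p e

lemma dc_succ {n : ℕ} (p : Fin (n + 1)) (e : Perm (Fin n)) (x : Fin n) :
    dc p e x.succ = swap 0 p (e x).succ :=
  Equiv.Perm.decomposeFin_symm_apply_succ e p x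

lemma exists_dc {n : ℕ} (σ : Perm (Fin (n + 1))) : ∃ e, σ = dc (σ 0) e := by
  refine ⟨(Equiv.Perm.decomposeFin σ).2, ?_⟩
  have h1 : σ = Equiv.Perm.decomposeFin.symm (Equiv.Perm.decomposeFin σ) := by simp
  have h2 : (Equiv.Perm.decomposeFin σ).1 = σ 0 := by
    conv_rhs => rw [h1]
    exact (dc_zero (Equiv.Perm.decomposeFin σ).1 (Equiv.Perm.decomposeFin σ).2).symm
  conv_lhs => rw [h1]
  unfold dc
  rw [← h2]

lemma dc_inj {n : ℕ} {p q : Fin (n + 1)} {e e' : Perm (Fin n)} (h : dc p e = dc q e') :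
    p = q ∧ e = e' := by
  have := Equiv.Perm.decomposeFin.symm.injective h
  exact ⟨congrArg Prod.fst this, congrArg Prod.snd this⟩

lemma avg_dc {n : ℕ} (F : Perm (Fin (n + 1)) → ℝ) :
    avg F = avg (fun p : Fin (n + 1) => avg (fun e => F (dc p e))) := by
  have h1 : avg F = avg (fun q : Fin (n + 1) × Perm (Fin n) => F (dc q.1 q.2)) :=
    (avg_equiv (Equiv.Perm.decomposeFin.symm) F).symm
  rw [h1]
  unfold avg
  rw [Fintype.sum_prod_type, Fintype.card_prod]
  simp_rw [← Finset.sum_div]
  rw [div_div, Nat.cast_mul, mul_comm]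

lemma swap_dc {n : ℕ} (p : Fin (n + 1)) (k l : Fin n) (e : Perm (Fin n)) :
    dc p (swap k l * e) = swap (swap 0 p k.succ) (swap 0 p l.succ) * dc p e := by
  have hne : ∀ k : Fin n, p ≠ swap 0 p k.succ := by
    intro k h
    have h2 := congrArg (swap 0 p) h
    rw [swap_apply_self, swap_apply_right] at h2
    exact Fin.succ_ne_zero k h2.symm
  ext x
  refine congrArg _ ?_
  refine Fin.cases ?_ (fun y => ?_) x
  · rw [Perm.mul_apply, dc_zero, dc_zero, swap_apply_of_ne_of_ne (hne k) (hne l)]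
  · rw [Perm.mul_apply, dc_succ, dc_succ, Perm.mul_apply]
    have hinj : Function.Injective (fun y : Fin n => swap 0 p y.succ) :=
      (swap 0 p).injective.comp (Fin.succ_injective n)
    exact (hinj.swap_apply k l (e y)).symm

/-- sum over the indices different from `p` -/
lemma sum_swap_succ {n : ℕ} (p : Fin (n + 1)) (F : Fin (n + 1) → ℝ) :
    ∑ k : Fin n, F (swap 0 p k.succ) = ∑ a, if a = p then 0 else F a := by
  rw [← Equiv.sum_comp (swap 0 p), Fin.sum_univ_succ]
  rw [swap_apply_left, if_pos rfl, zero_add]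
  refine Finset.sum_congr rfl fun k _ => ?_
  rw [if_neg]
  intro h
  have : k.succ = 0 := by
    have h2 := congrArg (swap 0 p) h
    rw [swap_apply_self, swap_apply_right] at h2
    exact h2
  exact Fin.succ_ne_zero k this

/-- the Dirichlet form -/
noncomputable def DF (φ : ℝ → ℝ) {n : ℕ} (f : Perm (Fin n) → ℝ) (x : Perm (Fin n)) : ℝ :=
  ∑ a, ∑ b, DD φ (f (swap a b * x)) (f x)

lemma second_part (hd : PhiData S Φ φ) {n : ℕ} (g : Perm (Fin (n + 1)) → ℝ) (hg : ∀ x, g x ∈ S)
    (k l : Fin (n + 1)) :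
    DD φ (avg (fun e => g (dc k e))) (avg (fun e => g (dc l e))) ≤
      avg (fun e => DD φ (g (swap k l * dc k e)) (g (dc k e))) := by
  have h1 : ∀ k l : Fin (n + 1), ∀ e, ∃ e', swap k l * dc k e = dc l e' := by
    intro k l e
    obtain ⟨e', he'⟩ := exists_dc (swap k l * dc k e)
    refine ⟨e', ?_⟩
    rwa [Perm.mul_apply, dc_zero, swap_apply_left] at he'
  choose ψ hψ using h1
  have hinj : Function.Injective (ψ k l) := by
    intro e e' h
    have h2 := hψ k l e
    rw [h, ← hψ k l e'] at h2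
    exact (dc_inj (mul_left_cancel h2)).2
  have hbij : Function.Bijective (ψ k l) := Finite.injective_iff_bijective.mp hinj
  have h2 : avg (fun e => g (dc l e)) = avg (fun e => g (swap k l * dc k e)) := by
    rw [← avg_bij hbij]
    congr 1
    funext e
    rw [hψ]
  rw [h2, DD_symm]
  exact hd.jensen _ _ (fun _ => hg _) (fun _ => hg _)

/-- the first part of the entropy decomposition -/
lemma first_part {n : ℕ} {lam : ℝ}
    (ih : ∀ f : Perm (Fin n) → ℝ, (∀ x, f x ∈ S) →
      avg (fun x => Φ (f x)) - Φ (avg f) ≤ lam * avg (DF φ f))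
    (g : Perm (Fin (n + 1)) → ℝ) (hg : ∀ x, g x ∈ S) (p : Fin (n + 1)) :
    avg (fun e => Φ (g (dc p e))) - Φ (avg (fun e => g (dc p e))) ≤
      lam * avg (fun e => ∑ a, ∑ b, if a = dc p e 0 then 0 else if b = dc p e 0 then 0 else
        DD φ (g (swap a b * dc p e)) (g (dc p e))) := by
  refine (ih (fun e => g (dc p e)) (fun e => hg _)).trans (le_of_eq ?_)
  congr 2
  funext e
  unfold DF
  simp_rw [swap_dc, dc_zero]
  have h1 : ∀ a, ∑ l : Fin n, DD φ (g (swap a (swap 0 p l.succ) * dc p e)) (g (dc p e)) =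
      ∑ b, if b = p then 0 else DD φ (g (swap a b * dc p e)) (g (dc p e)) := fun a =>
    sum_swap_succ p (fun b => DD φ (g (swap a b * dc p e)) (g (dc p e)))
  simp_rw [h1]
  rw [sum_swap_succ p (fun a => ∑ b, if b = p then 0 else
    DD φ (g (swap a b * dc p e)) (g (dc p e)))]
  refine Finset.sum_congr rfl fun a _ => ?_
  split_ifs <;> simp

/-- one step with the distinguished point `0` -/
lemma step_zero (hd : PhiData S Φ φ) {n : ℕ} {lam : ℝ}
    (ih : ∀ f : Perm (Fin n) → ℝ, (∀ x, f x ∈ S) →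
      avg (fun x => Φ (f x)) - Φ (avg f) ≤ lam * avg (DF φ f))
    (g : Perm (Fin (n + 1)) → ℝ) (hg : ∀ x, g x ∈ S) :
    avg (fun x => Φ (g x)) - Φ (avg g) ≤
      avg (fun x => lam * (∑ a, ∑ b, if a = x 0 then 0 else if b = x 0 then 0 else
          DD φ (g (swap a b * x)) (g x)) +
        1 / 2 * avg (fun l => DD φ (g (swap (x 0) l * x)) (g x))) := by
  set gb : Fin (n + 1) → ℝ := fun p => avg (fun e => g (dc p e)) with hgb
  have hgbS : ∀ p, gb p ∈ S := fun p => hd.avg_mem _ (fun e => hg _)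
  have e1 : avg (fun x => Φ (g x)) = avg (fun p => avg (fun e => Φ (g (dc p e)))) := avg_dc _
  have e2 : avg g = avg gb := avg_dc g
  have h1 : avg (fun p => avg (fun e => Φ (g (dc p e))) - Φ (gb p)) ≤
      avg (fun p => lam * avg (fun e => ∑ a, ∑ b, if a = dc p e 0 then 0 else
        if b = dc p e 0 then 0 else DD φ (g (swap a b * dc p e)) (g (dc p e)))) :=
    avg_mono fun p => first_part ih g hg p
  rw [avg_sub] at h1
  have h2 := hd.ent_le_cov gb hgbS
  have h3 : avg (fun k => avg (fun l => DD φ (gb k) (gb l))) ≤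
      avg (fun k => avg (fun l => avg (fun e => DD φ (g (swap k l * dc k e)) (g (dc k e))))) :=
    avg_mono fun k => avg_mono fun l => second_part hd g hg k l
  rw [avg_add, avg_mul, avg_mul, e1, e2]
  have e3 : avg (fun x => ∑ a, ∑ b, if a = x 0 then 0 else if b = x 0 then 0 else
      DD φ (g (swap a b * x)) (g x)) = avg (fun p => avg (fun e => ∑ a, ∑ b,
        if a = dc p e 0 then 0 else if b = dc p e 0 then 0 else
          DD φ (g (swap a b * dc p e)) (g (dc p e)))) := avg_dc _
  have e4 : avg (fun x => avg (fun l => DD φ (g (swap (x 0) l * x)) (g x))) =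
      avg (fun k => avg (fun l => avg (fun e => DD φ (g (swap k l * dc k e)) (g (dc k e))))) := by
    rw [avg_dc]
    congr 1
    funext k
    rw [avg_comm]
    simp_rw [dc_zero]
  rw [e3, e4]
  rw [avg_mul] at h1
  linarith

/-- one step with a general distinguished point -/
lemma step_i (hd : PhiData S Φ φ) {n : ℕ} {lam : ℝ}
    (ih : ∀ f : Perm (Fin n) → ℝ, (∀ x, f x ∈ S) →
      avg (fun x => Φ (f x)) - Φ (avg f) ≤ lam * avg (DF φ f))
    (f : Perm (Fin (n + 1)) → ℝ) (hf : ∀ x, f x ∈ S) (i : Fin (n + 1)) :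
    avg (fun x => Φ (f x)) - Φ (avg f) ≤
      avg (fun x => lam * (∑ a, ∑ b, if a = x i then 0 else if b = x i then 0 else
          DD φ (f (swap a b * x)) (f x)) +
        1 / 2 * avg (fun l => DD φ (f (swap (x i) l * x)) (f x))) := by
  have h := step_zero hd ih (fun x => f (x * swap 0 i)) (fun x => hf _)
  have e1 : avg (fun x => Φ (f (x * swap 0 i))) = avg (fun x => Φ (f x)) :=
    avg_equiv (Equiv.mulRight (swap 0 i)) (fun x => Φ (f x))
  have e2 : avg (fun x => f (x * swap 0 i)) = avg f := avg_equiv (Equiv.mulRight (swap 0 i)) f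
  rw [e1, e2] at h
  refine h.trans (le_of_eq ?_)
  rw [← avg_equiv (Equiv.mulRight (swap 0 i)) (fun x => lam * (∑ a, ∑ b,
    if a = x i then 0 else if b = x i then 0 else DD φ (f (swap a b * x)) (f x)) +
        1 / 2 * avg (fun l => DD φ (f (swap (x i) l * x)) (f x)))]
  congr 1
  funext x
  simp only [Equiv.coe_mulRight, Perm.mul_apply, swap_apply_right, mul_assoc]

lemma sum_ite_point {n : ℕ} (x : Perm (Fin (n + 1))) (F : Fin (n + 1) → Fin (n + 1) → ℝ)
    (hF : ∀ a, F a a = 0) :
    ∑ i, ∑ a, ∑ b, (if a = x i then 0 else if b = x i then 0 else F a b) =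
      ((n : ℝ) - 1) * ∑ a, ∑ b, F a b := by
  rw [Finset.sum_comm, Finset.mul_sum]
  refine Finset.sum_congr rfl fun a _ => ?_
  rw [Finset.sum_comm, Finset.mul_sum]
  refine Finset.sum_congr rfl fun b _ => ?_
  rw [Equiv.sum_comp x (fun y => if a = y then 0 else if b = y then 0 else F a b)]
  have h1 : ∀ y, (if a = y then (0 : ℝ) else if b = y then 0 else F a b) =
      F a b - (if a = y then F a b else 0) - (if b = y then F a b else 0) +
        (if a = y then (if b = y then F a b else 0) else 0) := by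
    intro y
    split_ifs <;> ring
  simp_rw [h1]
  rw [Finset.sum_add_distrib, Finset.sum_sub_distrib, Finset.sum_sub_distrib]
  simp only [Finset.sum_const, Finset.card_univ, Fintype.card_fin, Finset.sum_ite_eq,
    Finset.mem_univ, if_true, nsmul_eq_mul]
  by_cases hab : b = a
  · subst hab
    simp [hF]
  · rw [if_neg hab]
    push_cast
    ring

/-- The `Φ`-Sobolev inequality for random transpositions. -/
theorem phi_sobolev (hd : PhiData S Φ φ) (n : ℕ) (f : Perm (Fin n) → ℝ) (hf : ∀ x, f x ∈ S) :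
    avg (fun x => Φ (f x)) - Φ (avg f) ≤ 1 / (n : ℝ) * avg (DF φ f) := by
  induction n with
  | zero =>
    have h1 : ∀ x : Perm (Fin 0), x = 1 := fun x => Subsingleton.elim _ _
    have e1 : avg (fun x => Φ (f x)) = Φ (f 1) := by
      have : (fun x => Φ (f x)) = fun _ => Φ (f 1) := by funext x; rw [h1 x]
      rw [this, avg_const]
    have e2 : avg f = f 1 := by
      have : f = fun _ => f 1 := by funext x; rw [h1 x]
      rw [this, avg_const]
    rw [e1, e2]
    simp
  | succ n ih =>
    have h1 : avg (fun i : Fin (n + 1) => avg (fun x => Φ (f x)) - Φ (avg f)) ≤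
        avg (fun i : Fin (n + 1) => avg (fun x => 1 / (n : ℝ) * (∑ a, ∑ b,
          if a = x i then 0 else if b = x i then 0 else DD φ (f (swap a b * x)) (f x)) +
        1 / 2 * avg (fun l => DD φ (f (swap (x i) l * x)) (f x)))) :=
      avg_mono fun i => step_i hd ih f hf i
    rw [avg_const, avg_comm] at h1
    refine h1.trans ?_
    rw [← avg_mul]
    refine avg_mono fun x => ?_
    have hDF : 0 ≤ DF φ f x := Finset.sum_nonneg fun a _ => Finset.sum_nonneg fun b _ =>
      hd.DD_nonneg (hf _) (hf _)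
    rw [avg_add, avg_mul, avg_mul]
    have e1 : avg (fun i => ∑ a, ∑ b, if a = x i then 0 else if b = x i then 0 else
        DD φ (f (swap a b * x)) (f x)) = ((n : ℝ) - 1) / ((n : ℝ) + 1) * DF φ f x := by
      unfold avg
      rw [sum_ite_point x (fun a b => DD φ (f (swap a b * x)) (f x)) (fun a => by
        rw [swap_self]; exact DD_self _ _)]
      rw [Fintype.card_fin]
      unfold DF
      push_cast
      ring
    have e2 : avg (fun i => avg (fun l => DD φ (f (swap (x i) l * x)) (f x))) =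
        1 / ((n : ℝ) + 1) ^ 2 * DF φ f x := by
      rw [avg_equiv x (fun k => avg (fun l => DD φ (f (swap k l * x)) (f x)))]
      unfold avg DF
      rw [← Finset.sum_div, Fintype.card_fin]
      push_cast
      rw [div_div]
      field_simp
    rw [e1, e2]
    have h3 : 1 / (n : ℝ) * (((n : ℝ) - 1) / ((n : ℝ) + 1)) +
        1 / 2 * (1 / ((n : ℝ) + 1) ^ 2) ≤ 1 / ((n + 1 : ℕ) : ℝ) := by
      push_cast
      rcases Nat.eq_zero_or_pos n with rfl | hn
      · norm_num
      · have hn' : (1 : ℝ) ≤ n := by exact_mod_cast hn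
        rw [div_mul_div_comm, div_mul_div_comm, div_add_div _ _ (by positivity) (by positivity),
          div_le_div_iff₀ (by positivity) (by positivity)]
        nlinarith [sq_nonneg ((n : ℝ) + 1), mul_pos (by linarith : (0 : ℝ) < n)
          (by positivity : (0 : ℝ) < ((n : ℝ) + 1) ^ 2)]
    calc 1 / (n : ℝ) * (((n : ℝ) - 1) / ((n : ℝ) + 1) * DF φ f x) +
          1 / 2 * (1 / ((n : ℝ) + 1) ^ 2 * DF φ f x)
        = (1 / (n : ℝ) * (((n : ℝ) - 1) / ((n : ℝ) + 1)) +
          1 / 2 * (1 / ((n : ℝ) + 1) ^ 2)) * DF φ f x := by ring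
      _ ≤ 1 / ((n + 1 : ℕ) : ℝ) * DF φ f x := mul_le_mul_of_nonneg_right h3 hDF

end

end Pool.Agent.Helper353.Cut
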