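import Pool.Agent.Helper353.Cut.Basic
import Pool.Agent.Helper353.Cut.Phi

/-!
Poincaré inequality and modified logarithmic Sobolev inequality for nearly uniform weights.
-/

open scoped BigOperators

namespace Pool.Agent.Helper353.Cut

lemma phiData_sq : PhiData Set.univ (fun x => x ^ 2) (fun x => 2 * x) where
  avg_mem := fun _ _ => Set.mem_univ _
  tangent := by
    intro a _ b _
    nlinarith [sq_nonneg (a - b)]
  jensen := by
    intro ι _ _ a b _ _
    have h1 : (avg a - avg b) = avg (fun i => a i - b i) := (avg_sub a b).symm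
    have h2 : (avg (fun i => a i - b i)) ^ 2 ≤ avg (fun i => (a i - b i) ^ 2) := by
      unfold avg
      have hc : (0 : ℝ) < Fintype.card ι := by exact_mod_cast Fintype.card_pos
      rw [div_pow, div_le_div_iff₀ (by positivity) hc]
      have h3 := sq_sum_le_card_mul_sum_sq (s := (Finset.univ : Finset ι))
        (f := fun i => a i - b i)
      rw [Finset.card_univ] at h3
      nlinarith
    calc (avg a - avg b) * (2 * avg a - 2 * avg b) = 2 * (avg a - avg b) ^ 2 := by ring
      _ = 2 * (avg (fun i => a i - b i)) ^ 2 := by rw [h1]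
      _ ≤ 2 * avg (fun i => (a i - b i) ^ 2) := by linarith
      _ = avg (fun i => 2 * (a i - b i) ^ 2) := (avg_mul _ _).symm
      _ = _ := by
        congr 1
        funext i
        ring

lemma mul_log_ge {a b : ℝ} (ha : 0 < a) (hb : 0 < b) :
    a - b ≤ a * (Real.log a - Real.log b) := by
  have h1 := Real.log_le_sub_one_of_pos (div_pos hb ha)
  rw [Real.log_div hb.ne' ha.ne'] at h1
  have h2 : a * (Real.log b - Real.log a) ≤ a * (b / a - 1) :=
    mul_le_mul_of_nonneg_left h1 ha.le
  have h3 : a * (b / a - 1) = b - a := by field_simp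
  rw [h3] at h2
  linarith

lemma avg_pos {ι : Type*} [Fintype ι] [Nonempty ι] {a : ι → ℝ} (h : ∀ i, 0 < a i) : 0 < avg a := by
  unfold avg
  have hc : (0 : ℝ) < Fintype.card ι := by exact_mod_cast Fintype.card_pos
  exact div_pos (Finset.sum_pos (fun i _ => h i) Finset.univ_nonempty) hc

/-- log-sum inequality -/
lemma log_sum {ι : Type*} [Fintype ι] [Nonempty ι] {a b : ι → ℝ} (ha : ∀ i, 0 < a i)
    (hb : ∀ i, 0 < b i) : avg a * (Real.log (avg a) - Real.log (avg b)) ≤
      avg (fun i => a i * (Real.log (a i) - Real.log (b i))) := by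
  have hA := avg_pos ha
  have hB := avg_pos hb
  have h1 : ∀ i, (Real.log (avg a) - Real.log (avg b)) * a i + (a i - avg a / avg b * b i) ≤
      a i * (Real.log (a i) - Real.log (b i)) := by
    intro i
    have h2 := mul_log_ge (ha i) (b := avg a / avg b * b i) (by have := hb i; positivity)
    rw [Real.log_mul (by positivity) (hb i).ne', Real.log_div hA.ne' hB.ne'] at h2
    nlinarith
  have h3 := avg_mono h1
  rw [avg_add, avg_sub, avg_mul, avg_mul, div_mul_cancel₀ _ hB.ne', sub_self, add_zero] at h3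
  linarith

lemma phiData_log : PhiData (Set.Ioi 0) (fun x => x * Real.log x) (fun x => Real.log x + 1) where
  avg_mem := fun _ h => avg_pos h
  tangent := by
    intro a ha b hb
    have := mul_log_ge (a := b) (b := a) hb ha
    nlinarith
  jensen := by
    intro ι _ _ a b ha hb
    have h1 := log_sum ha hb
    have h2 := log_sum hb ha
    have h3 : avg (fun i => (a i - b i) * (Real.log (a i) + 1 - (Real.log (b i) + 1))) =
        avg (fun i => a i * (Real.log (a i) - Real.log (b i))) +
          avg (fun i => b i * (Real.log (b i) - Real.log (a i))) := by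
      rw [← avg_add]
      congr 1
      funext i
      ring
    rw [h3]
    nlinarith

variable {n : ℕ}

/-- the Dirichlet form -/
noncomputable def Dir (p : Fin n → Fin n → ℝ) (f g : V n) : ℝ :=
  1 / 2 * av (fun x => ∑ i, ∑ j, p i j *
    ((f (Equiv.swap i j * x) - f x) * (g (Equiv.swap i j * x) - g x)))

lemma Dir_eq {p : Fin n → Fin n → ℝ} (h : PW p) (f g : V n) :
    Dir p f g = - av (fun x => A p f x * g x) := by
  unfold Dir
  have h1 : ∀ x, ∑ i, ∑ j, p i j *
      ((f (Equiv.swap i j * x) - f x) * (g (Equiv.swap i j * x) - g x)) =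
      P p (fun y => f y * g y) x + f x * g x - P p f x * g x - f x * P p g x := by
    intro x
    have e1 : f x * g x = ∑ i, ∑ j, p i j * (f x * g x) := by
      simp_rw [← Finset.sum_mul]
      rw [h.sum_eq, one_mul]
    have e2 : P p f x * g x = ∑ i, ∑ j, p i j * (f (Equiv.swap i j * x) * g x) := by
      rw [P_apply, Finset.sum_mul]
      refine Finset.sum_congr rfl fun i _ => ?_
      rw [Finset.sum_mul]
      exact Finset.sum_congr rfl fun j _ => by ring
    have e3 : f x * P p g x = ∑ i, ∑ j, p i j * (f x * g (Equiv.swap i j * x)) := by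
      rw [P_apply, Finset.mul_sum]
      refine Finset.sum_congr rfl fun i _ => ?_
      rw [Finset.mul_sum]
      exact Finset.sum_congr rfl fun j _ => by ring
    rw [e1, e2, e3, P_apply, ← Finset.sum_add_distrib, ← Finset.sum_sub_distrib,
      ← Finset.sum_sub_distrib]
    refine Finset.sum_congr rfl fun i _ => ?_
    rw [← Finset.sum_add_distrib, ← Finset.sum_sub_distrib, ← Finset.sum_sub_distrib]
    exact Finset.sum_congr rfl fun j _ => by ring
  simp_rw [h1]
  rw [av_sub, av_sub, av_add, av_P h, ← P_selfadj]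
  have h2 : av (fun x => A p f x * g x) = av (fun x => P p f x * g x) - av (fun x => f x * g x) := by
    rw [← av_sub]
    congr 1
    ext x
    rw [A_apply]
    ring
  rw [h2]
  ring

lemma av_eq_avg (f : V n) : av f = avg f := rfl

lemma NU.compare {c C : ℝ} {p : Fin n → Fin n → ℝ} (hp : NU c C p) (hc : 0 < c) (hn : 0 < n)
    (F : Fin n → Fin n → ℝ) (hF : ∀ i j, 0 ≤ F i j) :
    ∑ i, ∑ j, F i j ≤ (n : ℝ) ^ 2 / c * ∑ i, ∑ j, p i j * F i j := by
  rw [Finset.mul_sum]
  refine Finset.sum_le_sum fun i _ => ?_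
  rw [Finset.mul_sum]
  refine Finset.sum_le_sum fun j _ => ?_
  have h1 := hp.lb i j
  have hn' : (0 : ℝ) < n := by exact_mod_cast hn
  have h2 : 1 ≤ (n : ℝ) ^ 2 / c * p i j := by
    rw [div_le_iff₀ (by positivity)] at h1
    rw [div_mul_eq_mul_div, le_div_iff₀ hc]
    linarith
  calc F i j = 1 * F i j := (one_mul _).symm
    _ ≤ ((n : ℝ) ^ 2 / c * p i j) * F i j := mul_le_mul_of_nonneg_right h2 (hF i j)
    _ = _ := by ring

/-- the Poincaré inequality -/
theorem poincare {c C : ℝ} {p : Fin n → Fin n → ℝ} (hp : NU c C p) (hc : 0 < c) (hn : 0 < n)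
    (f : V n) : av (fun x => f x ^ 2) - (av f) ^ 2 ≤ 4 * n / c * Dir p f f := by
  have h1 := phi_sobolev phiData_sq n f (fun _ => Set.mem_univ _)
  have hn' : (0 : ℝ) < n := by exact_mod_cast hn
  have h2 : avg (DF (fun x => 2 * x) f) ≤ (n : ℝ) ^ 2 / c * (4 * Dir p f f) := by
    unfold Dir
    rw [show (n : ℝ) ^ 2 / c * (4 * (1 / 2 * av (fun x => ∑ i, ∑ j, p i j *
      ((f (Equiv.swap i j * x) - f x) * (f (Equiv.swap i j * x) - f x))))) =
      ((n : ℝ) ^ 2 / c * 2) * av (fun x => ∑ i, ∑ j, p i j *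
      ((f (Equiv.swap i j * x) - f x) * (f (Equiv.swap i j * x) - f x))) by ring]
    rw [← av_smul, av_eq_avg]
    refine avg_mono fun x => ?_
    unfold DF
    have h3 := hp.compare hc hn (fun a b => DD (fun x => 2 * x) (f (Equiv.swap a b * x)) (f x))
      (fun a b => phiData_sq.DD_nonneg (Set.mem_univ _) (Set.mem_univ _))
    refine h3.trans (le_of_eq ?_)
    rw [mul_assoc, Finset.mul_sum _ _ 2]
    congr 1
    refine Finset.sum_congr rfl fun i _ => ?_
    rw [Finset.mul_sum]
    refine Finset.sum_congr rfl fun j _ => ?_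
    unfold DD
    ring
  calc av (fun x => f x ^ 2) - (av f) ^ 2 ≤ 1 / (n : ℝ) * avg (DF (fun x => 2 * x) f) := h1
    _ ≤ 1 / (n : ℝ) * ((n : ℝ) ^ 2 / c * (4 * Dir p f f)) := by gcongr
    _ = _ := by field_simp

/-- the modified logarithmic Sobolev inequality -/
theorem mlsi {c C : ℝ} {p : Fin n → Fin n → ℝ} (hp : NU c C p) (hc : 0 < c) (hn : 0 < n)
    (f : V n) (hf : ∀ x, 0 < f x) :
    av (fun x => f x * Real.log (f x)) - av f * Real.log (av f) ≤
      2 * n / c * Dir p f (fun x => Real.log (f x)) := by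
  have h1 := phi_sobolev phiData_log n f hf
  have hn' : (0 : ℝ) < n := by exact_mod_cast hn
  have h2 : avg (DF (fun x => Real.log x + 1) f) ≤
      (n : ℝ) ^ 2 / c * (2 * Dir p f (fun x => Real.log (f x))) := by
    unfold Dir
    rw [show (n : ℝ) ^ 2 / c * (2 * (1 / 2 * av (fun x => ∑ i, ∑ j, p i j *
      ((f (Equiv.swap i j * x) - f x) * (Real.log (f (Equiv.swap i j * x)) - Real.log (f x)))))) =
      ((n : ℝ) ^ 2 / c) * av (fun x => ∑ i, ∑ j, p i j *
      ((f (Equiv.swap i j * x) - f x) * (Real.log (f (Equiv.swap i j * x)) - Real.log (f x))))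
      by ring]
    rw [← av_smul, av_eq_avg]
    refine avg_mono fun x => ?_
    unfold DF
    have h3 := hp.compare hc hn
      (fun a b => DD (fun x => Real.log x + 1) (f (Equiv.swap a b * x)) (f x))
      (fun a b => phiData_log.DD_nonneg (hf _) (hf _))
    refine h3.trans (le_of_eq ?_)
    congr 1
    refine Finset.sum_congr rfl fun i _ => ?_
    refine Finset.sum_congr rfl fun j _ => ?_
    unfold DD
    ring
  calc av (fun x => f x * Real.log (f x)) - av f * Real.log (av f)
      ≤ 1 / (n : ℝ) * avg (DF (fun x => Real.log x + 1) f) := h1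
    _ ≤ 1 / (n : ℝ) * ((n : ℝ) ^ 2 / c * (2 * Dir p f (fun x => Real.log (f x)))) := by gcongr
    _ = _ := by field_simp

end Pool.Agent.Helper353.Cut
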