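import Pool.Agent.Helper353.Cut.Local
import Pool.Agent.Helper353.Cut.Sobolev

/-!
Entropy and varentropy of the heat kernel.
-/

open scoped BigOperators

namespace Pool.Agent.Helper353.Cut

open Equiv

variable {n : ℕ}

/-- the density of the point mass at the identity -/
noncomputable def dl : V n := fun x => if x = 1 then (Fintype.card (G n) : ℝ) else 0

lemma dl_nonneg (x : G n) : 0 ≤ dl x := by
  unfold dl
  split_ifs
  · exact card_pos.le
  · exact le_rfl

lemma av_dl_mul (h : V n) : av (fun x => dl x * h x) = h 1 := by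
  unfold av dl
  simp only [ite_mul, zero_mul, Finset.sum_ite_eq', Finset.mem_univ, if_true]
  rw [mul_div_cancel_left₀]
  exact card_pos.ne'

lemma av_dl : av (dl : V n) = 1 := by
  have := av_dl_mul (n := n) (fun _ => 1)
  simpa using this

/-- the density of the law of the continuous-time walk started from the identity -/
noncomputable def ft (p : Fin n → Fin n → ℝ) (t : ℝ) : V n := K p t dl

lemma ft_nonneg {p : Fin n → Fin n → ℝ} (h : PW p) {t : ℝ} (ht : 0 ≤ t) (x : G n) :
    0 ≤ ft p t x := K_nonneg h ht dl_nonneg x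

lemma av_ft {p : Fin n → Fin n → ℝ} (h : PW p) (t : ℝ) : av (ft p t) = 1 := by
  unfold ft
  rw [av_K h, av_dl]

lemma K_one_eq (p : Fin n → Fin n → ℝ) (t : ℝ) (g : V n) :
    K p t g 1 = av (fun x => ft p t x * g x) := by
  unfold ft
  rw [K_selfadj, av_dl_mul]

/-- the entropy -/
noncomputable def En (p : Fin n → Fin n → ℝ) (t : ℝ) : ℝ :=
  av (fun x => ft p t x * Real.log (ft p t x))

/-- the varentropy -/
noncomputable def Vr (p : Fin n → Fin n → ℝ) (t : ℝ) : ℝ :=
  av (fun x => ft p t x * Real.log (ft p t x) ^ 2) - (En p t) ^ 2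

/-- the entropy dissipation -/
noncomputable def Ds (p : Fin n → Fin n → ℝ) (t : ℝ) : ℝ :=
  Dir p (ft p t) (fun x => Real.log (ft p t x))

/-- approximate chain rule -/
lemma chain_scalar {a b l : ℝ} (ha : 0 < a) (hb : 0 < b)
    (hl : |Real.log a - Real.log b| ≤ l) :
    (a + b) / 2 * (Real.log a - Real.log b) ^ 2 ≤
      (1 + l / 2) * ((a - b) * (Real.log a - Real.log b)) := by
  wlog hab : b ≤ a generalizing a b
  · have h1 := this hb ha (by rwa [abs_sub_comm]) (le_of_not_ge hab)
    nlinarith
  have h1 : b * (Real.log a - Real.log b) ≤ a - b := by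
    have := mul_log_ge hb ha
    linarith
  have hr : 0 ≤ Real.log a - Real.log b := sub_nonneg.2 (Real.log_le_log hb hab)
  set r := Real.log a - Real.log b with hrdef
  rw [abs_of_nonneg hr] at hl
  have h2 : (a + b) * r ≤ (2 + r) * (a - b) := by nlinarith
  have h3 : (2 + r) * (a - b) ≤ (2 + l) * (a - b) :=
    mul_le_mul_of_nonneg_right (by linarith) (by linarith)
  calc (a + b) / 2 * r ^ 2 = ((a + b) * r) * (r / 2) := by ring
    _ ≤ ((2 + l) * (a - b)) * (r / 2) := mul_le_mul_of_nonneg_right (h2.trans h3) (by linarith)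
    _ = _ := by ring

lemma av_swap (f g : V n) (a b : Fin n) :
    av (fun x => f x * (g (swap a b * x) - g x) ^ 2) =
      av (fun x => (f (swap a b * x) + f x) / 2 * (g (swap a b * x) - g x) ^ 2) := by
  have h1 : av (fun x => f x * (g (swap a b * x) - g x) ^ 2) =
      av (fun x => f (swap a b * x) * (g (swap a b * x) - g x) ^ 2) := by
    rw [← av_mul_left (fun x => f x * (g (swap a b * x) - g x) ^ 2) (swap a b)]
    congr 1
    ext x
    rw [swap_mul_cancel]
    ring
  have h2 : av (fun x => (f (swap a b * x) + f x) / 2 * (g (swap a b * x) - g x) ^ 2) =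
      1 / 2 * (av (fun x => f (swap a b * x) * (g (swap a b * x) - g x) ^ 2) +
        av (fun x => f x * (g (swap a b * x) - g x) ^ 2)) := by
    rw [← av_add, ← av_smul]
    congr 1
    ext x
    ring
  rw [h2, ← h1]
  ring

lemma av_mul_Gam (f g : V n) : av (fun x => f x * Gam g x) =
    av (fun x => (∑ a, ∑ b, (f (swap a b * x) + f x) / 2 * (g (swap a b * x) - g x) ^ 2) /
      (n : ℝ) ^ 2) := by
  have h1 : ∀ x, f x * Gam g x =
      (1 / (n : ℝ) ^ 2) * ∑ a, ∑ b, f x * (g (swap a b * x) - g x) ^ 2 := by
    intro x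
    unfold Gam
    simp_rw [← Finset.mul_sum]
    ring
  have h2 : ∀ x, (∑ a, ∑ b, (f (swap a b * x) + f x) / 2 * (g (swap a b * x) - g x) ^ 2) /
      (n : ℝ) ^ 2 = (1 / (n : ℝ) ^ 2) *
        ∑ a, ∑ b, (f (swap a b * x) + f x) / 2 * (g (swap a b * x) - g x) ^ 2 := by
    intro x
    ring
  simp_rw [h1, h2]
  rw [av_smul, av_smul, av_sum, av_sum]
  congr 1
  refine Finset.sum_congr rfl fun a _ => ?_
  rw [av_sum, av_sum]
  exact Finset.sum_congr rfl fun b _ => av_swap f g a b

/-- varentropy bound -/
theorem Vr_le {c C : ℝ} {p : Fin n → Fin n → ℝ} (hp : NU c C p) (hc : 0 < c) (hC : 0 ≤ C)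
    (hn : 0 < n) {t l : ℝ} (ht : 0 ≤ t) (hpos : ∀ x, 0 < ft p t x)
    (hl : ∀ a b x, |Real.log (ft p t (swap a b * x)) - Real.log (ft p t x)| ≤ l) :
    Vr p t ≤ (2 * C / c) * t * (1 + l / 2) * Ds p t := by
  have hn' : (0 : ℝ) < n := by exact_mod_cast hn
  have h1 := local_poincare hp hc (fun x => Real.log (ft p t x)) ht 1
  rw [K_one_eq, K_one_eq, K_one_eq] at h1
  have h2 : av (fun x => ft p t x * Gam (fun x => Real.log (ft p t x)) x) ≤
      (1 + l / 2) * (2 / c) * Ds p t := by
    rw [av_mul_Gam]
    unfold Ds Dir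
    rw [show (1 + l / 2) * (2 / c) * (1 / 2 * av (fun x => ∑ i, ∑ j, p i j *
      ((ft p t (swap i j * x) - ft p t x) *
        (Real.log (ft p t (swap i j * x)) - Real.log (ft p t x))))) =
      ((1 + l / 2) / c) * av (fun x => ∑ i, ∑ j, p i j *
      ((ft p t (swap i j * x) - ft p t x) *
        (Real.log (ft p t (swap i j * x)) - Real.log (ft p t x)))) by field_simp]
    rw [← av_smul]
    refine av_mono fun x => ?_
    have h3 := hp.compare hc hn (fun a b => (ft p t (swap a b * x) + ft p t x) / 2 *
      (Real.log (ft p t (swap a b * x)) - Real.log (ft p t x)) ^ 2) (fun a b => by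
        have := hpos x
        have := hpos (swap a b * x)
        positivity)
    have hpw := hp.pw hc
    have h4 : ∑ a, ∑ b, p a b * ((ft p t (swap a b * x) + ft p t x) / 2 *
        (Real.log (ft p t (swap a b * x)) - Real.log (ft p t x)) ^ 2) ≤
        ∑ a, ∑ b, p a b * ((1 + l / 2) * ((ft p t (swap a b * x) - ft p t x) *
        (Real.log (ft p t (swap a b * x)) - Real.log (ft p t x)))) :=
      Finset.sum_le_sum fun a _ => Finset.sum_le_sum fun b _ =>
        mul_le_mul_of_nonneg_left (chain_scalar (hpos _) (hpos _) (hl a b x)) (hpw.nonneg a b)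
    rw [div_le_iff₀ (by positivity)]
    refine h3.trans ?_
    refine (mul_le_mul_of_nonneg_left h4 (by positivity)).trans (le_of_eq ?_)
    have h5 : ∑ a, ∑ b, p a b * ((1 + l / 2) * ((ft p t (swap a b * x) - ft p t x) *
        (Real.log (ft p t (swap a b * x)) - Real.log (ft p t x)))) =
        (1 + l / 2) * ∑ a, ∑ b, p a b * ((ft p t (swap a b * x) - ft p t x) *
        (Real.log (ft p t (swap a b * x)) - Real.log (ft p t x))) := by
      rw [Finset.mul_sum]
      refine Finset.sum_congr rfl fun a _ => ?_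
      rw [Finset.mul_sum]
      exact Finset.sum_congr rfl fun b _ => by ring
    rw [h5]
    ring
  have h3 : Vr p t ≤ C * t * av (fun x => ft p t x * Gam (fun x => Real.log (ft p t x)) x) := h1
  refine h3.trans ((mul_le_mul_of_nonneg_left h2 (by positivity)).trans (le_of_eq ?_))
  ring

/-- derivative of the entropy -/
theorem En_hasDerivAt {p : Fin n → Fin n → ℝ} (hp : PW p) {t : ℝ} (hpos : ∀ x, 0 < ft p t x) :
    HasDerivAt (En p) (-(Ds p t)) t := by
  have h1 : ∀ x, HasDerivAt (fun s => ft p s x) (A p (ft p t) x) t := fun x =>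
    (hasDerivAt_pi.1 (K_hasDerivAt_apply p dl t)) x
  have h2 : ∀ x, HasDerivAt (fun s => ft p s x * Real.log (ft p s x))
      (A p (ft p t) x * Real.log (ft p t x) + A p (ft p t) x) t := by
    intro x
    have h3 := (h1 x).mul ((h1 x).log (hpos x).ne')
    refine h3.congr_deriv ?_
    have := (hpos x).ne'
    field_simp
  have h4 : HasDerivAt (En p) (av (fun x => A p (ft p t) x * Real.log (ft p t x) +
      A p (ft p t) x)) t := by
    unfold En av
    exact (HasDerivAt.fun_sum fun x _ => h2 x).div_const _
  refine h4.congr_deriv ?_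
  rw [av_add]
  have h5 : av (fun x => A p (ft p t) x) = 0 := by
    have : (fun x => A p (ft p t) x) = fun x => P p (ft p t) x - ft p t x := rfl
    rw [this, av_sub, av_P hp, sub_self]
  rw [h5, add_zero]
  unfold Ds
  rw [Dir_eq hp, neg_neg]

/-- total variation distance to uniform of a density -/
noncomputable def tv (f : V n) : ℝ := 1 / 2 * av (fun x => |f x - 1|)

open scoped Classical in
/-- entropy, varentropy and total variation distance -/
theorem tv_ent {f : V n} (hf : ∀ x, 0 < f x) (h1 : av f = 1) {H Vv ε : ℝ}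
    (hH : av (fun x => f x * Real.log (f x)) = H)
    (hV : av (fun x => f x * Real.log (f x) ^ 2) - H ^ 2 = Vv) (hHpos : 0 < H)
    (htv : tv f ≤ 1 - ε) : ε ≤ 4 * Vv / H ^ 2 + Real.exp (-(H / 2)) := by
  set I : V n := fun x => if H / 2 < Real.log (f x) then 1 else 0 with hI
  -- Chebyshev
  have hcheb : av (fun x => f x * (1 - I x)) ≤ 4 * Vv / H ^ 2 := by
    have e1 : av (fun x => f x * (Real.log (f x) - H) ^ 2) = Vv := by
      have : (fun x => f x * (Real.log (f x) - H) ^ 2) = fun x =>
          (f x * Real.log (f x) ^ 2 - (2 * H) * (f x * Real.log (f x))) + H ^ 2 * f x := by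
        ext x; ring
      rw [this, av_add, av_sub, av_smul, av_smul, hH, h1, ← hV]
      ring
    rw [← e1, le_div_iff₀ (by positivity), mul_comm, ← av_smul, ← av_smul]
    refine av_mono fun x => ?_
    simp only [hI]
    split_ifs with h
    · rw [sub_self, mul_zero, mul_zero]
      have := hf x
      positivity
    · rw [sub_zero, mul_one]
      have h2 : H ^ 2 ≤ 4 * (Real.log (f x) - H) ^ 2 := by
        rw [not_lt] at h
        nlinarith
      have := hf x
      nlinarith
  have hpi : av I ≤ Real.exp (-(H / 2)) := by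
    have : av I ≤ av (fun x => Real.exp (-(H / 2)) * f x) := by
      refine av_mono fun x => ?_
      simp only [hI]
      split_ifs with h
      · have h3 : Real.exp (H / 2) ≤ f x := by
          rw [← Real.le_log_iff_exp_le (hf x)]
          exact h.le
        rw [Real.exp_neg, inv_mul_eq_div, le_div_iff₀ (Real.exp_pos _), one_mul]
        exact h3
      · have := hf x
        positivity
    rwa [av_smul, h1, mul_one] at this
  have hlow : av (fun x => (f x - 1) * I x) ≤ tv f := by
    have e2 : av (fun x => f x - 1) = 0 := by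
      rw [av_sub, h1, av_const, sub_self]
    have e3 : tv f = av (fun x => 1 / 2 * (|f x - 1| + (f x - 1))) := by
      rw [av_smul, av_add, e2, add_zero]
      rfl
    rw [e3]
    refine av_mono fun x => ?_
    simp only [hI]
    split_ifs with h
    · have := le_abs_self (f x - 1)
      linarith
    · have := neg_abs_le (f x - 1)
      linarith
  have e4 : av (fun x => (f x - 1) * I x) = 1 - av (fun x => f x * (1 - I x)) - av I := by
    have : (fun x => (f x - 1) * I x) = fun x => (f x - f x * (1 - I x)) - I x := by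
      ext x; ring
    rw [this, av_sub, av_sub, h1]
  rw [e4] at hlow
  linarith

end Pool.Agent.Helper353.Cut
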