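import Pool.Agent.Helper353.Cut.Asym

/-!
Mixing times and their ratio.
-/

open scoped BigOperators Topology
open Filter

namespace Pool.Agent.Helper353.Cut

open Equiv

variable {n : ℕ}

/-- the chain converges to the uniform distribution -/
lemma exists_tv_le {c C : ℝ} {p : Fin n → Fin n → ℝ} (hp : NU c C p) (hc : 0 < c) (hn : 0 < n)
    {ε : ℝ} (hε : 0 < ε) : ∃ T : ℕ, tv (qt p T) ≤ ε := by
  have hn' : (0 : ℝ) < n := by exact_mod_cast hn
  have hpw := hp.pw hc
  have hM0 := Mc_pos (hp.c_le_one hn) hn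
  have hM1 : Mc c n < 1 := by
    unfold Mc
    have : 0 < c / (4 * (n : ℝ)) := by positivity
    linarith
  set g : V n := fun x => dl x - 1 with hg
  have hg0 : av g = 0 := by
    rw [hg, av_sub, av_dl, av_const, sub_self]
  have h1 : ∀ T, tv (qt p T) ≤ (Mc c n) ^ T * Real.sqrt (ee p g 0) := by
    intro T
    have h2 : (P p ^ T) g = fun x => qt p T x - 1 := by
      have : g = dl - (fun _ => 1) := rfl
      rw [this, map_sub, Ppow_const hpw]
      rfl
    have h3 := av_abs_le ((P p ^ T) g)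
    have h4 : Real.sqrt (av (fun x => ((P p ^ T) g) x ^ 2)) ≤
        (Mc c n) ^ T * Real.sqrt (ee p g 0) := by
      apply Real.sqrt_le_iff.2
      refine ⟨by positivity, ?_⟩
      have h5 := ee_le hp hc hn g hg0 T
      have h6 : 0 ≤ ee p g 0 := ee_nonneg p g 0
      rw [mul_pow, Real.sq_sqrt h6, ← pow_mul, mul_comm T 2]
      exact h5
    have h7 : av (fun x => |(P p ^ T) g x|) = av (fun x => |qt p T x - 1|) := by
      rw [h2]
    unfold tv
    have h8 : 0 ≤ av (fun x => |qt p T x - 1|) := av_nonneg fun x => abs_nonneg _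
    linarith
  have h2 : Tendsto (fun T : ℕ => (Mc c n) ^ T * Real.sqrt (ee p g 0)) atTop (𝓝 0) := by
    have := (tendsto_pow_atTop_nhds_zero_of_lt_one hM0.le hM1).mul_const (Real.sqrt (ee p g 0))
    rwa [zero_mul] at this
  obtain ⟨T, hT⟩ := (h2.eventually (gt_mem_nhds hε)).exists
  exact ⟨T, (h1 T).trans hT.le⟩

/-- the mixing time -/
noncomputable def mixT (p : Fin n → Fin n → ℝ) (ε : ℝ) : ℕ := sInf {T : ℕ | tv (qt p T) ≤ ε}

lemma mixT_mem {c C : ℝ} {p : Fin n → Fin n → ℝ} (hp : NU c C p) (hc : 0 < c) (hn : 0 < n)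
    {ε : ℝ} (hε : 0 < ε) : tv (qt p (mixT p ε)) ≤ ε := Nat.sInf_mem (exists_tv_le hp hc hn hε)

lemma mixT_le {p : Fin n → Fin n → ℝ} {ε : ℝ} {T : ℕ} (h : tv (qt p T) ≤ ε) : mixT p ε ≤ T :=
  Nat.sInf_le h

lemma ratio_small {c C : ℝ} (hc : 0 < c) (hC : c ≤ C) (p : (n : ℕ) → Fin n → Fin n → ℝ)
    (hp : ∀ n, 2 ≤ n → NU c C (p n)) {ε : ℝ} (hε : 0 < ε) (hε2 : ε ≤ 1 / 2) :
    Tendsto (fun n => (mixT (p n) ε : ℝ) / (mixT (p n) (1 - ε) : ℝ)) atTop (𝓝 1) := by
  have hC0 : 0 < C := lt_of_lt_of_le hc hC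
  have key : ∀ d : ℝ, 0 < d → d ≤ 1 → ∀ᶠ n in atTop,
      1 ≤ (mixT (p n) ε : ℝ) / (mixT (p n) (1 - ε) : ℝ) ∧
        (mixT (p n) ε : ℝ) / (mixT (p n) (1 - ε) : ℝ) ≤ (1 + d) ^ 3 * (1 + 2 * d) := by
    intro d hd hd1
    filter_upwards [eventually_big (ε := ε) hc hC0 hε hd, eventually_ge_atTop 2] with n hb hn2
    have hnu := hp n hn2
    have hn : 0 < n := by omega
    have h1 := mixT_mem hnu hc hn (ε := 1 - ε) (by linarith)
    have h2 := mixT_mem hnu hc hn hε
    have h3 := T_ge hb hc hC hnu _ h1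
    have h4 : (0 : ℝ) < (mixT (p n) (1 - ε) : ℝ) := lt_of_lt_of_le (hb.t0_pos hC0) h3
    constructor
    · rw [le_div_iff₀ h4, one_mul]
      have : mixT (p n) (1 - ε) ≤ mixT (p n) ε := mixT_le (h2.trans (by linarith))
      exact_mod_cast this
    · obtain ⟨T', hT', htv⟩ := core hb hc hC hε (by linarith) hd hd1 hnu _ h1
      rw [div_le_iff₀ h4]
      have : (mixT (p n) ε : ℝ) ≤ T' := by exact_mod_cast mixT_le htv
      linarith
  refine tendsto_order.2 ⟨fun a ha => ?_, fun b hb => ?_⟩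
  · filter_upwards [key 1 one_pos le_rfl] with n hn
    linarith [hn.1]
  · set d := min 1 ((b - 1) / 24) with hd
    have hd0 : 0 < d := lt_min one_pos (by linarith)
    have hd1 : d ≤ 1 := min_le_left _ _
    have hdb : d ≤ (b - 1) / 24 := min_le_right _ _
    filter_upwards [key d hd0 hd1] with n hn
    refine lt_of_le_of_lt hn.2 ?_
    have h1 : d ^ 2 ≤ d := by nlinarith
    have h2 : d ^ 3 ≤ d := by nlinarith [pow_pos hd0 3, pow_pos hd0 2]
    have h3 : d ^ 4 ≤ d := by nlinarith [pow_pos hd0 3, pow_pos hd0 2]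
    nlinarith

theorem ratio_tendsto {c C : ℝ} (hc : 0 < c) (hC : c ≤ C) (p : (n : ℕ) → Fin n → Fin n → ℝ)
    (hp : ∀ n, 2 ≤ n → NU c C (p n)) {ε : ℝ} (hε : 0 < ε) (hε1 : ε < 1) :
    Tendsto (fun n => (mixT (p n) ε : ℝ) / (mixT (p n) (1 - ε) : ℝ)) atTop (𝓝 1) := by
  rcases le_or_gt ε (1 / 2) with h | h
  · exact ratio_small hc hC p hp hε h
  · have h1 := ratio_small hc hC p hp (ε := 1 - ε) (by linarith) (by linarith)
    have h2 := h1.inv₀ one_ne_zero
    rw [inv_one] at h2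
    refine h2.congr fun n => ?_
    rw [inv_div, sub_sub_cancel]

/-- the law of the walk from the density -/
lemma Ppow_ind (p : Fin n → Fin n → ℝ) (t : ℕ) (x y : G n) :
    (P p ^ t) (fun z => if z = y then 1 else 0) x =
      qt p t (y * x⁻¹) / (Fintype.card (G n) : ℝ) := by
  have h1 := Ppow_shift p t (fun z => if z = y then (1 : ℝ) else 0) x 1
  rw [one_mul] at h1
  have h2 := av_dl_mul ((P p ^ t) (fun z => if z * x = y then (1 : ℝ) else 0))
  rw [← h1, ← h2, ← Ppow_selfadj]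
  unfold av qt
  congr 1
  rw [Finset.sum_eq_single (y * x⁻¹)]
  · simp
  · intro z _ hz
    rw [if_neg, mul_zero]
    intro h
    exact hz (by rw [← h]; group)
  · intro h
    exact absurd (Finset.mem_univ _) h

end Pool.Agent.Helper353.Cut
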