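import Pool.Agent.Helper353.Cut.Entropy

/-!
The absolute spectral gap of the discrete-time walk and regularity in time.
-/

open scoped BigOperators

namespace Pool.Agent.Helper353.Cut

open Equiv

variable {n : ℕ}

lemma NU.c_le_one {c C : ℝ} {p : Fin n → Fin n → ℝ} (hp : NU c C p) (hn : 0 < n) : c ≤ 1 := by
  have hn' : (0 : ℝ) < n := by exact_mod_cast hn
  have h1 : ∑ _i : Fin n, ∑ _j : Fin n, c / (n : ℝ) ^ 2 ≤ ∑ i, ∑ j, p i j :=
    Finset.sum_le_sum fun i _ => Finset.sum_le_sum fun j _ => hp.lb i j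
  rw [hp.sum_eq] at h1
  simp only [Finset.sum_const, Finset.card_univ, Fintype.card_fin, nsmul_eq_mul] at h1
  have : (n : ℝ) * (n * (c / (n : ℝ) ^ 2)) = c := by field_simp
  linarith

/-- the constant `1 - γ` -/
noncomputable def Mc (c : ℝ) (n : ℕ) : ℝ := 1 - c / (4 * n)

lemma Mc_pos {c : ℝ} (hc1 : c ≤ 1) (hn : 0 < n) : 0 < Mc c n := by
  have hn' : (1 : ℝ) ≤ n := by exact_mod_cast hn
  unfold Mc
  have : c / (4 * n) ≤ 1 / 4 := by
    rw [div_le_div_iff₀ (by positivity) (by positivity)]
    nlinarith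
  linarith

lemma quad_upper {c C : ℝ} {p : Fin n → Fin n → ℝ} (hp : NU c C p) (hc : 0 < c) (hn : 0 < n)
    (g : V n) (hg : av g = 0) :
    av (fun x => g x * P p g x) ≤ Mc c n * av (fun x => g x ^ 2) := by
  have hn' : (0 : ℝ) < n := by exact_mod_cast hn
  have h1 := poincare hp hc hn g
  rw [Dir_eq (hp.pw hc), hg] at h1
  have h2 : - av (fun x => A p g x * g x) = av (fun x => g x ^ 2) - av (fun x => g x * P p g x) := by
    rw [← av_sub, ← neg_one_mul, ← av_smul]
    congr 1
    ext x
    rw [A_apply]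
    ring
  rw [h2] at h1
  unfold Mc
  have h3 : av (fun x => g x ^ 2) ≤ 4 * n / c * (av (fun x => g x ^ 2) -
      av (fun x => g x * P p g x)) := by linarith
  have h4 : c / (4 * n) * av (fun x => g x ^ 2) ≤ (av (fun x => g x ^ 2) -
      av (fun x => g x * P p g x)) := by
    have := mul_le_mul_of_nonneg_left h3 (show 0 ≤ c / (4 * n) by positivity)
    refine this.trans (le_of_eq ?_)
    field_simp
  linarith

lemma quad_lower {c C : ℝ} {p : Fin n → Fin n → ℝ} (hp : NU c C p) (hc : 0 < c) (hn : 0 < n)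
    (g : V n) : - (Mc c n * av (fun x => g x ^ 2)) ≤ av (fun x => g x * P p g x) := by
  have hn' : (0 : ℝ) < n := by exact_mod_cast hn
  have hpw := hp.pw hc
  -- pointwise identity
  have h1 : ∀ x, ∑ i, ∑ j, p i j * (g (swap i j * x) + g x) ^ 2 =
      P p (fun y => g y ^ 2) x + g x ^ 2 + 2 * (g x * P p g x) := by
    intro x
    have e1 : g x ^ 2 = ∑ i, ∑ j, p i j * g x ^ 2 := by
      simp_rw [← Finset.sum_mul]
      rw [hp.sum_eq, one_mul]
    have e3 : g x * P p g x = ∑ i, ∑ j, p i j * (g x * g (swap i j * x)) := by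
      rw [P_apply, Finset.mul_sum]
      refine Finset.sum_congr rfl fun i _ => ?_
      rw [Finset.mul_sum]
      exact Finset.sum_congr rfl fun j _ => by ring
    rw [e1, e3, P_apply, Finset.mul_sum, ← Finset.sum_add_distrib, ← Finset.sum_add_distrib]
    refine Finset.sum_congr rfl fun i _ => ?_
    rw [Finset.mul_sum, ← Finset.sum_add_distrib, ← Finset.sum_add_distrib]
    exact Finset.sum_congr rfl fun j _ => by ring
  have h2 : ∀ x, 4 * (c / n) * g x ^ 2 ≤ ∑ i, ∑ j, p i j * (g (swap i j * x) + g x) ^ 2 := by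
    intro x
    have h3 : ∑ i, p i i * (g (swap i i * x) + g x) ^ 2 ≤
        ∑ i, ∑ j, p i j * (g (swap i j * x) + g x) ^ 2 :=
      Finset.sum_le_sum fun i _ => Finset.single_le_sum
        (f := fun j => p i j * (g (swap i j * x) + g x) ^ 2)
        (fun j _ => mul_nonneg (hpw.nonneg i j) (sq_nonneg _)) (Finset.mem_univ i)
    refine le_trans ?_ h3
    have h4 : ∀ i, c / (n : ℝ) ^ 2 * (4 * g x ^ 2) ≤ p i i * (g (swap i i * x) + g x) ^ 2 := by
      intro i
      have e : (swap i i * x : G n) = x := by rw [swap_self]; exact one_mul x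
      rw [e]
      have : (g x + g x) ^ 2 = 4 * g x ^ 2 := by ring
      rw [this]
      exact mul_le_mul_of_nonneg_right (hp.lb i i) (by positivity)
    calc 4 * (c / n) * g x ^ 2 = ∑ _i : Fin n, c / (n : ℝ) ^ 2 * (4 * g x ^ 2) := by
          rw [Finset.sum_const, Finset.card_univ, Fintype.card_fin, nsmul_eq_mul]
          field_simp
      _ ≤ _ := Finset.sum_le_sum fun i _ => h4 i
  have h5 : av (fun x => 4 * (c / n) * g x ^ 2) ≤
      av (fun x => P p (fun y => g y ^ 2) x + g x ^ 2 + 2 * (g x * P p g x)) :=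
    av_mono fun x => by rw [← h1]; exact h2 x
  rw [av_smul, av_add, av_add, av_P hpw, av_smul] at h5
  have h6 : 0 ≤ av (fun x => g x ^ 2) := av_nonneg fun x => sq_nonneg _
  unfold Mc
  have h7 : c / (4 * n) * av (fun x => g x ^ 2) ≤ 2 * (c / n) * av (fun x => g x ^ 2) := by
    refine mul_le_mul_of_nonneg_right ?_ h6
    have : c / (4 * n) = c / n / 4 := by ring
    rw [this]
    have : 0 < c / n := by positivity
    linarith
  linarith

/-- the absolute spectral gap -/
theorem abs_gap {c C : ℝ} {p : Fin n → Fin n → ℝ} (hp : NU c C p) (hc : 0 < c) (hn : 0 < n)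
    (g : V n) (hg : av g = 0) :
    av (fun x => (P p g x) ^ 2) ≤ (Mc c n) ^ 2 * av (fun x => g x ^ 2) := by
  have hM := Mc_pos (hp.c_le_one hn) hn
  set M := Mc c n with hMdef
  have hpw := hp.pw hc
  set u : V n := fun x => (1 / M) * P p g x with hu
  have hu0 : av u = 0 := by
    rw [hu, av_smul]
    have : av (fun x => P p g x) = 0 := by
      have := av_P hpw g
      rw [hg] at this
      exact this
    rw [this, mul_zero]
  have h1 := quad_upper hp hc hn (fun x => u x + g x) (by rw [av_add, hu0, hg, add_zero])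
  have h2 := quad_lower hp hc hn (fun x => u x - g x)
  have e1 : ∀ x, P p (fun x => u x + g x) x = P p u x + P p g x := fun x => by
    have : (fun x => u x + g x) = u + g := rfl
    rw [this, map_add]; rfl
  have e2 : ∀ x, P p (fun x => u x - g x) x = P p u x - P p g x := fun x => by
    have : (fun x => u x - g x) = u - g := rfl
    rw [this, map_sub]; rfl
  simp_rw [e1] at h1
  simp_rw [e2] at h2
  have e3 : av (fun x => (u x + g x) * (P p u x + P p g x)) -
      av (fun x => (u x - g x) * (P p u x - P p g x)) =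
      2 * av (fun x => u x * P p g x) + 2 * av (fun x => g x * P p u x) := by
    rw [← av_sub, ← av_smul, ← av_smul, ← av_add]
    congr 1
    ext x
    ring
  have e4 : av (fun x => g x * P p u x) = av (fun x => u x * P p g x) := by
    rw [← P_selfadj]
    congr 1
    ext x
    ring
  have e5 : av (fun x => (u x + g x) ^ 2) + av (fun x => (u x - g x) ^ 2) =
      2 * av (fun x => u x ^ 2) + 2 * av (fun x => g x ^ 2) := by
    rw [← av_add, ← av_smul, ← av_smul, ← av_add]
    congr 1
    ext x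
    ring
  have e6 : av (fun x => u x * P p g x) = (1 / M) * av (fun x => (P p g x) ^ 2) := by
    rw [← av_smul]
    congr 1
    ext x
    rw [hu]
    ring
  have e7 : av (fun x => u x ^ 2) = (1 / M) ^ 2 * av (fun x => (P p g x) ^ 2) := by
    rw [← av_smul]
    congr 1
    ext x
    rw [hu]
    ring
  rw [e4] at e3
  have h3 : 4 * av (fun x => u x * P p g x) ≤
      M * (2 * av (fun x => u x ^ 2) + 2 * av (fun x => g x ^ 2)) := by
    rw [← e5, mul_add]
    linarith
  rw [e6, e7] at h3
  have h4 : M * (2 * ((1 / M) ^ 2 * av (fun x => (P p g x) ^ 2)) + 2 * av (fun x => g x ^ 2)) =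
      2 * (1 / M) * av (fun x => (P p g x) ^ 2) + 2 * M * av (fun x => g x ^ 2) := by
    field_simp
  rw [h4] at h3
  have h5 : (1 / M) * av (fun x => (P p g x) ^ 2) ≤ M * av (fun x => g x ^ 2) := by linarith
  rw [div_mul_eq_mul_div, one_mul, div_le_iff₀ hM] at h5
  linarith

/-- the squared norm along the walk -/
noncomputable def ee (p : Fin n → Fin n → ℝ) (g : V n) (k : ℕ) : ℝ :=
  av (fun x => ((P p ^ k) g x) ^ 2)

lemma ee_nonneg (p : Fin n → Fin n → ℝ) (g : V n) (k : ℕ) : 0 ≤ ee p g k :=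
  av_nonneg fun x => sq_nonneg _

lemma ee_le {c C : ℝ} {p : Fin n → Fin n → ℝ} (hp : NU c C p) (hc : 0 < c) (hn : 0 < n)
    (g : V n) (hg : av g = 0) (k : ℕ) : ee p g k ≤ (Mc c n) ^ (2 * k) * ee p g 0 := by
  induction k with
  | zero => simp
  | succ k ih =>
    have h1 := abs_gap hp hc hn ((P p ^ k) g) (by rw [av_Ppow (hp.pw hc), hg])
    have h2 : ee p g (k + 1) ≤ Mc c n ^ 2 * ee p g k := by
      unfold ee
      simp_rw [Ppow_succ_apply]
      exact h1
    refine h2.trans ?_
    rw [show 2 * (k + 1) = 2 + 2 * k by ring, pow_add, mul_assoc]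
    exact mul_le_mul_of_nonneg_left ih (sq_nonneg _)

lemma sq_P_le {p : Fin n → Fin n → ℝ} (hp : PW p) (g : V n) (x : G n) :
    (P p g x) ^ 2 ≤ P p (fun y => g y ^ 2) x := by
  have h1 := sq_sum_le (Finset.univ : Finset (Fin n × Fin n)) (fun ij => p ij.1 ij.2)
    (fun ij => g (swap ij.1 ij.2 * x)) (fun ij => hp.nonneg _ _) (by
      rw [← hp.sum_eq, ← Finset.univ_product_univ, Finset.sum_product])
  rw [P_apply, P_apply]
  rw [← Finset.univ_product_univ, Finset.sum_product, Finset.sum_product] at h1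
  exact h1

lemma ee_anti {p : Fin n → Fin n → ℝ} (hp : PW p) (g : V n) (k : ℕ) :
    ee p g (k + 1) ≤ ee p g k := by
  unfold ee
  simp_rw [Ppow_succ_apply]
  rw [← av_P hp (fun x => ((P p ^ k) g x) ^ 2)]
  exact av_mono fun x => sq_P_le hp _ x

lemma ee_second (p : Fin n → Fin n → ℝ) (g : V n) (k : ℕ) :
    av (fun x => ((P p ^ k) g x - (P p ^ (k + 2)) g x) ^ 2) =
      (ee p g k - ee p g (k + 1)) - (ee p g (k + 1) - ee p g (k + 2)) := by
  have h1 : av (fun x => (P p ^ k) g x * (P p ^ (k + 2)) g x) = ee p g (k + 1) := by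
    unfold ee
    rw [show k + 2 = (k + 1) + 1 by ring, Ppow_succ_apply p (k + 1), ← P_selfadj,
      ← Ppow_succ_apply]
    congr 1
    ext x
    ring
  have h2 : (fun x => ((P p ^ k) g x - (P p ^ (k + 2)) g x) ^ 2) = fun x =>
      (((P p ^ k) g x) ^ 2 - 2 * ((P p ^ k) g x * (P p ^ (k + 2)) g x)) +
        ((P p ^ (k + 2)) g x) ^ 2 := by
    ext x
    ring
  rw [h2, av_add, av_sub, av_smul, h1]
  unfold ee
  ring

lemma ee_diff_le {p : Fin n → Fin n → ℝ} (hp : PW p) (g : V n) (k : ℕ) :
    ee p g k - ee p g (k + 1) ≤ ee p g 0 / (k + 1) := by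
  have hconv : ∀ j, ee p g (j + 1) - ee p g (j + 2) ≤ ee p g j - ee p g (j + 1) := by
    intro j
    have h1 := ee_second p g j
    have h2 : 0 ≤ av (fun x => ((P p ^ j) g x - (P p ^ (j + 2)) g x) ^ 2) :=
      av_nonneg fun x => sq_nonneg _
    linarith
  have hanti : Antitone fun j => ee p g j - ee p g (j + 1) := antitone_nat_of_succ_le hconv
  have h1 : ∑ j ∈ Finset.range (k + 1), (ee p g k - ee p g (k + 1)) ≤
      ∑ j ∈ Finset.range (k + 1), (ee p g j - ee p g (j + 1)) :=
    Finset.sum_le_sum fun j hj => hanti (by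
      have := Finset.mem_range.1 hj
      omega)
  rw [Finset.sum_const, Finset.card_range, nsmul_eq_mul, Finset.sum_range_sub'] at h1
  rw [le_div_iff₀ (by positivity)]
  have := ee_nonneg p g (k + 1)
  push_cast at h1
  nlinarith

lemma av_abs_le (h : V n) : av (fun x => |h x|) ≤ Real.sqrt (av (fun x => h x ^ 2)) := by
  apply Real.le_sqrt_of_sq_le
  have h1 := sq_sum_le (Finset.univ : Finset (G n)) (fun _ => 1 / (Fintype.card (G n) : ℝ))
    (fun x => |h x|) (fun _ => by positivity) (by
      rw [Finset.sum_const, Finset.card_univ, nsmul_eq_mul]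
      have := card_pos (n := n)
      field_simp)
  unfold av
  simp only [sq_abs] at h1
  rw [← Finset.mul_sum, ← Finset.mul_sum] at h1
  calc ((∑ x, |h x|) / (Fintype.card (G n) : ℝ)) ^ 2 =
      (1 / (Fintype.card (G n) : ℝ) * ∑ x, |h x|) ^ 2 := by ring
    _ ≤ _ := h1
    _ = _ := by ring

/-- maximal function over a time window -/
noncomputable def Mx (p : Fin n → Fin n → ℝ) (g : V n) (k r : ℕ) : V n := fun x =>
  |(P p ^ k) g x| + |(P p ^ (k + 1)) g x| +
    ∑ j ∈ Finset.range r, |(P p ^ (k + j)) g x - (P p ^ (k + j + 2)) g x|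

lemma le_Mx (p : Fin n → Fin n → ℝ) (g : V n) (k r : ℕ) (x : G n) :
    ∀ j ≤ r + 1, |(P p ^ (k + j)) g x| ≤ Mx p g k r x := by
  have key : ∀ j, |(P p ^ (k + j)) g x| ≤ |(P p ^ k) g x| + |(P p ^ (k + 1)) g x| +
      ∑ i ∈ Finset.range (j - 1), |(P p ^ (k + i)) g x - (P p ^ (k + i + 2)) g x| := by
    intro j
    induction j using Nat.strong_induction_on with
    | _ j ih =>
      rcases j with _ | _ | j
      · simp only [add_zero, zero_le, Nat.sub_eq_zero_of_le, Finset.range_zero,
          Finset.sum_empty]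
        have := abs_nonneg ((P p ^ (k + 1)) g x)
        linarith
      · simp only [zero_add, Nat.sub_self, Finset.range_zero, Finset.sum_empty]
        have := abs_nonneg ((P p ^ k) g x)
        linarith
      · have h1 := ih j (by omega)
        have h2 : |(P p ^ (k + (j + 1 + 1))) g x| ≤ |(P p ^ (k + j)) g x| +
            |(P p ^ (k + j)) g x - (P p ^ (k + j + 2)) g x| := by
          rw [show k + (j + 1 + 1) = k + j + 2 by ring]
          have := abs_sub_abs_le_abs_sub ((P p ^ (k + j + 2)) g x) ((P p ^ (k + j)) g x)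
          rw [abs_sub_comm] at this
          linarith
        have h3 : j + 1 + 1 - 1 = j + 1 := by omega
        rw [h3, Finset.sum_range_succ]
        have h4 : ∑ i ∈ Finset.range (j - 1),
            |(P p ^ (k + i)) g x - (P p ^ (k + i + 2)) g x| ≤
            ∑ i ∈ Finset.range j, |(P p ^ (k + i)) g x - (P p ^ (k + i + 2)) g x| :=
          Finset.sum_le_sum_of_subset_of_nonneg
            (Finset.range_subset_range.2 (by omega)) (fun _ _ _ => abs_nonneg _)
        linarith
  intro j hj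
  refine (key j).trans ?_
  unfold Mx
  have : ∑ i ∈ Finset.range (j - 1), |(P p ^ (k + i)) g x - (P p ^ (k + i + 2)) g x| ≤
      ∑ i ∈ Finset.range r, |(P p ^ (k + i)) g x - (P p ^ (k + i + 2)) g x| :=
    Finset.sum_le_sum_of_subset_of_nonneg
      (Finset.range_subset_range.2 (by omega)) (fun _ _ _ => abs_nonneg _)
  linarith

lemma av_Mx_le {c C : ℝ} {p : Fin n → Fin n → ℝ} (hp : NU c C p) (hc : 0 < c) (hn : 0 < n)
    (g : V n) (hg : av g = 0) (hg2 : ∀ x, |g x| ≤ 2) (k r : ℕ) :
    av (Mx p g k r) ≤ 4 * (Mc c n) ^ k + 2 * Real.sqrt (r / (k + 1)) := by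
  have hpw := hp.pw hc
  have hM := Mc_pos (hp.c_le_one hn) hn
  have hM1 : Mc c n ≤ 1 := by
    unfold Mc
    have hn' : (0 : ℝ) < n := by exact_mod_cast hn
    have : 0 < c / (4 * n) := by positivity
    linarith
  have he0 : ee p g 0 ≤ 4 := by
    have : ee p g 0 ≤ av (fun _ : G n => (4 : ℝ)) := by
      unfold ee
      refine av_mono fun x => ?_
      have := hg2 x
      simp only [pow_zero]
      change g x ^ 2 ≤ 4
      rw [← sq_abs]
      nlinarith [abs_nonneg (g x)]
    rwa [av_const] at this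
  have hek : ∀ k, Real.sqrt (ee p g k) ≤ 2 * (Mc c n) ^ k := by
    intro k
    apply Real.sqrt_le_iff.2
    refine ⟨by positivity, (ee_le hp hc hn g hg k).trans ?_⟩
    rw [mul_pow, ← pow_mul, mul_comm k 2]
    nlinarith [pow_pos hM (2 * k)]
  unfold Mx
  rw [av_add, av_add, av_sum]
  have h1 : av (fun x => |(P p ^ k) g x|) ≤ 2 * (Mc c n) ^ k :=
    (av_abs_le _).trans (hek k)
  have h2 : av (fun x => |(P p ^ (k + 1)) g x|) ≤ 2 * (Mc c n) ^ k := by
    refine ((av_abs_le _).trans (hek (k + 1))).trans ?_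
    have := pow_le_pow_of_le_one hM.le hM1 (Nat.le_add_right k 1)
    linarith
  have h3 : ∑ j ∈ Finset.range r,
      av (fun x => |(P p ^ (k + j)) g x - (P p ^ (k + j + 2)) g x|) ≤
      2 * Real.sqrt (r / (k + 1)) := by
    have h4 : ∑ j ∈ Finset.range r,
        av (fun x => |(P p ^ (k + j)) g x - (P p ^ (k + j + 2)) g x|) ≤
        ∑ j ∈ Finset.range r, Real.sqrt (av (fun x =>
          ((P p ^ (k + j)) g x - (P p ^ (k + j + 2)) g x) ^ 2)) :=
      Finset.sum_le_sum fun j _ => av_abs_le _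
    refine h4.trans ?_
    have h5 : (∑ j ∈ Finset.range r, Real.sqrt (av (fun x =>
          ((P p ^ (k + j)) g x - (P p ^ (k + j + 2)) g x) ^ 2))) ^ 2 ≤
        r * ∑ j ∈ Finset.range r, av (fun x =>
          ((P p ^ (k + j)) g x - (P p ^ (k + j + 2)) g x) ^ 2) := by
      have h6 := sq_sum_le_card_mul_sum_sq (s := Finset.range r)
        (f := fun j => Real.sqrt (av (fun x =>
          ((P p ^ (k + j)) g x - (P p ^ (k + j + 2)) g x) ^ 2)))
      rw [Finset.card_range] at h6
      refine h6.trans (le_of_eq ?_)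
      congr 1
      refine Finset.sum_congr rfl fun j _ => ?_
      exact Real.sq_sqrt (av_nonneg fun x => sq_nonneg _)
    have h7 : ∑ j ∈ Finset.range r, av (fun x =>
          ((P p ^ (k + j)) g x - (P p ^ (k + j + 2)) g x) ^ 2) ≤ 4 / (k + 1) := by
      simp_rw [ee_second]
      have h8 := Finset.sum_range_sub' (fun j => ee p g (k + j) - ee p g (k + j + 1)) r
      have h9 : ∑ j ∈ Finset.range r, ((ee p g (k + j) - ee p g (k + j + 1)) -
          (ee p g (k + j + 1) - ee p g (k + j + 2))) =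
          (ee p g k - ee p g (k + 1)) - (ee p g (k + r) - ee p g (k + r + 1)) := h8
      rw [h9]
      have h10 := ee_diff_le hpw g k
      have h11 := ee_anti hpw g (k + r)
      have h12 : ee p g 0 / ((k : ℝ) + 1) ≤ 4 / (k + 1) := by gcongr
      linarith
    calc ∑ j ∈ Finset.range r, Real.sqrt (av (fun x =>
          ((P p ^ (k + j)) g x - (P p ^ (k + j + 2)) g x) ^ 2))
        ≤ Real.sqrt (r * (4 / (k + 1))) := by
          apply Real.le_sqrt_of_sq_le
          refine h5.trans ?_
          gcongr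
      _ = 2 * Real.sqrt (r / (k + 1)) := by
          rw [show (r : ℝ) * (4 / (k + 1)) = 2 ^ 2 * (r / (k + 1)) by ring,
            Real.sqrt_mul (by positivity), Real.sqrt_sq (by norm_num)]
  linarith

end Pool.Agent.Helper353.Cut
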