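import Pool.Agent.Helper353.Cut.Basic

/-!
The conjugation invariant carré du champ, its sub-commutation with the semigroup and the local
Poincaré inequality.
-/

open scoped BigOperators

namespace Pool.Agent.Helper353.Cut

open Equiv

variable {n : ℕ}

/-- the uniform carré du champ -/
noncomputable def Gam (g : V n) (x : G n) : ℝ :=
  (∑ a, ∑ b, (g (swap a b * x) - g x) ^ 2) / (n : ℝ) ^ 2

/-- the law of the walk at time `t` -/
noncomputable def kt (p : Fin n → Fin n → ℝ) (t : ℝ) (σ : G n) : ℝ := K p t (Pi.single σ 1) 1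

lemma K_apply_one (p : Fin n → Fin n → ℝ) (t : ℝ) (f : V n) :
    K p t f 1 = ∑ σ, kt p t σ * f σ := by
  have h1 : f = ∑ σ, f σ • (Pi.single σ 1 : V n) := by
    ext x
    rw [Finset.sum_apply]
    simp [Pi.single_apply]
  conv_lhs => rw [h1]
  rw [map_sum, Finset.sum_apply]
  refine Finset.sum_congr rfl fun σ _ => ?_
  rw [map_smul, Pi.smul_apply, smul_eq_mul, mul_comm]
  rfl

lemma K_apply_sum (p : Fin n → Fin n → ℝ) (t : ℝ) (f : V n) (x : G n) :
    K p t f x = ∑ σ, kt p t σ * f (σ * x) := by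
  have h1 := K_shift p t f x 1
  rw [one_mul] at h1
  rw [← h1, K_apply_one]

lemma kt_nonneg {p : Fin n → Fin n → ℝ} (h : PW p) {t : ℝ} (ht : 0 ≤ t) (σ : G n) :
    0 ≤ kt p t σ := by
  refine K_nonneg h ht (fun x => ?_) 1
  rw [Pi.single_apply]
  split_ifs <;> norm_num

lemma sum_kt {p : Fin n → Fin n → ℝ} (h : PW p) (t : ℝ) : ∑ σ, kt p t σ = 1 := by
  have h1 := K_apply_one p t (fun _ => 1)
  rw [K_const h] at h1
  simpa using h1.symm

lemma sq_sum_le {ι : Type*} (s : Finset ι) (k d : ι → ℝ) (hk : ∀ i, 0 ≤ k i)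
    (hs : ∑ i ∈ s, k i = 1) : (∑ i ∈ s, k i * d i) ^ 2 ≤ ∑ i ∈ s, k i * d i ^ 2 := by
  set m := ∑ i ∈ s, k i * d i with hm
  have h1 : 0 ≤ ∑ i ∈ s, k i * (d i - m) ^ 2 :=
    Finset.sum_nonneg fun i _ => mul_nonneg (hk i) (sq_nonneg _)
  have h3 : ∀ i, k i * (d i - m) ^ 2 = k i * d i ^ 2 - (2 * m) * (k i * d i) + m ^ 2 * k i := by
    intro i
    ring
  have h2 : ∑ i ∈ s, k i * (d i - m) ^ 2 = ∑ i ∈ s, k i * d i ^ 2 - 2 * m * m + m ^ 2 * 1 := by
    rw [Finset.sum_congr rfl (fun i _ => h3 i), Finset.sum_add_distrib, Finset.sum_sub_distrib,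
      ← Finset.mul_sum, ← Finset.mul_sum, hs, ← hm]
  rw [h2] at h1
  nlinarith

/-- sub-commutation -/
lemma Gam_K_le {p : Fin n → Fin n → ℝ} (h : PW p) {t : ℝ} (ht : 0 ≤ t) (g : V n) (x : G n) :
    Gam (K p t g) x ≤ K p t (Gam g) x := by
  rw [K_apply_sum p t (Gam g)]
  unfold Gam
  have h1 : ∀ a b, (K p t g (swap a b * x) - K p t g x) ^ 2 ≤
      ∑ σ, kt p t σ * (g (swap (σ a) (σ b) * (σ * x)) - g (σ * x)) ^ 2 := by
    intro a b
    rw [K_apply_sum p t g (swap a b * x), K_apply_sum p t g x, ← Finset.sum_sub_distrib]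
    have h2 : ∀ σ, kt p t σ * g (σ * (swap a b * x)) - kt p t σ * g (σ * x) =
        kt p t σ * (g (swap (σ a) (σ b) * (σ * x)) - g (σ * x)) := by
      intro σ
      rw [← mul_assoc σ, Equiv.mul_swap_eq_swap_mul, mul_assoc]
      ring
    simp_rw [h2]
    exact sq_sum_le _ _ _ (kt_nonneg h ht) (sum_kt h t)
  calc (∑ a, ∑ b, (K p t g (swap a b * x) - K p t g x) ^ 2) / (n : ℝ) ^ 2
      ≤ (∑ a, ∑ b, ∑ σ, kt p t σ * (g (swap (σ a) (σ b) * (σ * x)) - g (σ * x)) ^ 2) /
          (n : ℝ) ^ 2 :=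
        div_le_div_of_nonneg_right
          (Finset.sum_le_sum fun a _ => Finset.sum_le_sum fun b _ => h1 a b) (by positivity)
    _ = ∑ σ, kt p t σ * ((∑ a, ∑ b, (g (swap a b * (σ * x)) - g (σ * x)) ^ 2) /
          (n : ℝ) ^ 2) := by
        have h3 : ∑ a, ∑ b, ∑ σ, kt p t σ * (g (swap (σ a) (σ b) * (σ * x)) - g (σ * x)) ^ 2 =
            ∑ σ, kt p t σ * ∑ a, ∑ b, (g (swap a b * (σ * x)) - g (σ * x)) ^ 2 := by
          have h4 : ∀ a, ∑ b, ∑ σ, kt p t σ *
              (g (swap (σ a) (σ b) * (σ * x)) - g (σ * x)) ^ 2 =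
              ∑ σ, kt p t σ * ∑ b, (g (swap (σ a) b * (σ * x)) - g (σ * x)) ^ 2 := by
            intro a
            rw [Finset.sum_comm]
            refine Finset.sum_congr rfl fun σ _ => ?_
            rw [← Finset.mul_sum]
            congr 1
            exact Equiv.sum_comp σ (fun b => (g (swap (σ a) b * (σ * x)) - g (σ * x)) ^ 2)
          simp_rw [h4]
          rw [Finset.sum_comm]
          refine Finset.sum_congr rfl fun σ _ => ?_
          rw [← Finset.mul_sum]
          congr 1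
          exact Equiv.sum_comp σ
            (fun a => ∑ b, (g (swap a b * (σ * x)) - g (σ * x)) ^ 2)
        rw [h3, Finset.sum_div]
        refine Finset.sum_congr rfl fun σ _ => ?_
        rw [mul_div_assoc]

/-- the carré du champ of the walk -/
lemma A_sq (p : Fin n → Fin n → ℝ) (hp : PW p) (u : V n) (x : G n) :
    A p (fun y => u y ^ 2) x - 2 * (u x * A p u x) =
      ∑ i, ∑ j, p i j * (u (swap i j * x) - u x) ^ 2 := by
  rw [A_apply, A_apply, P_apply, P_apply]
  have e1 : u x ^ 2 = ∑ i, ∑ j, p i j * u x ^ 2 := by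
    simp_rw [← Finset.sum_mul]
    rw [hp.sum_eq, one_mul]
  have e2 : u x * ∑ i, ∑ j, p i j * u (swap i j * x) =
      ∑ i, ∑ j, p i j * (u x * u (swap i j * x)) := by
    rw [Finset.mul_sum]
    refine Finset.sum_congr rfl fun i _ => ?_
    rw [Finset.mul_sum]
    exact Finset.sum_congr rfl fun j _ => by ring
  calc (∑ i, ∑ j, p i j * u (swap i j * x) ^ 2) - u x ^ 2 -
        2 * (u x * ((∑ i, ∑ j, p i j * u (swap i j * x)) - u x))
      = (∑ i, ∑ j, p i j * u (swap i j * x) ^ 2) + u x ^ 2 -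
        2 * (u x * (∑ i, ∑ j, p i j * u (swap i j * x))) := by ring
    _ = (∑ i, ∑ j, p i j * u (swap i j * x) ^ 2) + (∑ i, ∑ j, p i j * u x ^ 2) -
        2 * ∑ i, ∑ j, p i j * (u x * u (swap i j * x)) := by rw [e2, ← e1]
    _ = _ := by
        rw [Finset.mul_sum, ← Finset.sum_add_distrib, ← Finset.sum_sub_distrib]
        refine Finset.sum_congr rfl fun i _ => ?_
        rw [Finset.mul_sum, ← Finset.sum_add_distrib, ← Finset.sum_sub_distrib]
        exact Finset.sum_congr rfl fun j _ => by ring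

lemma NU.carre_le {c C : ℝ} {p : Fin n → Fin n → ℝ} (hp : NU c C p) (u : V n) (x : G n) :
    ∑ i, ∑ j, p i j * (u (swap i j * x) - u x) ^ 2 ≤ C * Gam u x := by
  unfold Gam
  rw [← mul_div_assoc, mul_div_right_comm, Finset.mul_sum]
  refine Finset.sum_le_sum fun i _ => ?_
  rw [Finset.mul_sum]
  exact Finset.sum_le_sum fun j _ => mul_le_mul_of_nonneg_right (hp.ub i j) (sq_nonneg _)

/-- the local Poincaré inequality -/
theorem local_poincare {c C : ℝ} {p : Fin n → Fin n → ℝ} (hp : NU c C p) (hc : 0 < c)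
    (g : V n) {t : ℝ} (ht : 0 ≤ t) (x : G n) :
    K p t (fun y => g y ^ 2) x - (K p t g x) ^ 2 ≤ C * t * K p t (Gam g) x := by
  have hpw := hp.pw hc
  set F : ℝ → ℝ := fun s => K p s (fun y => (K p (t - s) g y) ^ 2) x with hF
  have hu : ∀ s, HasDerivAt (fun s => K p (t - s) g) (-(A p (K p (t - s) g))) s := by
    intro s
    have h1 := K_hasDerivAt_apply p g (t - s)
    have h2 : HasDerivAt (fun s : ℝ => t - s) (-1) s := by
      simpa using (hasDerivAt_id s).const_sub t
    have h3 := h1.scomp s h2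
    rw [neg_one_smul] at h3
    exact h3
  have hv : ∀ s, HasDerivAt (fun s => (fun y => (K p (t - s) g y) ^ 2 : V n))
      (fun y => -2 * (K p (t - s) g y * A p (K p (t - s) g) y)) s := by
    intro s
    rw [hasDerivAt_pi]
    intro y
    have h1 := (hasDerivAt_pi.1 (hu s)) y
    have h2 := h1.pow 2
    refine h2.congr_deriv ?_
    rw [Pi.neg_apply]
    norm_num
    ring
  have hFd : ∀ s, HasDerivAt F (K p s (fun y => A p (fun z => (K p (t - s) g z) ^ 2) y -
      2 * (K p (t - s) g y * A p (K p (t - s) g) y)) x) s := by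
    intro s
    have h1 := (K_hasDerivAt p s).clm_apply (hv s)
    have h2 := (hasDerivAt_pi.1 h1) x
    refine h2.congr_deriv ?_
    rw [Pi.add_apply]
    have h3 : (A p * K p s) (fun y => (K p (t - s) g y) ^ 2) =
        K p s (A p (fun y => (K p (t - s) g y) ^ 2)) := A_K p _ s
    rw [h3, ← Pi.add_apply, ← map_add]
    refine congrFun (congrArg (K p s) ?_) x
    ext y
    rw [Pi.add_apply]
    ring
  have hbound : ∀ s, 0 ≤ s → s ≤ t →
      K p s (fun y => A p (fun z => (K p (t - s) g z) ^ 2) y -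
      2 * (K p (t - s) g y * A p (K p (t - s) g) y)) x ≤ C * K p t (Gam g) x := by
    intro s hs hst
    have h1 : ∀ y, A p (fun z => (K p (t - s) g z) ^ 2) y -
        2 * (K p (t - s) g y * A p (K p (t - s) g) y) ≤ C * K p (t - s) (Gam g) y := by
      intro y
      rw [A_sq p hpw]
      refine (hp.carre_le _ y).trans ?_
      have hC : 0 ≤ C := by
        rcases Nat.eq_zero_or_pos n with rfl | hn
        · have := hp.sum_eq
          simp at this
        · have h1 := (hp.lb ⟨0, hn⟩ ⟨0, hn⟩).trans (hp.ub ⟨0, hn⟩ ⟨0, hn⟩)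
          have hn' : (0 : ℝ) < (n : ℝ) ^ 2 := by positivity
          rw [div_le_div_iff_of_pos_right hn'] at h1
          linarith
      exact mul_le_mul_of_nonneg_left (Gam_K_le hpw (by linarith) g y) hC
    refine (K_mono hpw hs h1 x).trans (le_of_eq ?_)
    have h2 : (fun y => C * K p (t - s) (Gam g) y) = C • K p (t - s) (Gam g) := rfl
    rw [h2, map_smul, ← K_add_apply, Pi.smul_apply, smul_eq_mul, add_sub_cancel]
  have hmv := (convex_Icc (0 : ℝ) t).image_sub_le_mul_sub_of_deriv_le (f := F)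
    (C := C * K p t (Gam g) x)
    (fun s _ => (hFd s).continuousAt.continuousWithinAt)
    (fun s _ => (hFd s).differentiableAt.differentiableWithinAt)
    (fun s hs => by
      rw [interior_Icc] at hs
      rw [(hFd s).deriv]
      exact hbound s hs.1.le hs.2.le) 0 (Set.left_mem_Icc.2 ht) t (Set.right_mem_Icc.2 ht) ht
  have e1 : F t = K p t (fun y => g y ^ 2) x := by
    simp only [hF, sub_self, K_zero]
    rfl
  have e2 : F 0 = (K p t g x) ^ 2 := by
    simp only [hF, sub_zero, K_zero]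
    rfl
  rw [e1, e2, sub_zero] at hmv
  linarith

end Pool.Agent.Helper353.Cut
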