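import Pool.Agent.Helper353.Cut.Gap

/-!
Comparison of the discrete-time and the continuous-time walks.
-/

open scoped BigOperators

namespace Pool.Agent.Helper353.Cut

open Equiv

variable {n : ℕ}

lemma pw_succ (s : ℝ) (m : ℕ) : ((m : ℝ) + 1) * pw s (m + 1) = s * pw s m := by
  unfold pw
  rw [Nat.factorial_succ, pow_succ]
  push_cast
  have : (0 : ℝ) < (m : ℝ) + 1 := by positivity
  field_simp

lemma pw_first (s : ℝ) : HasSum (fun m : ℕ => (m : ℝ) * pw s m) s := by
  have h1 : HasSum (fun m : ℕ => ((m + 1 : ℕ) : ℝ) * pw s (m + 1)) s := by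
    have h2 := (pw_hasSum s).mul_left s
    rw [mul_one] at h2
    have e : (fun m : ℕ => ((m + 1 : ℕ) : ℝ) * pw s (m + 1)) = fun m => s * pw s m := by
      funext m
      rw [← pw_succ]
      push_cast
      ring
    rw [e]
    exact h2
  have h3 := (hasSum_nat_add_iff (f := fun m : ℕ => (m : ℝ) * pw s m) 1).1 h1
  simpa using h3

lemma pw_second (s : ℝ) : HasSum (fun m : ℕ => (m : ℝ) * ((m : ℝ) - 1) * pw s m) (s ^ 2) := by
  have h1 : HasSum (fun m : ℕ => ((m + 1 : ℕ) : ℝ) * (((m + 1 : ℕ) : ℝ) - 1) * pw s (m + 1))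
      (s ^ 2) := by
    have h2 := (pw_first s).mul_left s
    have e : (fun m : ℕ => ((m + 1 : ℕ) : ℝ) * (((m + 1 : ℕ) : ℝ) - 1) * pw s (m + 1)) =
        fun m : ℕ => s * ((m : ℝ) * pw s m) := by
      funext m
      have := pw_succ s m
      push_cast
      calc ((m : ℝ) + 1) * ((m : ℝ) + 1 - 1) * pw s (m + 1) =
          (m : ℝ) * (((m : ℝ) + 1) * pw s (m + 1)) := by ring
        _ = _ := by rw [this]; ring
    rw [e, pow_two]
    exact h2
  have h3 := (hasSum_nat_add_iff (f := fun m : ℕ => (m : ℝ) * ((m : ℝ) - 1) * pw s m) 1).1 h1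
  simpa using h3

lemma pw_var (s : ℝ) : HasSum (fun m : ℕ => pw s m * ((m : ℝ) - s) ^ 2) s := by
  have h1 := ((pw_second s).add ((pw_first s).mul_left (1 - 2 * s))).add
    ((pw_hasSum s).mul_left (s ^ 2))
  have e : (fun m : ℕ => pw s m * ((m : ℝ) - s) ^ 2) = fun m : ℕ =>
      (m : ℝ) * ((m : ℝ) - 1) * pw s m + (1 - 2 * s) * ((m : ℝ) * pw s m) + s ^ 2 * pw s m := by
    funext m
    ring
  rw [e]
  convert h1 using 1
  ring

/-- Chebyshev inequality for the Poisson distribution -/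
lemma pw_cheb {s : ℝ} (hs : 0 ≤ s) (I : Finset ℕ) {W : ℝ} (hW : 0 < W)
    (hI : ∀ m : ℕ, m ∉ I → W ≤ |(m : ℝ) - s|) : 1 - ∑ m ∈ I, pw s m ≤ s / W ^ 2 := by
  have h1 : HasSum (fun m : ℕ => if m ∈ I then pw s m else 0) (∑ m ∈ I, pw s m) := by
    have h2 : HasSum (fun m : ℕ => if m ∈ I then pw s m else 0)
        (∑ m ∈ I, if m ∈ I then pw s m else 0) :=
      hasSum_sum_of_ne_finset_zero (fun m hm => if_neg hm)
    have e : ∑ m ∈ I, (if m ∈ I then pw s m else 0) = ∑ m ∈ I, pw s m :=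
      Finset.sum_congr rfl fun m hm => if_pos hm
    rwa [e] at h2
  have h3 := (pw_hasSum s).sub h1
  have h4 := (pw_var s).div_const (W ^ 2)
  refine hasSum_le (fun m => ?_) h3 h4
  have hp := pw_nonneg hs m
  by_cases hm : m ∈ I
  · rw [if_pos hm, sub_self]
    positivity
  · rw [if_neg hm, sub_zero, le_div_iff₀ (by positivity)]
    have h5 := hI m hm
    have h6 : W ^ 2 ≤ ((m : ℝ) - s) ^ 2 := by
      rw [← sq_abs ((m : ℝ) - s)]
      exact pow_le_pow_left₀ hW.le h5 2
    exact mul_le_mul_of_nonneg_left h6 hp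

/-- the density of the discrete-time walk -/
noncomputable def qt (p : Fin n → Fin n → ℝ) (T : ℕ) : V n := (P p ^ T) dl

lemma qt_nonneg {p : Fin n → Fin n → ℝ} (h : PW p) (T : ℕ) (x : G n) : 0 ≤ qt p T x :=
  Ppow_nonneg h T dl_nonneg x

lemma av_qt {p : Fin n → Fin n → ℝ} (h : PW p) (T : ℕ) : av (qt p T) = 1 := by
  unfold qt
  rw [av_Ppow h, av_dl]

lemma tv_nonneg (f : V n) : 0 ≤ tv f := by
  unfold tv
  have : 0 ≤ av (fun x => |f x - 1|) := av_nonneg fun x => abs_nonneg _
  linarith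

lemma tv_le_one {f : V n} (hf : ∀ x, 0 ≤ f x) (h1 : av f = 1) : tv f ≤ 1 := by
  unfold tv
  have h2 : av (fun x => |f x - 1|) ≤ av (fun x => f x + 1) := by
    refine av_mono fun x => ?_
    have := hf x
    rw [abs_le]
    constructor <;> linarith
  rw [av_add, h1, av_const] at h2
  linarith

lemma tv_P_le {p : Fin n → Fin n → ℝ} (h : PW p) (f : V n) : tv (P p f) ≤ tv f := by
  unfold tv
  have h1 : av (fun x => |P p f x - 1|) ≤ av (P p (fun x => |f x - 1|)) := by
    refine av_mono fun x => ?_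
    have h2 := abs_P_le h (fun y => f y - 1) x
    have h3 : P p (fun y => f y - 1) x = P p f x - 1 := by
      have : (fun y => f y - 1) = f - (fun _ => 1) := rfl
      rw [this, map_sub, Pi.sub_apply, P_const h]
    rwa [h3] at h2
  rw [av_P h] at h1
  linarith

lemma tv_qt_anti {p : Fin n → Fin n → ℝ} (h : PW p) : Antitone fun T => tv (qt p T) := by
  refine antitone_nat_of_succ_le fun T => ?_
  unfold qt
  rw [Ppow_succ_apply]
  exact tv_P_le h _

lemma tv_K_le {p : Fin n → Fin n → ℝ} (h : PW p) {s : ℝ} (hs : 0 ≤ s) (f : V n) :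
    tv (K p s f) ≤ tv f := by
  unfold tv
  have h1 : av (fun x => |K p s f x - 1|) ≤ av (K p s (fun x => |f x - 1|)) := by
    refine av_mono fun x => ?_
    have h2 := abs_K_le h hs (fun y => f y - 1) x
    have h3 : K p s (fun y => f y - 1) x = K p s f x - 1 := by
      have : (fun y => f y - 1) = f - (fun _ => 1) := rfl
      rw [this, map_sub, Pi.sub_apply, K_const h]
    rwa [h3] at h2
  rw [av_K h] at h1
  linarith

lemma tv_ft_anti {p : Fin n → Fin n → ℝ} (h : PW p) {s t : ℝ} (hst : s ≤ t) :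
    tv (ft p t) ≤ tv (ft p s) := by
  have : ft p t = K p (t - s) (ft p s) := by
    unfold ft
    rw [← K_add_apply, sub_add_cancel]
  rw [this]
  exact tv_K_le h (by linarith) _

/-- the sign of a function -/
noncomputable def sg (f : V n) : V n := fun x => if 0 ≤ f x then 1 else -1

lemma mul_sg (f : V n) (x : G n) : f x * sg f x = |f x| := by
  unfold sg
  split_ifs with h
  · rw [mul_one, abs_of_nonneg h]
  · rw [abs_of_neg (not_le.1 h)]
    ring

lemma abs_sg (f : V n) (x : G n) : |sg f x| = 1 := by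
  unfold sg
  split_ifs <;> simp

/-- from discrete to continuous time -/
theorem tv_ft_le {p : Fin n → Fin n → ℝ} (h : PW p) {s : ℝ} (hs : 0 ≤ s) (T : ℕ)
    (hT : (T : ℝ) < s) : tv (ft p s) ≤ tv (qt p T) + s / (s - T) ^ 2 := by
  set σ := sg (fun x => ft p s x - 1) with hσ
  have h1 : tv (ft p s) = 1 / 2 * av (fun x => (ft p s x - 1) * σ x) := by
    unfold tv
    congr 2
    ext x
    exact (mul_sg (fun x => ft p s x - 1) x).symm
  have h2 : HasSum (fun m : ℕ => av (fun x => pw s m * (qt p m x - 1) * σ x))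
      (av (fun x => (ft p s x - 1) * σ x)) := by
    refine hasSum_av (F := fun m x => pw s m * (qt p m x - 1) * σ x) fun x => ?_
    have h3 := ((K_hasSum p s dl x).sub (pw_hasSum s)).mul_right (σ x)
    have e : (fun m : ℕ => pw s m * (qt p m x - 1) * σ x) = fun m : ℕ =>
        (pw s m * ((P p) ^ m) dl x - pw s m) * σ x := by
      funext m
      unfold qt
      ring
    rw [e]
    exact h3
  have h4 := h2.mul_left (1 / 2)
  rw [← h1] at h4
  have h5 : HasSum (fun m : ℕ => pw s m * (tv (qt p T)) + pw s m * ((m : ℝ) - s) ^ 2 /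
      (s - T) ^ 2) (1 * tv (qt p T) + s / (s - T) ^ 2) :=
    ((pw_hasSum s).mul_right _).add ((pw_var s).div_const _)
  rw [one_mul] at h5
  refine hasSum_le (fun m => ?_) h4 h5
  have hp := pw_nonneg hs m
  have h6 : 1 / 2 * av (fun x => pw s m * (qt p m x - 1) * σ x) ≤ pw s m * tv (qt p m) := by
    have e1 : av (fun x => pw s m * (qt p m x - 1) * σ x) =
        pw s m * av (fun x => (qt p m x - 1) * σ x) := by
      rw [← av_smul]
      congr 1
      ext x
      ring
    have e2 : av (fun x => (qt p m x - 1) * σ x) ≤ av (fun x => |qt p m x - 1|) := by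
      refine av_mono fun x => ?_
      refine (le_abs_self _).trans ?_
      rw [abs_mul, abs_sg, mul_one]
    rw [e1]
    unfold tv
    nlinarith
  refine h6.trans ?_
  rw [mul_div_assoc, ← mul_add]
  refine mul_le_mul_of_nonneg_left ?_ hp
  have hsT : 0 < s - T := by linarith
  rcases le_or_gt T m with hm | hm
  · have h7 := tv_qt_anti h hm
    have : 0 ≤ ((m : ℝ) - s) ^ 2 / (s - T) ^ 2 := by positivity
    simp only at h7
    linarith
  · have h7 := tv_le_one (qt_nonneg h m) (av_qt h m)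
    have h8 : 1 ≤ ((m : ℝ) - s) ^ 2 / (s - T) ^ 2 := by
      rw [le_div_iff₀ (by positivity), one_mul]
      have : (m : ℝ) < T := by exact_mod_cast hm
      nlinarith
    have := tv_nonneg (qt p T)
    linarith

/-- from continuous to discrete time -/
theorem tv_qt_le {c C : ℝ} {p : Fin n → Fin n → ℝ} (hp : NU c C p) (hc : 0 < c) (hn : 0 < n)
    {s : ℝ} (hs : 0 ≤ s) (m₀ m₁ k : ℕ) (hm : m₀ ≤ m₁) :
    tv (qt p (m₁ + k)) ≤ 2 * tv (ft p s) +
      1 / 2 * (4 * (Mc c n) ^ k + 2 * Real.sqrt (((m₁ - m₀ : ℕ) : ℝ) / (k + 1))) +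
      (1 - ∑ m ∈ Finset.Icc m₀ m₁, pw s m) := by
  have h := hp.pw hc
  set T := m₁ + k with hTdef
  set r := m₁ - m₀ with hrdef
  set σ := sg (fun x => qt p T x - 1) with hσ
  set g : V n := fun x => σ x - av σ with hg
  have hσ1 : ∀ x, |σ x| = 1 := fun x => abs_sg _ x
  have hσa : |av σ| ≤ 1 := by
    refine (abs_av_le σ).trans ?_
    simp_rw [hσ1]
    rw [av_const]
  have hg0 : av g = 0 := by
    rw [hg, av_sub, av_const, sub_self]
  have hg2 : ∀ x, |g x| ≤ 2 := by
    intro x
    rw [hg]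
    have h1 := abs_sub (σ x) (av σ)
    have h2 := hσ1 x
    simp only
    linarith
  have h1 : 2 * tv (qt p T) = (P p ^ T) g 1 := by
    have e1 : 2 * tv (qt p T) = av (fun x => (qt p T x - 1) * σ x) := by
      unfold tv
      have : av (fun x => |qt p T x - 1|) = av (fun x => (qt p T x - 1) * σ x) := by
        congr 1
        ext x
        exact (mul_sg (fun x => qt p T x - 1) x).symm
      rw [this]
      ring
    have e2 : (P p ^ T) g 1 = av (fun x => qt p T x * g x) := by
      unfold qt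
      rw [Ppow_selfadj, av_dl_mul]
    have e3 : av (fun x => (qt p T x - 1) * σ x) =
        av (fun x => qt p T x * g x) + (av σ * av (qt p T) - av σ) := by
      rw [← av_smul, ← av_sub, ← av_add]
      congr 1
      ext x
      rw [hg]
      ring
    rw [e1, e3, av_qt h, e2]
    ring
  set Gm : V n := fun x => min 2 (Mx p g k r x) with hGm
  have hMx0 : ∀ x, 0 ≤ Mx p g k r x := fun x =>
    (abs_nonneg _).trans (le_Mx p g k r x 0 (Nat.zero_le _))
  have hGm0 : ∀ x, 0 ≤ Gm x := fun x => le_min (by norm_num) (hMx0 x)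
  have h2 : ∀ m ∈ Finset.Icc m₀ m₁, 2 * tv (qt p T) ≤ (P p ^ m) Gm 1 := by
    intro m hmI
    rw [Finset.mem_Icc] at hmI
    have e : T = m + (T - m) := by omega
    rw [h1, e, Ppow_add_apply]
    refine Ppow_mono h m (fun x => ?_) 1
    have e5 : T - m = k + (m₁ - m) := by omega
    refine le_min ?_ ?_
    · refine (le_abs_self _).trans ?_
      refine (abs_Ppow_le h _ g x).trans ?_
      refine (Ppow_mono h _ (f := fun y => |g y|) (g := fun _ => 2) hg2 x).trans ?_
      rw [Ppow_const h]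
    · refine (le_abs_self _).trans ?_
      rw [e5]
      exact le_Mx p g k r x (m₁ - m) (by omega)
  have h3 : (∑ m ∈ Finset.Icc m₀ m₁, pw s m) * (2 * tv (qt p T)) ≤ K p s Gm 1 := by
    rw [Finset.sum_mul]
    have h4 : ∑ m ∈ Finset.Icc m₀ m₁, pw s m * (2 * tv (qt p T)) ≤
        ∑ m ∈ Finset.Icc m₀ m₁, pw s m * (P p ^ m) Gm 1 :=
      Finset.sum_le_sum fun m hm => mul_le_mul_of_nonneg_left (h2 m hm) (pw_nonneg hs m)
    refine h4.trans ?_
    exact sum_le_hasSum _ (fun m _ => mul_nonneg (pw_nonneg hs m)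
      (Ppow_nonneg h m hGm0 1)) (K_hasSum p s Gm 1)
  have h5 : K p s Gm 1 ≤ av (Mx p g k r) + 4 * tv (ft p s) := by
    rw [K_one_eq]
    have h6 : av (fun x => ft p s x * Gm x) ≤
        av (fun x => Mx p g k r x + 2 * |ft p s x - 1|) := by
      refine av_mono fun x => ?_
      have e6 : ft p s x * Gm x = Gm x + (ft p s x - 1) * Gm x := by ring
      have e7 : Gm x ≤ Mx p g k r x := min_le_right _ _
      have e8 : Gm x ≤ 2 := min_le_left _ _
      have e9 : (ft p s x - 1) * Gm x ≤ |ft p s x - 1| * 2 := by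
        refine (le_abs_self _).trans ?_
        rw [abs_mul, abs_of_nonneg (hGm0 x)]
        exact mul_le_mul_of_nonneg_left e8 (abs_nonneg _)
      linarith
    rw [av_add, av_smul] at h6
    unfold tv
    linarith
  have h7 := av_Mx_le hp hc hn g hg0 hg2 k r
  have h8 := tv_le_one (qt_nonneg h T) (av_qt h T)
  have h9 : ∑ m ∈ Finset.Icc m₀ m₁, pw s m ≤ 1 :=
    sum_le_hasSum _ (fun m _ => pw_nonneg hs m) (pw_hasSum s)
  nlinarith

end Pool.Agent.Helper353.Cut
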